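import Pool.Agent.V1194.HC.Stm

/-!
# GEN (MP_3ca9d5_al, S01246): the elements `v₀⁻¹ v` generate the Bestvina-Brady group
-/

set_option autoImplicit false

namespace Pool.Agent.V1194.HC.GEN

open Pool.Agent.W326.DU Pool.Agent.Y66.HC Pool.Agent.V1194.HC

variable {V : Type} (ad : V → V → Prop)

/-- the generators -/
def x (v₀ v : V) : RAAG ad := (gen ad v₀)⁻¹ * gen ad v

/-- the subgroup generated by the `v₀⁻¹ v` -/
def H (v₀ : V) : Subgroup (RAAG ad) := Subgroup.closure (Set.range (x ad v₀))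

theorem x_mem (v₀ v : V) : x ad v₀ v ∈ H ad v₀ := Subgroup.subset_closure ⟨v, rfl⟩

variable (hcomm : ∀ a b, ad a b → gen ad a * gen ad b = gen ad b * gen ad a)
  (hconn : ∀ a b, Relation.ReflTransGen ad a b)

include hcomm in
theorem rel1 (v₀ a b : V) (h : ad a b) :
    (gen ad v₀)⁻¹ * ((x ad v₀ b)⁻¹ * x ad v₀ a) * gen ad v₀ = x ad v₀ a * (x ad v₀ b)⁻¹ := by
  have h1 := hcomm a b h
  have h2 : gen ad a * (gen ad b)⁻¹ = (gen ad b)⁻¹ * gen ad a := by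
    rw [mul_inv_eq_iff_eq_mul, mul_assoc, h1, inv_mul_cancel_left]
  simp only [x, mul_inv_rev, inv_inv]
  calc (gen ad v₀)⁻¹ * ((gen ad b)⁻¹ * gen ad v₀ * ((gen ad v₀)⁻¹ * gen ad a)) * gen ad v₀
      = (gen ad v₀)⁻¹ * ((gen ad b)⁻¹ * gen ad a) * gen ad v₀ := by group
    _ = (gen ad v₀)⁻¹ * (gen ad a * (gen ad b)⁻¹) * gen ad v₀ := by rw [h2]
    _ = _ := by group

include hcomm hconn in
theorem conj (v₀ w : V) : (gen ad v₀)⁻¹ * x ad v₀ w * gen ad v₀ ∈ H ad v₀ ∧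
    gen ad v₀ * x ad v₀ w * (gen ad v₀)⁻¹ ∈ H ad v₀ := by
  induction hconn v₀ w with
  | refl => simp [x]
  | @tail u w _ huw ih =>
    have h := rel1 ad hcomm v₀ u w huw
    constructor
    · have e : (gen ad v₀)⁻¹ * x ad v₀ w * gen ad v₀
          = ((gen ad v₀)⁻¹ * x ad v₀ u * gen ad v₀) * (x ad v₀ u * (x ad v₀ w)⁻¹)⁻¹ := by
        rw [← h]; group
      rw [e]
      exact (H ad v₀).mul_mem ih.1 ((H ad v₀).inv_mem ((H ad v₀).mul_mem (x_mem ad v₀ u)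
        ((H ad v₀).inv_mem (x_mem ad v₀ w))))
    · have h' : (x ad v₀ w)⁻¹ * x ad v₀ u
          = gen ad v₀ * (x ad v₀ u * (x ad v₀ w)⁻¹) * (gen ad v₀)⁻¹ := by
        rw [← h]; group
      have e : gen ad v₀ * x ad v₀ w * (gen ad v₀)⁻¹
          = ((x ad v₀ w)⁻¹ * x ad v₀ u)⁻¹ * (gen ad v₀ * x ad v₀ u * (gen ad v₀)⁻¹) := by
        rw [h']; group
      rw [e]
      exact (H ad v₀).mul_mem ((H ad v₀).inv_mem ((H ad v₀).mul_mem
        ((H ad v₀).inv_mem (x_mem ad v₀ w)) (x_mem ad v₀ u))) ih.2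

include hcomm hconn in
theorem v0_norm (v₀ : V) : gen ad v₀ ∈ Subgroup.normalizer (H ad v₀ : Set (RAAG ad)) := by
  have k1 : ∀ h ∈ H ad v₀, gen ad v₀ * h * (gen ad v₀)⁻¹ ∈ H ad v₀ := by
    intro h hh
    refine Subgroup.closure_induction (p := fun h _ => gen ad v₀ * h * (gen ad v₀)⁻¹ ∈ H ad v₀)
      ?_ ?_ ?_ ?_ hh
    · rintro _ ⟨w, rfl⟩
      exact (conj ad hcomm hconn v₀ w).2
    · simp
    · intro a b _ _ ha hb
      have : gen ad v₀ * (a * b) * (gen ad v₀)⁻¹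
        = (gen ad v₀ * a * (gen ad v₀)⁻¹) * (gen ad v₀ * b * (gen ad v₀)⁻¹) := by group
      rw [this]; exact (H ad v₀).mul_mem ha hb
    · intro a _ ha
      have : gen ad v₀ * a⁻¹ * (gen ad v₀)⁻¹ = (gen ad v₀ * a * (gen ad v₀)⁻¹)⁻¹ := by group
      rw [this]; exact (H ad v₀).inv_mem ha
  have k2 : ∀ h ∈ H ad v₀, (gen ad v₀)⁻¹ * h * gen ad v₀ ∈ H ad v₀ := by
    intro h hh
    refine Subgroup.closure_induction (p := fun h _ => (gen ad v₀)⁻¹ * h * gen ad v₀ ∈ H ad v₀)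
      ?_ ?_ ?_ ?_ hh
    · rintro _ ⟨w, rfl⟩
      exact (conj ad hcomm hconn v₀ w).1
    · simp
    · intro a b _ _ ha hb
      have : (gen ad v₀)⁻¹ * (a * b) * gen ad v₀
        = ((gen ad v₀)⁻¹ * a * gen ad v₀) * ((gen ad v₀)⁻¹ * b * gen ad v₀) := by group
      rw [this]; exact (H ad v₀).mul_mem ha hb
    · intro a _ ha
      have : (gen ad v₀)⁻¹ * a⁻¹ * gen ad v₀ = ((gen ad v₀)⁻¹ * a * gen ad v₀)⁻¹ := by group
      rw [this]; exact (H ad v₀).inv_mem ha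
  rw [Subgroup.mem_normalizer_iff]
  intro h
  refine ⟨k1 h, fun hh => ?_⟩
  have := k2 _ hh
  have e : (gen ad v₀)⁻¹ * (gen ad v₀ * h * (gen ad v₀)⁻¹) * gen ad v₀ = h := by group
  rwa [e] at this

include hcomm hconn in
theorem H_normal (v₀ : V) : (H ad v₀).Normal := by
  rw [← Subgroup.normalizer_eq_top_iff, eq_top_iff, ← PresentedGroup.closure_range_of,
    Subgroup.closure_le]
  rintro _ ⟨v, rfl⟩
  have e : (PresentedGroup.of v : RAAG ad) = gen ad v₀ * x ad v₀ v := by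
    simp only [x, mul_inv_cancel_left]
    rfl
  rw [e]
  exact mul_mem (v0_norm ad hcomm hconn v₀) (Subgroup.le_normalizer (x_mem ad v₀ v))

include hcomm hconn in
theorem ker_le (v₀ : V) (g : RAAG ad) (hg : hgt ad g = 1) : g ∈ H ad v₀ := by
  have := H_normal ad hcomm hconn v₀
  have e : (zpowersHom (RAAG ad ⧸ H ad v₀) (QuotientGroup.mk (gen ad v₀))).comp (hgt ad)
      = QuotientGroup.mk' (H ad v₀) := by
    refine PresentedGroup.ext fun v => ?_
    have h1 : hgt ad (PresentedGroup.of v) = Multiplicative.ofAdd 1 := hgt_gen ad v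
    rw [MonoidHom.comp_apply, h1]
    simp only [zpowersHom_apply, toAdd_ofAdd, zpow_one, QuotientGroup.mk'_apply]
    rw [QuotientGroup.eq]
    exact x_mem ad v₀ v
  have h2 := congrArg (fun f => f g) e
  simp only [MonoidHom.comp_apply, hg, map_one] at h2
  exact (QuotientGroup.eq_one_iff g).1 h2.symm

/-- **GEN** -/
theorem th : PropGEN := by
  intro V J _ _ ad γ l p hD v₀ q
  have hcomm : ∀ a b, ad a b → gen ad a * gen ad b = gen ad b * gen ad a := by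
    intro a b h
    have h1 : (PresentedGroup.mk (rels ad))
        (FreeGroup.of a * FreeGroup.of b * (FreeGroup.of a)⁻¹ * (FreeGroup.of b)⁻¹) = 1 :=
      PresentedGroup.one_of_mem ⟨a, b, h, rfl⟩
    simp only [map_mul, map_inv] at h1
    exact mul_inv_eq_iff_eq_mul.1 (mul_inv_eq_one.1 h1)
  have h1 : q.1 ∈ H ad v₀ := ker_le ad hcomm hD.conn v₀ q.1 q.2
  have h2 : H ad v₀ ≤ ((BB ad).subtype.comp (piF ad v₀)).range := by
    rw [H, Subgroup.closure_le]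
    rintro _ ⟨v, rfl⟩
    refine ⟨FreeGroup.of v, ?_⟩
    simp [piF, xg, x]
  obtain ⟨f, hf⟩ := h2 h1
  exact ⟨f, Subtype.ext hf⟩

end Pool.Agent.V1194.HC.GEN
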