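import Pool.Agent.Y448.HC.Aug

/-!
# M1: if `G` is of type `FP₂` then the relation module of a finite generating family is f.g.
-/

set_option autoImplicit false

open CategoryTheory

namespace Pool.Agent.V1194.HC.M1

open Pool.Agent.W326.DU Pool.Agent.Y66.HC Pool.Agent.Helper158 Pool.Agent.Y448.HC

variable {G ι : Type} [Group G] [Fintype ι]

/-- exactness in `Rep`, elementwise -/
theorem exact_elt {k G : Type} [CommRing k] [Group G] (S : ShortComplex (Rep.{0} k G))
    (h : S.Exact) (x : S.X₂) (hx : S.g.hom x = 0) : ∃ y : S.X₁, S.f.hom y = x := by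
  have h2 := h.map (forget₂ _ (ModuleCat k))
  rw [ShortComplex.moduleCat_exact_iff] at h2
  exact h2 x hx

/-- the augmentation as a morphism -/
noncomputable def aug (G : Type) [Group G] : FMk ℤ (G := G) (ZG G) ⟶ Rep.trivial ℤ G ℤ :=
  mkHom (k := ℤ) (G := G) (augm G).toIntLinearMap (by
    intro g x
    change augm G (MonoidAlgebra.of ℤ G g * x) = augm G x
    rw [augm_mul, augm_of, one_mul])

theorem aug_apply (x : ZG G) : (aug G).hom x = augm G x := rfl

/-- an endomorphism of a module over the group ring as a linear map -/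
noncomputable def toLin {M N : Type} [AddCommGroup M] [Module (ZG G) M] [AddCommGroup N]
    [Module (ZG G) N]
    (f : FMk ℤ (G := G) M ⟶ FMk ℤ (G := G) N) : M →ₗ[ZG G] N :=
  mkLin (k := ℤ) (f.hom.toLinearMap : M →ₗ[ℤ] N) (by
    intro g x
    exact Rep.hom_comm_apply f g x)

theorem toLin_apply {M N : Type} [AddCommGroup M] [Module (ZG G) M] [AddCommGroup N]
    [Module (ZG G) N]
    (f : FMk ℤ (G := G) M ⟶ FMk ℤ (G := G) N) (x : M) : toLin f x = f.hom x := rfl

theorem th : PropM1 := by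
  intro G ι _ _ x hx ⟨R, hR⟩
  obtain ⟨s, hs⟩ := hR 2 le_rfl
  have e0 := R.exact₀
  have e1 := R.exact_succ 0
  let C0 : Rep.{0} ℤ G := FMk ℤ (G := G) (ZG G)
  let C1 : Rep.{0} ℤ G := FMk ℤ (G := G) (ι → ZG G)
  let f : C1 ⟶ C0 := lhom (fox x)
  let a : C0 ⟶ Rep.trivial ℤ G ℤ := aug G
  have : Projective C0 := inferInstanceAs (Projective (FMk ℤ (G := G) (ZG G)))
  have : Projective C1 := inferInstanceAs (Projective (FMk ℤ (G := G) (ι → ZG G)))
  let π : R.complex.X 0 ⟶ Rep.trivial ℤ G ℤ := R.π.f 0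
  have hπ : Epi π := inferInstanceAs (Epi (R.π.f 0))
  have ha : Epi a := by
    rw [Rep.epi_iff_surjective]
    intro n
    obtain ⟨y, hy⟩ := augm_surj (G := G) n
    exact ⟨y, hy⟩
  have hfa : f ≫ a = 0 := by
    ext c
    exact augm_fox x c
  have eC : (ShortComplex.mk f a hfa).Exact := by
    apply rep_exact
    intro y hy
    exact (fox_exact x hx y).1 hy
  have hdπ : R.complex.d 1 0 ≫ π = 0 := R.complex_d_comp_π_f_zero
  -- the chain maps and the homotopy
  obtain ⟨φ0, hφ0⟩ : ∃ φ0 : C0 ⟶ R.complex.X 0, φ0 ≫ π = a :=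
    ⟨Projective.factorThru a π, Projective.factorThru_comp a π⟩
  obtain ⟨φ1, hφ1⟩ : ∃ φ1 : C1 ⟶ R.complex.X 1, φ1 ≫ R.complex.d 1 0 = f ≫ φ0 :=
    ⟨e0.liftFromProjective (f ≫ φ0) (by
      change (f ≫ φ0) ≫ π = 0
      rw [Category.assoc, hφ0, hfa]), e0.liftFromProjective_comp _ _⟩
  obtain ⟨ψ0, hψ0⟩ : ∃ ψ0 : R.complex.X 0 ⟶ C0, ψ0 ≫ a = π :=
    ⟨Projective.factorThru π a, Projective.factorThru_comp π a⟩
  obtain ⟨ψ1, hψ1⟩ : ∃ ψ1 : R.complex.X 1 ⟶ C1, ψ1 ≫ f = R.complex.d 1 0 ≫ ψ0 :=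
    ⟨eC.liftFromProjective (R.complex.d 1 0 ≫ ψ0) (by
      change (R.complex.d 1 0 ≫ ψ0) ≫ a = 0
      rw [Category.assoc, hψ0, hdπ]), eC.liftFromProjective_comp _ _⟩
  obtain ⟨h, hh⟩ : ∃ h : C0 ⟶ C1, h ≫ f = φ0 ≫ ψ0 - 𝟙 C0 :=
    ⟨eC.liftFromProjective (φ0 ≫ ψ0 - 𝟙 C0) (by
      change (φ0 ≫ ψ0 - 𝟙 C0) ≫ a = 0
      rw [Preadditive.sub_comp, Category.assoc, hψ0, hφ0, Category.id_comp, sub_self]),
      eC.liftFromProjective_comp _ _⟩
  let κ : C1 ⟶ C1 := φ1 ≫ ψ1 - 𝟙 C1 - f ≫ h
  have hκ : κ ≫ f = 0 := by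
    change (φ1 ≫ ψ1 - 𝟙 C1 - f ≫ h) ≫ f = 0
    rw [Preadditive.sub_comp, Preadditive.sub_comp, Category.assoc, Category.assoc, hψ1, hh,
      Category.id_comp, ← Category.assoc, hφ1, Preadditive.comp_sub, Category.comp_id,
      Category.assoc]
    abel
  let β : R.complex.X 2 ⟶ C1 := R.complex.d 2 1 ≫ ψ1
  have hβ : β ≫ f = 0 := by
    change (R.complex.d 2 1 ≫ ψ1) ≫ f = 0
    rw [Category.assoc, hψ1, ← Category.assoc, R.complex.d_comp_d, Limits.zero_comp]
  -- the generators
  classical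
  let kl : (ι → ZG G) →ₗ[ZG G] (ι → ZG G) := toLin κ
  let T : Finset (ι → ZG G) :=
    (Finset.univ.image fun i : ι => kl (Pi.single i 1)) ∪ s.image fun z => β.hom z
  refine ⟨T, le_antisymm ?_ ?_⟩
  · rw [Submodule.span_le]
    intro y hy
    rw [Finset.mem_coe, Finset.mem_union, Finset.mem_image, Finset.mem_image] at hy
    rcases hy with ⟨i, _, rfl⟩ | ⟨z, _, rfl⟩
    · have := congrArg (fun u : C1 ⟶ C0 => u.hom (Pi.single i 1 : ι → ZG G)) hκ
      exact this
    · have := congrArg (fun u : R.complex.X 2 ⟶ C0 => u.hom z) hβ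
      exact this
  · intro y hy
    have hy' : fox x y = 0 := hy
    have h1 : (R.complex.d 1 0).hom (φ1.hom y) = 0 := by
      have := congrArg (fun u : C1 ⟶ R.complex.X 0 => u.hom y) hφ1
      refine this.trans ?_
      change φ0.hom (fox x y) = 0
      rw [hy']
      exact map_zero φ0.hom
    obtain ⟨z, hz⟩ := exact_elt _ e1 (φ1.hom y) h1
    have h2 : y = β.hom z - kl y := by
      have e : kl y = ψ1.hom (φ1.hom y) - y - h.hom (fox x y) := rfl
      have e2 : β.hom z = ψ1.hom (φ1.hom y) := by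
        change ψ1.hom ((R.complex.d 2 1).hom z) = _
        exact congrArg (fun w => ψ1.hom w) hz
      rw [e, e2, hy']
      have e3 : h.hom (0 : ZG G) = 0 := map_zero h.hom
      have e4 : ψ1.hom (φ1.hom y) - (ψ1.hom (φ1.hom y) - y - h.hom (0 : ZG G)) = y := by
        rw [e3]
        have : ∀ a b : ι → ZG G, a - (a - b - 0) = b := by
          intro a b
          rw [sub_zero, sub_sub_cancel]
        exact this _ _
      exact e4.symm
    rw [h2]
    refine Submodule.sub_mem _ ?_ ?_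
    · have hz := hs z
      refine Submodule.span_induction (p := fun z _ => β.hom z ∈ Submodule.span (ZG G)
        (T : Set (ι → ZG G))) ?_ ?_ ?_ ?_ hz
      · rintro _ ⟨⟨g, w⟩, rfl⟩
        have e := Rep.hom_comm_apply β g (w : (R.complex.X 2).V)
        change β.hom ((R.complex.X 2).ρ g (w : (R.complex.X 2).V)) ∈ _
        rw [e]
        refine Submodule.smul_mem _ (MonoidAlgebra.of ℤ G g) (Submodule.subset_span ?_)
        rw [Finset.mem_coe, Finset.mem_union]
        exact Or.inr (Finset.mem_image.2 ⟨w, w.2, rfl⟩)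
      · have : β.hom (0 : (R.complex.X 2).V) = 0 := map_zero β.hom
        rw [this]
        exact Submodule.zero_mem _
      · intro u v _ _ hu hv
        have : β.hom (u + v) = β.hom u + β.hom v := map_add β.hom u v
        rw [this]
        exact Submodule.add_mem _ hu hv
      · intro n u _ hu
        have : β.hom (n • u) = n • β.hom u := map_zsmul β.hom n u
        rw [this]
        exact Submodule.smul_of_tower_mem _ n hu
    · have e : y = ∑ i, y i • (Pi.single i 1 : ι → ZG G) := by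
        funext j
        rw [Finset.sum_apply, Finset.sum_eq_single j]
        · simp
        · intro i _ hi
          simp [Pi.single_eq_of_ne (Ne.symm hi)]
        · simp
      rw [e, map_sum]
      refine Submodule.sum_mem _ fun i _ => ?_
      rw [map_smul]
      refine Submodule.smul_mem _ _ (Submodule.subset_span ?_)
      rw [Finset.mem_coe, Finset.mem_union]
      exact Or.inl (Finset.mem_image.2 ⟨i, Finset.mem_univ i, rfl⟩)

end Pool.Agent.V1194.HC.M1
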