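import Pool.Agent.V1194.HC.Stm
import Pool.Agent.Y448.HC.Aug
import Pool.Agent.Helper158.Bridge
import Pool.Agent.W304.DU.RG

/-!
# M2: finite generation of the relation module gives type `FP₂`; the relation module of a free
# group vanishes
-/

set_option autoImplicit false

open CategoryTheory

namespace Pool.Agent.V1194.HC.M2

open Pool.Agent.W326.DU Pool.Agent.Y66.HC Pool.Agent.Helper158

section span

variable {G : Type} [Group G] {M : Type} [AddCommGroup M] [Module (ZG G) M]

/-- `ℤ`-span of the translates is stable under the group ring -/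
theorem smul_mem_span (s : Set M) (r : ZG G) (x : M)
    (hx : x ∈ Submodule.span ℤ (Set.range fun p : G × s => MonoidAlgebra.of ℤ G p.1 • (p.2 : M))) :
    r • x ∈ Submodule.span ℤ
      (Set.range fun p : G × s => MonoidAlgebra.of ℤ G p.1 • (p.2 : M)) := by
  induction r using MonoidAlgebra.induction_on with
  | of g =>
    induction hx using Submodule.span_induction with
    | mem y hy =>
      obtain ⟨⟨h, m⟩, rfl⟩ := hy
      refine Submodule.subset_span ⟨(g * h, m), ?_⟩
      change MonoidAlgebra.of ℤ G (g * h) • (m : M) = _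
      rw [map_mul, mul_smul]
    | zero => rw [smul_zero]; exact zero_mem _
    | add a b _ _ ha hb => rw [smul_add]; exact add_mem ha hb
    | smul n a _ ha =>
      have h1 : MonoidAlgebra.of ℤ G g • (n • a) = n • (MonoidAlgebra.of ℤ G g • a) :=
        smul_comm _ _ _
      rw [h1]
      exact Submodule.smul_mem _ _ ha
  | add a b ha hb => rw [add_smul]; exact add_mem ha hb
  | smul n a ha =>
    have h1 : (n • a) • x = n • (a • x) := smul_assoc _ _ _
    rw [h1]
    exact Submodule.smul_mem _ _ ha

theorem mem_span_of (s : Set M) (hs : Submodule.span (ZG G) s = ⊤) (x : M) :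
    x ∈ Submodule.span ℤ
      (Set.range fun p : G × s => MonoidAlgebra.of ℤ G p.1 • (p.2 : M)) := by
  have hx : x ∈ Submodule.span (ZG G) s := by rw [hs]; trivial
  induction hx using Submodule.span_induction with
  | mem y hy =>
    refine Submodule.subset_span ⟨(1, ⟨y, hy⟩), ?_⟩
    change MonoidAlgebra.of ℤ G 1 • y = y
    rw [map_one, one_smul]
  | zero => exact zero_mem _
  | add a b _ _ ha hb => exact add_mem ha hb
  | smul r a _ ha => exact smul_mem_span s r a ha

theorem fin_span [Module.Finite (ZG G) M] : ∃ s : Finset M, ∀ x : M,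
    x ∈ Submodule.span ℤ
      (Set.range fun p : G × s => MonoidAlgebra.of ℤ G p.1 • (p.2 : M)) := by
  obtain ⟨s, hs⟩ := (Module.Finite.fg_top : (⊤ : Submodule (ZG G) M).FG)
  exact ⟨s, fun x => mem_span_of (s : Set M) hs x⟩

end span

section seq

universe u

/-- a map of modules -/
structure St (R : Type) [Ring R] where
  /-- the target -/
  A : ModuleCat.{0} R
  /-- the source -/
  B : ModuleCat.{0} R
  /-- the map -/
  d : B →ₗ[R] A

variable {R : Type} [Ring R]

/-- the next stage: the free module on the kernel -/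
noncomputable def nx (s : St R) : St R where
  A := s.B
  B := ModuleCat.of R (LinearMap.ker s.d →₀ R)
  d := Finsupp.linearCombination R (Subtype.val : LinearMap.ker s.d → s.B)

/-- the sequence of stages -/
noncomputable def sq (s : St R) : ℕ → St R
  | 0 => s
  | n + 1 => nx (sq s n)

/-- the modules -/
noncomputable def Pm (A₀ : ModuleCat.{0} R) (s : St R) : ℕ → ModuleCat.{0} R
  | 0 => A₀
  | n + 1 => (sq s n).A

/-- the differentials -/
noncomputable def dm (A₀ : ModuleCat.{0} R) (s : St R) (f : s.A →ₗ[R] A₀) :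
    ∀ i : ℕ, Pm A₀ s (i + 1) →ₗ[R] Pm A₀ s i
  | 0 => f
  | n + 1 => (sq s n).d

theorem nx_exact (s : St R) (y : s.B) :
    s.d y = 0 ↔ y ∈ LinearMap.range (nx s).d := by
  constructor
  · intro h
    refine ⟨Finsupp.single ⟨y, h⟩ 1, ?_⟩
    change Finsupp.linearCombination R (Subtype.val : LinearMap.ker s.d → s.B)
      (Finsupp.single ⟨y, h⟩ 1) = y
    rw [Finsupp.linearCombination_single, one_smul]
  · rintro ⟨c, rfl⟩
    change s.d (Finsupp.linearCombination R (Subtype.val : LinearMap.ker s.d → s.B) c) = 0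
    rw [Finsupp.linearCombination_apply, Finsupp.sum, map_sum]
    refine Finset.sum_eq_zero fun i _ => ?_
    rw [map_smul, i.2, smul_zero]

theorem sq_proj (s : St R) (h : Module.Projective R s.B) (n : ℕ) :
    Module.Projective R (sq s n).B := by
  cases n with
  | zero => exact h
  | succ n =>
    change Module.Projective R (LinearMap.ker (sq s n).d →₀ R)
    infer_instance

theorem Pm_proj (A₀ : ModuleCat.{0} R) (s : St R) (h0 : Module.Projective R A₀)
    (h1 : Module.Projective R s.A) (h2 : Module.Projective R s.B) (n : ℕ) :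
    Module.Projective R (Pm A₀ s n) := by
  match n with
  | 0 => exact h0
  | 1 => exact h1
  | n + 2 => exact sq_proj s h2 n

end seq

theorem th : PropM2 := by
  intro G ι _ _ x hx hfg
  have : Module.Finite (ZG G) (RM x) := Module.Finite.of_fg hfg
  obtain ⟨n, q, hq⟩ := Module.Finite.exists_fin' (ZG G) (RM x)
  let s : St (ZG G) :=
    { A := ModuleCat.of (ZG G) (ι → ZG G)
      B := ModuleCat.of (ZG G) (Fin n → ZG G)
      d := (RM x).subtype ∘ₗ q }
  let A₀ : ModuleCat.{0} (ZG G) := ModuleCat.of (ZG G) (ZG G)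
  let f : s.A →ₗ[ZG G] A₀ := fox x
  have hR : Reso (G := G) (P := fun i => Pm A₀ s i) (dm A₀ s f) (augm G) := by
    refine ⟨Pool.Agent.Y448.HC.augm_surj, ?_, ?_, ?_⟩
    · intro g (y : ZG G)
      change augm G (MonoidAlgebra.of ℤ G g * y) = augm G y
      rw [Pool.Agent.Y448.HC.augm_mul, Pool.Agent.Y448.HC.augm_of, one_mul]
    · intro y
      exact Pool.Agent.Y448.HC.fox_exact x hx y
    · intro i
      match i with
      | 0 =>
        intro y
        change fox x y = 0 ↔ y ∈ LinearMap.range ((RM x).subtype ∘ₗ q)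
        constructor
        · intro hy
          obtain ⟨c, hc⟩ := hq ⟨y, hy⟩
          refine ⟨c, ?_⟩
          change ((q c : RM x) : ι → ZG G) = y
          rw [hc]
        · rintro ⟨c, rfl⟩
          exact (q c).2
      | i + 1 =>
        intro y
        exact nx_exact (sq s i) y
  have hP : ∀ i, Module.Projective (MonoidAlgebra ℤ G) (Pm A₀ s i) := fun i =>
    Pm_proj A₀ s (inferInstanceAs (Module.Projective (ZG G) (ZG G)))
      (inferInstanceAs (Module.Projective (ZG G) (ι → ZG G)))
      (inferInstanceAs (Module.Projective (ZG G) (Fin n → ZG G))) i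
  refine ⟨hR.pr, ?_⟩
  intro k hk
  match k, hk with
  | 0, _ => exact fin_span (G := G) (M := ZG G)
  | 1, _ => exact fin_span (G := G) (M := ι → ZG G)
  | 2, _ => exact fin_span (G := G) (M := Fin n → ZG G)
  | k + 3, hk => omega


section free

open Pool.Agent.W304.DU.RG

theorem free : PropFREE := by
  classical
  intro V _
  rw [eq_bot_iff]
  intro c hc
  rw [Submodule.mem_bot]
  funext v
  let F := FreeGroup V
  let f : V → Equiv.Perm (ZG F) := fun w =>
    if w = v then Equiv.addRight (1 : ZG F) * A ℤ (ZG F) (FreeGroup.of w)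
    else A ℤ (ZG F) (FreeGroup.of w)
  let Ψ : F →* Equiv.Perm (ZG F) := FreeGroup.lift f
  have hΨ : ∀ w, Ψ (FreeGroup.of w) = f w := fun w => FreeGroup.lift_apply_of
  have h0 : ∀ w, Ψ (FreeGroup.of w) 0 = if w = v then 1 else 0 := by
    intro w
    rw [hΨ]
    by_cases hw : w = v
    · simp only [f, if_pos hw]
      change MonoidAlgebra.of ℤ F _ • (0 : ZG F) + 1 = 1
      rw [smul_zero, zero_add]
    · simp only [f, if_neg hw]
      change MonoidAlgebra.of ℤ F _ • (0 : ZG F) = 0
      rw [smul_zero]
  have haff := affine (R := ℤ) Ψ (Set.range FreeGroup.of) (FreeGroup.closure_range_of V) (by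
    rintro _ ⟨w, rfl⟩ x
    rw [h0, hΨ]
    by_cases hw : w = v
    · simp only [f, if_pos hw]
      rfl
    · simp only [f, if_neg hw]
      change MonoidAlgebra.of ℤ F _ • x = _
      rw [add_zero])
  let δ : F → ZG F := fun g => Ψ g 0
  have hδ : ∀ g h, δ (g * h) = δ g + MonoidAlgebra.of ℤ F g • δ h := by
    intro g h
    change Ψ (g * h) 0 = Ψ g 0 + MonoidAlgebra.of ℤ F g • Ψ h 0
    rw [map_mul, Equiv.Perm.mul_apply, haff g (Ψ h 0), add_comm]
  have hc' : ∑ w, c w * (MonoidAlgebra.of ℤ F (FreeGroup.of w) - 1) = 0 := hc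
  have h1 := congrArg (D δ) hc'
  rw [map_sum, map_zero] at h1
  have h2 : ∀ w, D δ (c w * (MonoidAlgebra.of ℤ F (FreeGroup.of w) - 1)) =
      if w = v then c w else 0 := by
    intro w
    rw [D_mul_sub δ hδ]
    change c w • Ψ (FreeGroup.of w) 0 = _
    rw [h0]
    split_ifs
    · rw [smul_eq_mul, mul_one]
    · rw [smul_zero]
  simp only [h2] at h1
  rw [Finset.sum_ite_eq' Finset.univ v, if_pos (Finset.mem_univ v)] at h1
  exact h1

end free

end Pool.Agent.V1194.HC.M2
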