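import Pool.Agent.V1194.HC.M8D

/-!
# Part M8 (MP_3ca9d5_al, S01246): existence of the graph data

The barycentric subdivision of a spine of the Poincaré homology sphere is a finite `K₄`-free
acyclic flag complex with a nontrivial cocycle with values in `Perm (Fin 5)`.
-/

set_option autoImplicit false

namespace Pool.Agent.V1194.HC.M8

open Pool.Agent.W326.DU Pool.Agent.Y66.HC Finset

variable {M : Type} [AddCommGroup M]

/-- the alternating function of a chain -/
def yf (y : ℕ → M) (a b : V) : M := ∑ i ∈ range 80, A2 i a b • y i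

/-- alternating indicator of a triangle -/
def A3 (t a b c : ℕ) : ℤ := J a (ea (f2 t)) * A2 (f0 t) b c - J a (eb (f2 t)) * A2 (f1 t) b c
  + J a (eb (f0 t)) * A2 (f2 t) b c

/-- the alternating function of a chain -/
def zf (z : ℕ → M) (a b c : V) : M := ∑ t ∈ range 60, A3 t a b c • z t

/-- product of indicators -/
def P (t a b c : ℕ) : ℤ := J a (ea (f2 t)) * J b (eb (f2 t)) * J c (eb (f0 t))

theorem A3_eq {t : ℕ} (ht : t < 60) (a b c : ℕ) : A3 t a b c =
    P t a b c - P t a c b - P t b a c + P t c a b + P t b c a - P t c b a := by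
  obtain ⟨-, -, -, h1, h2, h3⟩ := ck_faces t ht
  simp only [A3, A2, P, h1, h2, h3]
  ring

theorem sum_J {p : ℕ} (hp : p < 21) : ∑ a : V, J (a : ℕ) p = 1 := by
  rw [Finset.sum_eq_single (⟨p, hp⟩ : V)]
  · simp [J]
  · intro b _ hb
    have : (b : ℕ) ≠ p := fun h => hb (Fin.ext h)
    simp [J, this]
  · intro h
    exact absurd (Finset.mem_univ _) h

theorem sum_A2 {i : ℕ} (hi : i < 80) (b : ℕ) : ∑ a : V, A2 i (a : ℕ) b = d1 b i := by
  obtain ⟨h1, h2, -⟩ := ck_ends i hi
  simp only [A2, d1]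
  rw [Finset.sum_sub_distrib, ← Finset.sum_mul, ← Finset.mul_sum, sum_J h1, sum_J h2]
  ring

theorem yf_bd (y : ℕ → M) (b : V) : ∑ a, yf y a b = ∑ i ∈ range 80, d1 b i • y i := by
  simp only [yf]
  rw [Finset.sum_comm]
  refine Finset.sum_congr rfl fun i hi => ?_
  rw [← Finset.sum_smul, sum_A2 (Finset.mem_range.1 hi)]

theorem sum_A3 {t : ℕ} (ht : t < 60) (b c : ℕ) : ∑ a : V, A3 t (a : ℕ) b c
    = A2 (f0 t) b c - A2 (f1 t) b c + A2 (f2 t) b c := by
  obtain ⟨g0, g1, g2, -, -, -⟩ := ck_faces t ht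
  obtain ⟨h1, h2, -⟩ := ck_ends _ g2
  obtain ⟨-, h4, -⟩ := ck_ends _ g0
  simp only [A3]
  rw [Finset.sum_add_distrib, Finset.sum_sub_distrib, ← Finset.sum_mul, ← Finset.sum_mul,
    ← Finset.sum_mul, sum_J h1, sum_J h2, sum_J h4]
  ring

theorem sum_Jr {n p : ℕ} (hp : p < n) (g : ℕ → ℤ) : ∑ i ∈ range n, J i p * g i = g p := by
  rw [Finset.sum_eq_single p]
  · simp [J]
  · intro b _ hb
    simp [J, hb]
  · intro h
    exact absurd (Finset.mem_range.2 hp) h

theorem sum_Jsm {n p : ℕ} (hp : p < n) (g : ℕ → M) : ∑ i ∈ range n, J p i • g i = g p := by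
  rw [Finset.sum_eq_single p]
  · simp [J]
  · intro b _ hb
    simp [J, Ne.symm hb]
  · intro h
    exact absurd (Finset.mem_range.2 hp) h

theorem sum_d2A2 {t : ℕ} (ht : t < 60) (b c : ℕ) : ∑ i ∈ range 80, d2 i t * A2 i b c
    = A2 (f0 t) b c - A2 (f1 t) b c + A2 (f2 t) b c := by
  obtain ⟨g0, g1, g2, -, -, -⟩ := ck_faces t ht
  simp only [d2, add_mul, sub_mul]
  rw [Finset.sum_add_distrib, Finset.sum_sub_distrib, sum_Jr g0, sum_Jr g1, sum_Jr g2]

theorem zf_bd (z : ℕ → M) (b c : V) : ∑ a, zf z a b c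
    = yf (fun i => ∑ t ∈ range 60, d2 i t • z t) b c := by
  simp only [zf, yf]
  rw [Finset.sum_comm]
  simp only [Finset.smul_sum]
  rw [Finset.sum_comm (s := range 80)]
  refine Finset.sum_congr rfl fun t ht => ?_
  rw [← Finset.sum_smul, sum_A3 (Finset.mem_range.1 ht), ← sum_d2A2 (Finset.mem_range.1 ht),
    Finset.sum_smul]
  refine Finset.sum_congr rfl fun i _ => ?_
  rw [smul_smul, mul_comm]

theorem pe_val {i : ℕ} (hi : i < 80) : ((pe i : V) : ℕ) = ea i := by
  obtain ⟨h1, -, -⟩ := ck_ends i hi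
  simp [pe, Fin.ofNat, Nat.mod_eq_of_lt h1]

theorem qe_val {i : ℕ} (hi : i < 80) : ((qe i : V) : ℕ) = eb i := by
  obtain ⟨-, h1, -⟩ := ck_ends i hi
  simp [qe, Fin.ofNat, Nat.mod_eq_of_lt h1]

theorem yf_dual (y : ℕ → M) {i : ℕ} (hi : i < 80) : yf y (pe i) (qe i) = y i := by
  simp only [yf]
  rw [← sum_Jsm hi y]
  refine Finset.sum_congr rfl fun j hj => ?_
  rw [pe_val hi, qe_val hi, ck_dual i hi j (Finset.mem_range.1 hj)]

theorem JJ (y : V → V → M) {i : ℕ} (hi : i < 80) (a b : V) :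
    (J a (ea i) * J b (eb i)) • y (pe i) (qe i) = I2 i a b • y a b := by
  by_cases h1 : (a : ℕ) = ea i
  · by_cases h2 : (b : ℕ) = eb i
    · have e1 : pe i = a := Fin.ext (by rw [pe_val hi, h1])
      have e2 : qe i = b := Fin.ext (by rw [qe_val hi, h2])
      rw [e1, e2]
      simp [J, I2, h1, h2]
    · simp [J, I2, h2]
  · simp [J, I2, h1]

theorem JJJ (z : V → V → V → M) {t : ℕ} (ht : t < 60) (a b c : V) :
    P t a b c • z (pe (f2 t)) (qe (f2 t)) (qe (f0 t)) = I3 t a b c • z a b c := by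
  obtain ⟨g0, g1, g2, -, -, -⟩ := ck_faces t ht
  by_cases h1 : (a : ℕ) = ea (f2 t)
  · by_cases h2 : (b : ℕ) = eb (f2 t)
    · by_cases h3 : (c : ℕ) = eb (f0 t)
      · have e1 : pe (f2 t) = a := Fin.ext (by rw [pe_val g2, h1])
        have e2 : qe (f2 t) = b := Fin.ext (by rw [qe_val g2, h2])
        have e3 : qe (f0 t) = c := Fin.ext (by rw [qe_val g0, h3])
        rw [e1, e2, e3]
        simp [P, J, I3, h1, h2, h3]
      · simp [P, J, I3, h3]
    · simp [P, J, I3, h2]
  · simp [P, J, I3, h1]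

theorem list_sum_range (n : ℕ) (f : ℕ → ℕ) :
    ((List.range n).map f).sum = ∑ i ∈ range n, f i := by
  rw [Finset.sum_range, ← List.sum_ofFn]
  congr 1
  rw [List.ofFn_eq_map, ← List.map_coe_finRange_eq_range, List.map_map]
  rfl

theorem list_sum_range' (n : ℕ) (f : ℕ → ℤ) :
    ((List.range n).map f).sum = ∑ i ∈ range n, f i := by
  rw [Finset.sum_range, ← List.sum_ofFn]
  congr 1
  rw [List.ofFn_eq_map, ← List.map_coe_finRange_eq_range, List.map_map]
  rfl

theorem complete2 (y : V → V → M) (hy : IsAlt2 ad Set.univ y) (a b : V) :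
    yf (fun i => y (pe i) (qe i)) a b = y a b := by
  have key : yf (fun i => y (pe i) (qe i)) a b
      = (∑ i ∈ range 80, (I2 i a b + I2 i b a)) • y a b := by
    rw [Finset.sum_smul]
    simp only [yf]
    refine Finset.sum_congr rfl fun i hi => ?_
    have hi' := Finset.mem_range.1 hi
    rw [A2, sub_smul, JJ y hi' a b, mul_comm (J b (ea i)), mul_comm (J a (eb i)), JJ y hi' b a,
      hy.1 b a, add_smul, smul_neg, sub_neg_eq_add]
  rw [key]
  by_cases h : ad a b
  · have := ck_E a a.2 b b.2 h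
    rw [list_sum_range] at this
    rw [this, one_smul]
  · rw [hy.2 a b (fun hh => h hh.2.2), smul_zero]

theorem complete3 (z : V → V → V → M) (hz : IsAlt3 ad Set.univ z) (a b c : V) :
    zf (fun t => z (pe (f2 t)) (qe (f2 t)) (qe (f0 t))) a b c = z a b c := by
  have key : zf (fun t => z (pe (f2 t)) (qe (f2 t)) (qe (f0 t))) a b c
      = (∑ t ∈ range 60, (I3 t a b c + I3 t b c a + I3 t c a b + I3 t b a c
      + I3 t a c b + I3 t c b a)) • z a b c := by
    rw [Finset.sum_smul]
    simp only [zf]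
    refine Finset.sum_congr rfl fun t ht => ?_
    have ht' := Finset.mem_range.1 ht
    have e1 : z a c b = - z a b c := hz.2.1 a c b
    have e2 : z b a c = - z a b c := hz.1 b a c
    have e3 : z b c a = z a b c := by rw [hz.2.1 b c a, e2, neg_neg]
    have e4 : z c a b = z a b c := by rw [hz.1 c a b, e1, neg_neg]
    have e5 : z c b a = - z a b c := by rw [hz.1 c b a, e3]
    rw [A3_eq ht', sub_smul, add_smul, add_smul, sub_smul, sub_smul,
      JJJ z ht' a b c, JJJ z ht' a c b, JJJ z ht' b a c, JJJ z ht' c a b, JJJ z ht' b c a,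
      JJJ z ht' c b a, e1, e2, e3, e4, e5]
    simp only [add_smul, smul_neg]
    abel
  rw [key]
  by_cases h : ad a b ∧ ad b c ∧ ad a c
  · have := (ck_T a a.2 b b.2 c c.2).resolve_left (fun hh => hh h)
    rw [N3, list_sum_range] at this
    rw [this, one_smul]
  · rw [hz.2.2 a b c (fun hh => h hh.2.2.2), smul_zero]

theorem yf_alt (y : ℕ → M) : IsAlt2 ad Set.univ (yf y) := by
  refine ⟨fun a b => ?_, fun a b h => ?_⟩
  · simp only [yf]
    rw [← Finset.sum_neg_distrib]
    refine Finset.sum_congr rfl fun i _ => ?_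
    rw [← neg_smul]
    congr 1
    simp only [A2]
    ring
  · simp only [yf]
    refine Finset.sum_eq_zero fun i hi => ?_
    have hi' := Finset.mem_range.1 hi
    obtain ⟨-, -, h3⟩ := ck_ends i hi'
    have n : ¬ ad a b := fun hh => h ⟨trivial, trivial, hh⟩
    have e1 : J a (ea i) * J b (eb i) = 0 := by
      by_contra hne
      have h1 : (a : ℕ) = ea i := by
        by_contra h1; exact hne (by simp [J, h1])
      have h2 : (b : ℕ) = eb i := by
        by_contra h2; exact hne (by simp [J, h2])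
      exact n (by rw [ad, h1, h2]; exact h3)
    have e2 : J b (ea i) * J a (eb i) = 0 := by
      by_contra hne
      have h1 : (b : ℕ) = ea i := by
        by_contra h1; exact hne (by simp [J, h1])
      have h2 : (a : ℕ) = eb i := by
        by_contra h2; exact hne (by simp [J, h2])
      exact n (ck_symm _ _ (by rw [ad, h1, h2]; exact h3))
    rw [A2, e1, e2]
    simp

theorem P_zero {t : ℕ} (ht : t < 60) (a b c : V) (h : ¬ (ad a b ∧ ad b c ∧ ad a c)) :
    P t a b c = 0 := by
  obtain ⟨g0, g1, g2, h1, h2, h3⟩ := ck_faces t ht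
  by_contra hne
  have k1 : (a : ℕ) = ea (f2 t) := by
    by_contra h1; exact hne (by simp [P, J, h1])
  have k2 : (b : ℕ) = eb (f2 t) := by
    by_contra h1; exact hne (by simp [P, J, h1])
  have k3 : (c : ℕ) = eb (f0 t) := by
    by_contra h1; exact hne (by simp [P, J, h1])
  refine h ⟨?_, ?_, ?_⟩
  · rw [ad, k1, k2]; exact (ck_ends _ g2).2.2
  · rw [ad, k2, k3, ← h1]; exact (ck_ends _ g0).2.2
  · rw [ad, k1, k3, ← h2, ← h3]; exact (ck_ends _ g1).2.2

theorem zf_alt (z : ℕ → M) : IsAlt3 ad Set.univ (zf z) := by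
  refine ⟨fun a b c => ?_, fun a b c => ?_, fun a b c h => ?_⟩
  · simp only [zf]
    rw [← Finset.sum_neg_distrib]
    refine Finset.sum_congr rfl fun t ht => ?_
    have ht' := Finset.mem_range.1 ht
    rw [← neg_smul, A3_eq ht', A3_eq ht']
    congr 1
    ring
  · simp only [zf]
    rw [← Finset.sum_neg_distrib]
    refine Finset.sum_congr rfl fun t ht => ?_
    have ht' := Finset.mem_range.1 ht
    rw [← neg_smul, A3_eq ht', A3_eq ht']
    congr 1
    ring
  · simp only [zf]
    refine Finset.sum_eq_zero fun t ht => ?_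
    have ht' := Finset.mem_range.1 ht
    have n : ¬ (ad a b ∧ ad b c ∧ ad a c) := fun hh => h ⟨trivial, trivial, trivial, hh⟩
    rw [A3_eq ht', P_zero ht' a b c n, P_zero ht' a c b, P_zero ht' b a c, P_zero ht' c a b,
      P_zero ht' b c a, P_zero ht' c b a]
    · simp
    all_goals
      intro hh
      apply n
      obtain ⟨x, y, w⟩ := hh
      have x' := ck_symm _ _ x
      have y' := ck_symm _ _ y
      have w' := ck_symm _ _ w
      exact ⟨by assumption, by assumption, by assumption⟩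

theorem ac1 (x : V → M) (hx : ∑ v, x v = 0) :
    ∃ y : V → V → M, IsAlt2 ad Set.univ y ∧ ∀ b, x b = ∑ a, y a b := by
  refine ⟨yf (fun i => ∑ v : V, h0 i v • x v), yf_alt _, fun b => ?_⟩
  rw [yf_bd]
  simp only [Finset.smul_sum]
  rw [Finset.sum_comm]
  have e : ∀ v : V, ∑ i ∈ range 80, d1 b i • h0 i v • x v = (J b v - J b 0) • x v := by
    intro v
    rw [← ck_C b b.2 v v.2, list_sum_range', Finset.sum_smul]
    refine Finset.sum_congr rfl fun i _ => ?_
    rw [smul_smul]
  simp only [e, sub_smul]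
  rw [Finset.sum_sub_distrib, ← Finset.smul_sum, hx, smul_zero, sub_zero]
  rw [Finset.sum_eq_single b]
  · simp [J]
  · intro v _ hv
    have : (b : ℕ) ≠ v := fun h => hv (Fin.ext h.symm)
    simp [J, this]
  · intro h
    exact absurd (Finset.mem_univ _) h

theorem sum_d2h1 {i j : ℕ} (hi : i < 80) (hj : j < 80) :
    ∑ t ∈ range 60, d2 i t * h1 t j = J i j - (h0 i (eb j) - h0 i (ea j)) := by
  have e : ∑ t ∈ range 60, d2 i t * h1 t j
      = s0 i * h1 (c0 i) j + s1 i * h1 (c1 i) j + s2 i * h1 (c2 i) j := by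
    obtain ⟨g0, g1, g2⟩ := ck_cofb i hi
    rw [← sum_Jr g0 (fun t => h1 t j), ← sum_Jr g1 (fun t => h1 t j),
      ← sum_Jr g2 (fun t => h1 t j), Finset.mul_sum, Finset.mul_sum, Finset.mul_sum,
      ← Finset.sum_add_distrib, ← Finset.sum_add_distrib]
    refine Finset.sum_congr rfl fun t ht => ?_
    rw [ck_cof i hi t (Finset.mem_range.1 ht)]
    ring
  rw [e, ← ck_A i hi j hj]
  ring

theorem ac2 (y : V → V → M) (hy : IsAlt2 ad Set.univ y) (hb : ∀ b, ∑ a, y a b = 0) :
    ∃ z : V → V → V → M, IsAlt3 ad Set.univ z ∧ ∀ b c, y b c = ∑ a, z a b c := by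
  set Y : ℕ → M := fun i => y (pe i) (qe i) with hY
  have hyY : ∀ a b, yf Y a b = y a b := complete2 y hy
  have hbd : ∀ b : V, ∑ i ∈ range 80, d1 b i • Y i = 0 := by
    intro b
    rw [← yf_bd, ← hb b]
    exact Finset.sum_congr rfl fun a _ => hyY a b
  refine ⟨zf (fun t => ∑ j ∈ range 80, h1 t j • Y j), zf_alt _, fun b c => ?_⟩
  rw [zf_bd, ← hyY b c]
  simp only [yf]
  refine Finset.sum_congr rfl fun i hi => ?_
  have hi' := Finset.mem_range.1 hi
  congr 1
  have e1 : ∑ t ∈ range 60, d2 i t • ∑ j ∈ range 80, h1 t j • Y j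
      = ∑ j ∈ range 80, (J i j - (h0 i (eb j) - h0 i (ea j))) • Y j := by
    simp only [Finset.smul_sum]
    rw [Finset.sum_comm]
    refine Finset.sum_congr rfl fun j hj => ?_
    rw [← sum_d2h1 hi' (Finset.mem_range.1 hj), Finset.sum_smul]
    refine Finset.sum_congr rfl fun t _ => ?_
    rw [smul_smul]
  have e2 : ∑ j ∈ range 80, (h0 i (eb j) - h0 i (ea j)) • Y j = 0 := by
    have e3 : ∀ j ∈ range 80, (h0 i (eb j) - h0 i (ea j)) • Y j
        = ∑ b : V, h0 i b • d1 b j • Y j := by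
      intro j hj
      obtain ⟨k1, k2, -⟩ := ck_ends j (Finset.mem_range.1 hj)
      simp only [smul_smul, ← Finset.sum_smul]
      congr 1
      simp only [d1, mul_sub]
      rw [Finset.sum_sub_distrib, Finset.sum_eq_single (⟨eb j, k2⟩ : V),
        Finset.sum_eq_single (⟨ea j, k1⟩ : V)]
      · simp [J]
      · intro v _ hv
        have : (v : ℕ) ≠ ea j := fun h => hv (Fin.ext h)
        simp [J, this]
      · intro h
        exact absurd (Finset.mem_univ _) h
      · intro v _ hv
        have : (v : ℕ) ≠ eb j := fun h => hv (Fin.ext h)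
        simp [J, this]
      · intro h
        exact absurd (Finset.mem_univ _) h
    rw [Finset.sum_congr rfl e3, Finset.sum_comm]
    refine Finset.sum_eq_zero fun b _ => ?_
    rw [← Finset.smul_sum, hbd b, smul_zero]
  rw [e1]
  simp only [sub_smul (J _ _)]
  rw [Finset.sum_sub_distrib, e2, sub_zero, sum_Jsm hi']

theorem ac3 (z : V → V → V → M) (hz : IsAlt3 ad Set.univ z) (hb : ∀ b c, ∑ a, z a b c = 0)
    (a b c : V) : z a b c = 0 := by
  set Z : ℕ → M := fun t => z (pe (f2 t)) (qe (f2 t)) (qe (f0 t)) with hZ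
  have hzZ : ∀ a b c, zf Z a b c = z a b c := complete3 z hz
  have h2 : ∀ i < 80, ∑ t ∈ range 60, d2 i t • Z t = 0 := by
    intro i hi
    have := yf_dual (fun i => ∑ t ∈ range 60, d2 i t • Z t) hi
    rw [← this, ← zf_bd, ← hb (pe i) (qe i)]
    exact Finset.sum_congr rfl fun a _ => hzZ a _ _
  have h3 : ∀ t < 60, Z t = 0 := by
    intro t ht
    have e : ∑ i ∈ range 80, h1 t i • ∑ s ∈ range 60, d2 i s • Z s = Z t := by
      simp only [Finset.smul_sum]
      rw [Finset.sum_comm, ← sum_Jsm ht Z]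
      refine Finset.sum_congr rfl fun s hs => ?_
      have hs' := Finset.mem_range.1 hs
      obtain ⟨g0, g1, g2, -, -, -⟩ := ck_faces s hs'
      simp only [smul_smul]
      rw [← Finset.sum_smul, ← ck_B t ht s hs']
      congr 1
      rw [← sum_Jr g0 (fun i => h1 t i), ← sum_Jr g1 (fun i => h1 t i),
        ← sum_Jr g2 (fun i => h1 t i), ← Finset.sum_sub_distrib, ← Finset.sum_add_distrib]
      refine Finset.sum_congr rfl fun i _ => ?_
      rw [d2]
      ring
    rw [← e]
    refine Finset.sum_eq_zero fun i hi => ?_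
    rw [h2 i (Finset.mem_range.1 hi), smul_zero]
  rw [← hzZ a b c]
  simp only [zf]
  refine Finset.sum_eq_zero fun t ht => ?_
  rw [h3 t (Finset.mem_range.1 ht), smul_zero]

/-- **M8** -/
theorem th : PropM8 := by
  refine ⟨V, inferInstance, inferInstance, ad, gam, 6, pth, ?_⟩
  exact
    { symm := ck_symm
      irr := ck_irr
      k4 := k4
      acyc := ⟨fun M _ x hx => ac1 x hx, fun M _ y hy hb => ac2 y hy hb,
        fun M _ z hz hb => ac3 z hz hb⟩
      conn := conn
      coc := gam_coc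
      closed := rfl
      path := ck_path
      hol := hol }

end Pool.Agent.V1194.HC.M8
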