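import Pool.Agent.V1194.HC.Stm

/-!
# The homological 1-2-3 conjecture fails (MP_3ca9d5_al): the kernel of `π₂` is not finitely
normally generated (part NFG)
-/

set_option autoImplicit false

namespace Pool.Agent.V1194.HC.NFG

open Pool.Agent.W326.DU Pool.Agent.Y66.HC Pool.Agent.V1194.HC

theorem gen_comm {W : Type} (ad : W → W → Prop) (a b : W) (h : ad a b) :
    gen ad a * gen ad b = gen ad b * gen ad a := by
  have h1 : PresentedGroup.mk (rels ad) (FreeGroup.of a * FreeGroup.of b * (FreeGroup.of a)⁻¹ *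
      (FreeGroup.of b)⁻¹) = 1 := by
    apply (QuotientGroup.eq_one_iff _).2
    exact Subgroup.subset_normalClosure ⟨a, b, h, rfl⟩
  rw [map_mul, map_mul, map_mul, map_inv, map_inv] at h1
  have h2 : gen ad a * gen ad b * (gen ad a)⁻¹ * (gen ad b)⁻¹ = 1 := h1
  rw [mul_inv_eq_one, mul_inv_eq_iff_eq_mul] at h2
  exact h2

section words
variable {V : Type} (ad : V → V → Prop)

/-- the value of a letter -/
def lt (x : V × Bool) : RAAG ad := if x.2 then gen ad x.1 else (gen ad x.1)⁻¹

theorem lt_true (v : V) : lt ad (v, true) = gen ad v := rfl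
theorem lt_false (v : V) : lt ad (v, false) = (gen ad v)⁻¹ := rfl

/-- the value of a word -/
def ev (w : List (V × Bool)) : RAAG ad := (w.map (lt ad)).prod

theorem ev_nil : ev ad [] = 1 := rfl
theorem ev_cons (x : V × Bool) (w : List (V × Bool)) : ev ad (x :: w) = lt ad x * ev ad w := by
  simp [ev]
theorem ev_append (u w : List (V × Bool)) : ev ad (u ++ w) = ev ad u * ev ad w := by
  simp [ev]
theorem ev_snoc (w : List (V × Bool)) (x : V × Bool) : ev ad (w ++ [x]) = ev ad w * lt ad x := by
  simp [ev]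

theorem closure_gen : Subgroup.closure (Set.range (gen ad)) = ⊤ :=
  PresentedGroup.closure_range_of (rels ad)

theorem ind_right {P : RAAG ad → Prop} (h1 : P 1)
    (h2 : ∀ g v, P g → P (g * gen ad v)) (h3 : ∀ g v, P g → P (g * (gen ad v)⁻¹)) (g : RAAG ad) :
    P g := by
  have hg : g ∈ Subgroup.closure (Set.range (gen ad)) := by rw [closure_gen]; trivial
  induction hg using Subgroup.closure_induction_right with
  | one => exact h1
  | mul_right x hx y hy ih =>
    obtain ⟨v, rfl⟩ := hy
    exact h2 x v ih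
  | mul_inv_cancel x hx y hy ih =>
    obtain ⟨v, rfl⟩ := hy
    exact h3 x v ih

theorem ev_surj (g : RAAG ad) : ∃ w, ev ad w = g := by
  induction g using ind_right ad with
  | h1 => exact ⟨[], rfl⟩
  | h2 g v ih =>
    obtain ⟨w, rfl⟩ := ih
    exact ⟨w ++ [(v, true)], ev_snoc ad w _⟩
  | h3 g v ih =>
    obtain ⟨w, rfl⟩ := ih
    exact ⟨w ++ [(v, false)], ev_snoc ad w _⟩

/-- minimal words -/
def IsMin (w : List (V × Bool)) : Prop := ∀ w', ev ad w' = ev ad w → w.length ≤ w'.length

theorem exists_min (g : RAAG ad) : ∃ w, ev ad w = g ∧ IsMin ad w := by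
  classical
  have h : ∃ n, ∃ w, ev ad w = g ∧ w.length = n := by
    obtain ⟨w, hw⟩ := ev_surj ad g
    exact ⟨_, w, hw, rfl⟩
  obtain ⟨w, hw, hl⟩ := Nat.find_spec h
  refine ⟨w, hw, fun w' hw' => ?_⟩
  rw [hl]
  exact Nat.find_min' h ⟨w', hw'.trans hw, rfl⟩

theorem IsMin.mid {a b c : List (V × Bool)} (h : IsMin ad (a ++ b ++ c)) : IsMin ad b := by
  intro b' hb'
  have := h (a ++ b' ++ c) (by simp only [ev_append, hb'])
  simp only [List.length_append] at this
  omega

theorem IsMin.pref {a b : List (V × Bool)} (h : IsMin ad (a ++ b)) : IsMin ad a := by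
  have h' : IsMin ad ([] ++ a ++ b) := by simpa using h
  exact h'.mid

theorem IsMin.suffix {a b : List (V × Bool)} (h : IsMin ad (a ++ b)) : IsMin ad b := by
  have h' : IsMin ad (a ++ b ++ []) := by simpa using h
  exact h'.mid

/-- the subgroup generated by the link -/
def L (v : V) : Subgroup (RAAG ad) := Subgroup.closure (gen ad '' {w | ad w v})

theorem gen_mem_L {v w : V} (h : ad w v) : gen ad w ∈ L ad v :=
  Subgroup.subset_closure ⟨w, h, rfl⟩

theorem L_comm {v : V} {c : RAAG ad} (hc : c ∈ L ad v) : c * gen ad v = gen ad v * c := by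
  induction hc using Subgroup.closure_induction with
  | mem x hx => obtain ⟨w, hw, rfl⟩ := hx; exact gen_comm ad w v hw
  | one => simp
  | mul x y _ _ hx hy => rw [mul_assoc, hy, ← mul_assoc, hx, mul_assoc]
  | inv x _ hx =>
    rw [inv_mul_eq_iff_eq_mul, ← mul_assoc, hx, mul_assoc, mul_inv_cancel, mul_one]

open Classical in
/-- the retraction onto the subgroup generated by the link -/
noncomputable def rv (v : V) : RAAG ad →* RAAG ad :=
  PresentedGroup.toGroup (f := fun w => if ad w v then gen ad w else 1) (by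
    rintro r ⟨a, b, hab, rfl⟩
    simp only [map_mul, map_inv, FreeGroup.lift_apply_of]
    by_cases ha : ad a v
    · by_cases hb : ad b v
      · simp only [ha, hb, if_true]
        rw [gen_comm ad a b hab]; group
      · simp [ha, hb]
    · simp [ha])

open Classical in
theorem rv_gen (v w : V) : rv ad v (gen ad w) = if ad w v then gen ad w else 1 :=
  PresentedGroup.toGroup.of _

open Classical in
theorem rv_lt (v : V) (x : V × Bool) : rv ad v (lt ad x) = if ad x.1 v then lt ad x else 1 := by
  obtain ⟨w, e⟩ := x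
  cases e
  · simp only [lt_false, map_inv, rv_gen]
    split_ifs <;> simp
  · simp only [lt_true, rv_gen]

open Classical in
theorem rv_ev (v : V) (u : List (V × Bool)) :
    rv ad v (ev ad u) = ev ad (u.filter (fun x => decide (ad x.1 v))) := by
  induction u with
  | nil => simp [ev_nil]
  | cons x u ih =>
    rw [ev_cons, map_mul, ih, rv_lt, List.filter_cons]
    by_cases h : ad x.1 v
    · simp [h, ev_cons]
    · simp [h]

theorem rv_L (v : V) {c : RAAG ad} (hc : c ∈ L ad v) : rv ad v c = c := by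
  induction hc using Subgroup.closure_induction with
  | mem x hx => obtain ⟨w, hw, rfl⟩ := hx; rw [rv_gen, if_pos (show ad w v from hw)]
  | one => simp
  | mul x y _ _ hx hy => rw [map_mul, hx, hy]
  | inv x _ hx => rw [map_inv, hx]

theorem min_L {v : V} {u : List (V × Bool)} (hu : IsMin ad u) (h : ev ad u ∈ L ad v) :
    ∀ x ∈ u, ad x.1 v := by
  classical
  have h1 := hu (u.filter (fun x => decide (ad x.1 v))) (by rw [← rv_ev, rv_L ad v h])
  have h2 : (u.filter (fun x => decide (ad x.1 v))).length = u.length :=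
    le_antisymm (List.length_filter_le _ _) h1
  rw [List.length_filter_eq_length_iff] at h2
  intro x hx
  simpa using h2 x hx

end words

section crossed
variable {V : Type} (ad : V → V → Prop)

open Classical in
/-- the indicator function of the subgroup generated by the link -/
noncomputable def ind (v : V) (x : RAAG ad) : ℤ := if x ∈ L ad v then 1 else 0

theorem ind_mul {v : V} {b : RAAG ad} (hb : b ∈ L ad v) (x : RAAG ad) :
    ind ad v (b⁻¹ * x) = ind ad v x := by
  classical
  have : b⁻¹ * x ∈ L ad v ↔ x ∈ L ad v := Subgroup.mul_mem_cancel_left _ (inv_mem hb)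
  simp only [ind, this]

/-- translation -/
def tr (g : RAAG ad) : Equiv.Perm (RAAG ad → ℤ) where
  toFun f := fun x => f (g⁻¹ * x)
  invFun f := fun x => f (g * x)
  left_inv f := by funext x; simp
  right_inv f := by funext x; simp

theorem tr_apply (g : RAAG ad) (f : RAAG ad → ℤ) (x : RAAG ad) : tr ad g f x = f (g⁻¹ * x) := rfl

open Classical in
/-- the images of the generators -/
noncomputable def pf (v w : V) : Equiv.Perm (RAAG ad → ℤ) :=
  if w = v then Equiv.addRight (ind ad v) * tr ad (gen ad v) else tr ad (gen ad w)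

theorem pf_self (v : V) (f : RAAG ad → ℤ) (x : RAAG ad) :
    pf ad v v f x = f ((gen ad v)⁻¹ * x) + ind ad v x := by
  simp only [pf]
  rfl

theorem pf_ne {v w : V} (h : w ≠ v) (f : RAAG ad → ℤ) (x : RAAG ad) :
    pf ad v w f x = f ((gen ad w)⁻¹ * x) := by
  simp only [pf, if_neg h]
  rfl

variable (symm : ∀ a b, ad a b → ad b a) (irr : ∀ a, ¬ ad a a)

theorem pf_comm (symm : ∀ a b, ad a b → ad b a) (irr : ∀ a, ¬ ad a a) (v a b : V) (hab : ad a b) :
    pf ad v a * pf ad v b = pf ad v b * pf ad v a := by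
  have key : ∀ b : V, ad b v → pf ad v b * pf ad v v = pf ad v v * pf ad v b := by
    intro b hb
    have hbv : b ≠ v := fun h => irr v (by rw [h] at hb; exact hb)
    ext f x
    rw [Equiv.Perm.mul_apply, Equiv.Perm.mul_apply, pf_ne ad hbv, pf_self, pf_self, pf_ne ad hbv,
      ind_mul ad (gen_mem_L ad hb), ← mul_assoc, ← mul_assoc, ← mul_inv_rev, ← mul_inv_rev,
      gen_comm ad b v hb]
  by_cases ha : a = v
  · subst ha
    exact (key b (symm _ _ hab)).symm
  · by_cases hb : b = v
    · subst hb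
      exact key a hab
    · ext f x
      rw [Equiv.Perm.mul_apply, Equiv.Perm.mul_apply, pf_ne ad ha, pf_ne ad hb, pf_ne ad hb,
        pf_ne ad ha, ← mul_assoc, ← mul_assoc, ← mul_inv_rev, ← mul_inv_rev,
        gen_comm ad a b hab]

/-- the affine action -/
noncomputable def Psi (symm : ∀ a b, ad a b → ad b a) (irr : ∀ a, ¬ ad a a) (v : V) :
    RAAG ad →* Equiv.Perm (RAAG ad → ℤ) :=
  PresentedGroup.toGroup (f := pf ad v) (by
    rintro r ⟨a, b, hab, rfl⟩
    simp only [map_mul, map_inv, FreeGroup.lift_apply_of]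
    rw [pf_comm ad symm irr v a b hab]; group)

theorem Psi_gen (v w : V) : Psi ad symm irr v (gen ad w) = pf ad v w :=
  PresentedGroup.toGroup.of _

/-- the crossed homomorphism -/
noncomputable def dl (v : V) (g : RAAG ad) : RAAG ad → ℤ := Psi ad symm irr v g 0

theorem affine (v : V) (g : RAAG ad) : ∀ f x,
    Psi ad symm irr v g f x = f (g⁻¹ * x) + dl ad symm irr v g x := by
  have hg : g ∈ Subgroup.closure (Set.range (gen ad)) := by rw [closure_gen]; trivial
  induction hg using Subgroup.closure_induction with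
  | mem g hg =>
    obtain ⟨w, rfl⟩ := hg
    intro f x
    rw [dl, Psi_gen]
    by_cases h : w = v
    · subst h
      rw [pf_self, pf_self]; simp
    · rw [pf_ne ad h, pf_ne ad h]; simp
  | one => intro f x; simp [dl]
  | mul a b _ _ ha hb =>
    intro f x
    rw [dl, map_mul, Equiv.Perm.mul_apply, Equiv.Perm.mul_apply, ha, hb, ha (_ : _), hb]
    simp only [mul_inv_rev, mul_assoc, Pi.zero_apply]
    ring
  | inv a _ ha =>
    have key : ∀ f x, Psi ad symm irr v a⁻¹ f x = f (a * x) - dl ad symm irr v a (a * x) := by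
      intro f
      have : Psi ad symm irr v a⁻¹ f = fun x => f (a * x) - dl ad symm irr v a (a * x) := by
        rw [map_inv, Equiv.Perm.inv_eq_iff_eq]
        funext x
        rw [ha]
        simp
      intro x
      rw [this]
    intro f x
    rw [dl, key, key]
    simp
    ring

theorem dl_one (v : V) (x : RAAG ad) : dl ad symm irr v 1 x = 0 := by simp [dl]

theorem dl_mul (v : V) (g h x : RAAG ad) :
    dl ad symm irr v (g * h) x = dl ad symm irr v g x + dl ad symm irr v h (g⁻¹ * x) := by
  rw [dl, map_mul, Equiv.Perm.mul_apply, affine]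
  rw [add_comm]; rfl

theorem dl_inv (v : V) (g x : RAAG ad) :
    dl ad symm irr v g⁻¹ x = - dl ad symm irr v g (g * x) := by
  have := dl_mul ad symm irr v g⁻¹ g x
  rw [inv_mul_cancel, dl_one, inv_inv] at this
  linarith

theorem dl_gen (v : V) (x : RAAG ad) : dl ad symm irr v (gen ad v) x = ind ad v x := by
  rw [dl, Psi_gen, pf_self]; simp

theorem dl_gen_ne {v w : V} (h : w ≠ v) (x : RAAG ad) : dl ad symm irr v (gen ad w) x = 0 := by
  rw [dl, Psi_gen, pf_ne ad h]; simp

theorem dl_step (v : V) (g x : RAAG ad) :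
    dl ad symm irr v (g * gen ad v) x = dl ad symm irr v g x + ind ad v (g⁻¹ * x) := by
  rw [dl_mul, dl_gen]

theorem dl_step_inv (v : V) (g x : RAAG ad) :
    dl ad symm irr v (g * (gen ad v)⁻¹) x
      = dl ad symm irr v g x - ind ad v (gen ad v * (g⁻¹ * x)) := by
  rw [dl_mul, dl_inv, dl_gen, sub_eq_add_neg]

theorem dl_step_ne {v w : V} (h : w ≠ v) (g x : RAAG ad) :
    dl ad symm irr v (g * gen ad w) x = dl ad symm irr v g x := by
  rw [dl_mul, dl_gen_ne ad symm irr h, add_zero]

theorem dl_step_inv_ne {v w : V} (h : w ≠ v) (g x : RAAG ad) :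
    dl ad symm irr v (g * (gen ad w)⁻¹) x = dl ad symm irr v g x := by
  rw [dl_mul, dl_inv, dl_gen_ne ad symm irr h, neg_zero, add_zero]

/-- `g` is separated from `1` by a hyperplane of type `v` adjacent to `1` -/
def Dv (v : V) (g : RAAG ad) : Prop :=
  dl ad symm irr v g 1 ≠ 0 ∨ dl ad symm irr v g (gen ad v)⁻¹ ≠ 0

theorem Dv_step {v w : V} (h : w ≠ v) (g : RAAG ad) :
    Dv ad symm irr v (g * gen ad w) ↔ Dv ad symm irr v g := by
  simp only [Dv, dl_step_ne ad symm irr h]

theorem Dv_step_inv {v w : V} (h : w ≠ v) (g : RAAG ad) :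
    Dv ad symm irr v (g * (gen ad w)⁻¹) ↔ Dv ad symm irr v g := by
  simp only [Dv, dl_step_inv_ne ad symm irr h]

theorem Dv_one (v : V) : ¬ Dv ad symm irr v 1 := by
  simp [Dv, dl_one]

/-- a crossed homomorphism of type `w` vanishes on the link of `v` if `w` is not adjacent to `v` -/
theorem dl_L {v w : V} (h : ¬ ad w v) {c : RAAG ad} (hc : c ∈ L ad v) :
    ∀ x, dl ad symm irr w c x = 0 := by
  induction hc using Subgroup.closure_induction with
  | mem c hc =>
    obtain ⟨u, hu, rfl⟩ := hc
    have : u ≠ w := by rintro rfl; exact h hu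
    exact dl_gen_ne ad symm irr this
  | one => exact dl_one ad symm irr w
  | mul a b _ _ ha hb => intro x; rw [dl_mul, ha, hb, add_zero]
  | inv a _ ha => intro x; rw [dl_inv, ha, neg_zero]

theorem dl_L' {v w : V} (hvw : w ≠ v) (h : ¬ ad w v) {g : RAAG ad} (hg : gen ad v * g ∈ L ad v) :
    ∀ x, dl ad symm irr w g x = 0 := by
  intro x
  have := dl_L ad symm irr h hg (gen ad v * x)
  rw [dl_mul, dl_gen_ne ad symm irr hvw.symm, zero_add, inv_mul_cancel_left] at this
  exact this

theorem ind_ne {v : V} {x : RAAG ad} (h : x ∉ L ad v) : ind ad v x = 0 := by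
  classical
  simp [ind, h]

/-- one step of the induction in `Dv_adj` -/
theorem step {v w : V} (hvw : w ≠ v) (h : ¬ ad w v) {g : RAAG ad}
    (h1 : Dv ad symm irr w g) (h2 : ¬ Dv ad symm irr v g) :
    ¬ Dv ad symm irr v (g * gen ad v) ∧ ¬ Dv ad symm irr v (g * (gen ad v)⁻¹) := by
  have e1 : ¬ (∀ x, dl ad symm irr w g x = 0) := by
    intro h0
    rcases h1 with h1 | h1 <;> exact h1 (h0 _)
  have e2 : ¬ (∀ x, dl ad symm irr w (g * (gen ad v)⁻¹) x = 0) := by
    intro h0
    apply e1
    intro x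
    rw [← h0 x, dl_step_inv_ne ad symm irr hvw.symm]
  have a1 : g ∉ L ad v := fun hg => e1 (dl_L ad symm irr h hg)
  have a2 : gen ad v * g ∉ L ad v := fun hg => e1 (dl_L' ad symm irr hvw h hg)
  have a3 : g * (gen ad v)⁻¹ ∉ L ad v := fun hg => e2 (dl_L ad symm irr h hg)
  have a4 : gen ad v * (g * (gen ad v)⁻¹) ∉ L ad v := fun hg => e2 (dl_L' ad symm irr hvw h hg)
  have b1 : g⁻¹ * 1 ∉ L ad v := by rw [mul_one, inv_mem_iff]; exact a1
  have b2 : g⁻¹ * (gen ad v)⁻¹ ∉ L ad v := by rw [← mul_inv_rev, inv_mem_iff]; exact a2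
  have b3 : gen ad v * (g⁻¹ * 1) ∉ L ad v := by
    intro hh; apply a3; rw [← inv_mem_iff]; simpa using hh
  have b4 : gen ad v * (g⁻¹ * (gen ad v)⁻¹) ∉ L ad v := by
    intro hh; apply a4; rw [← inv_mem_iff]; simpa [mul_assoc] using hh
  simp only [Dv, not_or, not_not] at h2 ⊢
  simp only [dl_step, dl_step_inv, h2.1, h2.2, ind_ne ad b1, ind_ne ad b2, ind_ne ad b3,
    ind_ne ad b4]
  simp

theorem Dv_adj {v w : V} (hvw : w ≠ v) (g : RAAG ad)
    (h1 : Dv ad symm irr w g) (h2 : Dv ad symm irr v g) : ad w v := by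
  by_contra h
  have h' : ¬ ad v w := fun hh => h (symm _ _ hh)
  have key : ∀ g, ¬ (Dv ad symm irr w g ∧ Dv ad symm irr v g) := by
    intro g
    induction g using ind_right ad with
    | h1 => exact fun hh => Dv_one ad symm irr _ hh.1
    | h2 g u ih =>
      by_cases hu : u = v
      · subst hu
        intro hh
        have e := (Dv_step ad symm irr hvw.symm g).1 hh.1
        exact (step ad symm irr hvw h e (fun q => ih ⟨e, q⟩)).1 hh.2
      · by_cases hu' : u = w
        · subst hu'
          intro hh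
          have e := (Dv_step ad symm irr hvw g).1 hh.2
          exact (step ad symm irr hvw.symm h' e (fun q => ih ⟨q, e⟩)).1 hh.1
        · rw [Dv_step ad symm irr hu, Dv_step ad symm irr hu']
          exact ih
    | h3 g u ih =>
      by_cases hu : u = v
      · subst hu
        intro hh
        have e := (Dv_step_inv ad symm irr hvw.symm g).1 hh.1
        exact (step ad symm irr hvw h e (fun q => ih ⟨e, q⟩)).2 hh.2
      · by_cases hu' : u = w
        · subst hu'
          intro hh
          have e := (Dv_step_inv ad symm irr hvw g).1 hh.2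
          exact (step ad symm irr hvw.symm h' e (fun q => ih ⟨q, e⟩)).2 hh.1
        · rw [Dv_step_inv ad symm irr hu, Dv_step_inv ad symm irr hu']
          exact ih
  exact key g ⟨h1, h2⟩

theorem ind_mem {v : V} {x : RAAG ad} (h : x ∈ L ad v) : ind ad v x = 1 := by
  classical
  simp [ind, h]

theorem first (v : V) (e : Bool) (t : List (V × Bool)) (ht : IsMin ad ((v, e) :: t)) :
    dl ad symm irr v (ev ad ((v, e) :: t)) (if e then 1 else (gen ad v)⁻¹)
      = if e then 1 else -1 := by
  induction t using List.reverseRecOn with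
  | nil =>
    cases e
    · simp only [ev_cons, ev_nil, mul_one, lt_false, Bool.false_eq_true, if_false]
      rw [dl_inv, dl_gen, mul_inv_cancel, ind_mem ad (one_mem _)]
    · simp only [ev_cons, ev_nil, mul_one, lt_true, if_true]
      rw [dl_gen, ind_mem ad (one_mem _)]
  | append_singleton t x ih =>
    have ht' : IsMin ad ((v, e) :: t) := by
      have ht2 : IsMin ad (((v, e) :: t) ++ [x]) := ht
      exact ht2.pref
    have ih' := ih ht'
    have hcons : ev ad ((v, e) :: (t ++ [x])) = ev ad ((v, e) :: t) * lt ad x :=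
      ev_snoc ad ((v, e) :: t) x
    rw [hcons]
    obtain ⟨y, η⟩ := x
    by_cases hy : y = v
    · subst hy
      rw [← ih']
      cases η
      · rw [lt_false, dl_step_inv]
        cases e
        · -- `ε = false`, `η = false`
          simp only [Bool.false_eq_true, if_false]
          have hn : gen ad y * ((ev ad ((y, false) :: t))⁻¹ * (gen ad y)⁻¹) ∉ L ad y := by
            intro hh
            have h2 : ev ad (t ++ [(y, false)]) ∈ L ad y := by
              rw [← inv_mem_iff]
              rw [ev_snoc, lt_false, mul_inv_rev, inv_inv]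
              rw [ev_cons, lt_false, mul_inv_rev, inv_inv] at hh
              simpa [mul_assoc] using hh
            have h3 : IsMin ad (t ++ [(y, false)]) := by
              have ht2 : IsMin ad ([(y, false)] ++ (t ++ [(y, false)])) := ht
              exact ht2.suffix
            exact irr y (min_L ad h3 h2 (y, false) (by simp))
          rw [ind_ne ad hn, sub_zero]
        · simp only [if_true]
          have hn : gen ad y * ((ev ad ((y, true) :: t))⁻¹ * 1) ∉ L ad y := by
            intro hh
            have h2 : ev ad ((y, true) :: (t ++ [(y, false)])) ∈ L ad y := by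
              rw [← inv_mem_iff, hcons, lt_false, mul_inv_rev, inv_inv]
              simpa [mul_assoc] using hh
            exact irr y (min_L ad ht h2 (y, false) (by simp))
          rw [ind_ne ad hn, sub_zero]
      · rw [lt_true, dl_step]
        cases e
        · simp only [Bool.false_eq_true, if_false]
          have hn : (ev ad ((y, false) :: t))⁻¹ * (gen ad y)⁻¹ ∉ L ad y := by
            intro hh
            have h2 : ev ad t ∈ L ad y := by
              rw [← inv_mem_iff]
              rw [ev_cons, lt_false, mul_inv_rev, inv_inv] at hh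
              simpa [mul_assoc] using hh
            have h3 : ev ad t = ev ad ((y, false) :: (t ++ [(y, true)])) := by
              rw [hcons, ev_cons, lt_false, lt_true, mul_assoc, L_comm ad h2,
                inv_mul_cancel_left]
            have h4 := ht t h3
            simp at h4
          rw [ind_ne ad hn, add_zero]
        · simp only [if_true]
          have hn : (ev ad ((y, true) :: t))⁻¹ * 1 ∉ L ad y := by
            intro hh
            have h2 : ev ad ((y, true) :: t) ∈ L ad y := by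
              rw [← inv_mem_iff]
              simpa using hh
            exact irr y (min_L ad ht' h2 (y, true) (by simp))
          rw [ind_ne ad hn, add_zero]
    · rw [← ih']
      cases η
      · rw [lt_false, dl_step_inv_ne ad symm irr hy]
      · rw [lt_true, dl_step_ne ad symm irr hy]

theorem exists_Dv {g : RAAG ad} (hg : g ≠ 1) : ∃ v, Dv ad symm irr v g := by
  obtain ⟨w, hw, hmin⟩ := exists_min ad g
  rcases w with _ | ⟨⟨v, e⟩, t⟩
  · exact absurd hw.symm hg
  · refine ⟨v, ?_⟩
    have h := first ad symm irr v e t hmin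
    rw [hw] at h
    cases e
    · right
      simp only [Bool.false_eq_true, if_false] at h
      rw [h]; norm_num
    · left
      simp only [if_true] at h
      rw [h]; norm_num

theorem Dv_nb {v w : V} {g : RAAG ad} (h1 : Dv ad symm irr v g) (h2 : Dv ad symm irr w g) :
    v = w ∨ ad v w := by
  by_cases h : v = w
  · exact Or.inl h
  · exact Or.inr (Dv_adj ad symm irr h g h1 h2)

theorem Dv_ne_one {v : V} {g : RAAG ad} (h : Dv ad symm irr v g) : g ≠ 1 := by
  rintro rfl
  exact Dv_one ad symm irr v h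

end crossed

section height
variable {V : Type} (ad : V → V → Prop)

/-- the height -/
def ht (g : RAAG ad) : ℤ := Multiplicative.toAdd (hgt ad g)

theorem ht_one : ht ad 1 = 0 := by simp [ht]
theorem ht_mul (g h : RAAG ad) : ht ad (g * h) = ht ad g + ht ad h := by simp [ht]
theorem ht_inv (g : RAAG ad) : ht ad g⁻¹ = - ht ad g := by simp [ht]
theorem ht_gen (v : V) : ht ad (gen ad v) = 1 := by rw [ht, hgt_gen]; rfl
theorem ht_pow (v : V) (n : ℕ) : ht ad (gen ad v ^ n) = n := by
  induction n with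
  | zero => simp [ht_one]
  | succ n ih => rw [pow_succ, ht_mul, ih, ht_gen]; push_cast; ring

end height

section action
variable {V J : Type} [Group J] (ad : V → V → Prop)
  (symm : ∀ a b, ad a b → ad b a) (irr : ∀ a, ¬ ad a a) (γ : V → V → J) (s : RAAG ad → V)

/-- action of a generator -/
def rp (v : V) : Equiv.Perm (RAAG ad × J) where
  toFun q := (q.1 * (gen ad v)⁻¹, γ (s (q.1 * (gen ad v)⁻¹)) (s q.1) * q.2)
  invFun q := (q.1 * gen ad v, (γ (s q.1) (s (q.1 * gen ad v)))⁻¹ * q.2)
  left_inv q := by ext <;> simp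
  right_inv q := by ext <;> simp

/-- the action of the free group -/
def rho : FreeGroup V →* Equiv.Perm (RAAG ad × J) := FreeGroup.lift (rp ad γ s)

theorem rho_of (v : V) (q : RAAG ad × J) : rho ad γ s (FreeGroup.of v) q
    = (q.1 * (gen ad v)⁻¹, γ (s (q.1 * (gen ad v)⁻¹)) (s q.1) * q.2) := by
  rw [rho, FreeGroup.lift_apply_of]; rfl

theorem rho_fst (r : FreeGroup V) : ∀ q : RAAG ad × J,
    (rho ad γ s r q).1 = q.1 * (PresentedGroup.mk (rels ad) r)⁻¹ := by
  induction r using FreeGroup.induction_on with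
  | C1 => intro q; simp
  | of v => intro q; exact congrArg Prod.fst (rho_of ad γ s v q)
  | inv_of v h =>
    intro q
    have h' := h (rho ad γ s (FreeGroup.of v)⁻¹ q)
    have h2 : rho ad γ s (FreeGroup.of v) (rho ad γ s (FreeGroup.of v)⁻¹ q) = q := by
      rw [← Equiv.Perm.mul_apply, ← map_mul, mul_inv_cancel, map_one, Equiv.Perm.one_apply]
    rw [h2] at h'
    rw [map_inv (PresentedGroup.mk (rels ad)), inv_inv, h', inv_mul_cancel_right]
  | mul a b ha hb =>
    intro q
    rw [map_mul, Equiv.Perm.mul_apply, ha, hb, map_mul, mul_inv_rev, mul_assoc]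

/-- the potential -/
def ph (u : V) (q : RAAG ad × J) : J := γ u (s q.1) * q.2

variable (coc : ∀ u v w, (u = v ∨ ad u v) → (v = w ∨ ad v w) → (u = w ∨ ad u w) →
    γ u v * γ v w = γ u w) (hs : ∀ g, g ≠ 1 → Dv ad symm irr (s g) g)

include coc hs in
theorem ph_step (u a : V) (q : RAAG ad × J) (h1 : Dv ad symm irr u q.1)
    (h2 : Dv ad symm irr u (q.1 * (gen ad a)⁻¹)) :
    ph ad γ s u (rho ad γ s (FreeGroup.of a) q) = ph ad γ s u q := by
  rw [rho_of]
  obtain ⟨x, j⟩ := q
  simp only [ph] at h1 h2 ⊢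
  generalize hy : x * (gen ad a)⁻¹ = y at h2 ⊢
  have dx := hs x (Dv_ne_one ad symm irr h1)
  have dy := hs y (Dv_ne_one ad symm irr h2)
  have A2 : s y = s x ∨ ad (s y) (s x) := by
    by_cases hx : a = s x
    · by_cases hy' : a = s y
      · left; rw [← hx, ← hy']
      · have : Dv ad symm irr (s y) x := by
          rw [← hy] at dy ⊢
          rw [← hy] at hy'
          exact (Dv_step_inv ad symm irr hy' x).1 dy
        exact Dv_nb ad symm irr this dx
    · have : Dv ad symm irr (s x) y := by
        rw [← hy]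
        exact (Dv_step_inv ad symm irr hx x).2 dx
      exact Dv_nb ad symm irr dy this
  rw [← mul_assoc, coc u (s y) (s x) (Dv_nb ad symm irr h2 dy) A2 (Dv_nb ad symm irr h1 dx)]

include coc hs in
theorem ph_step_inv (u a : V) (q : RAAG ad × J) (h1 : Dv ad symm irr u q.1)
    (h2 : Dv ad symm irr u (q.1 * gen ad a)) :
    ph ad γ s u (rho ad γ s (FreeGroup.of a)⁻¹ q) = ph ad γ s u q := by
  have e1 : (rho ad γ s (FreeGroup.of a)⁻¹ q).1 = q.1 * gen ad a := by
    rw [rho_fst, map_inv, inv_inv]; rfl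
  have e2 : rho ad γ s (FreeGroup.of a) (rho ad γ s (FreeGroup.of a)⁻¹ q) = q := by
    rw [← Equiv.Perm.mul_apply, ← map_mul, mul_inv_cancel, map_one, Equiv.Perm.one_apply]
  have := ph_step ad symm irr γ s coc hs u a (rho ad γ s (FreeGroup.of a)⁻¹ q) (by rwa [e1])
    (by rw [e1, mul_inv_cancel_right]; exact h1)
  rw [e2] at this
  exact this.symm

include symm irr in
theorem common (a b : V) (hab : ad a b) (g : RAAG ad) (h1 : g ≠ 1) (h2 : g * gen ad b ≠ 1)
    (h3 : g * gen ad b * gen ad a ≠ 1) (h4 : g * gen ad a ≠ 1) :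
    ∃ u, Dv ad symm irr u g ∧ Dv ad symm irr u (g * gen ad b) ∧
      Dv ad symm irr u (g * gen ad b * gen ad a) ∧ Dv ad symm irr u (g * gen ad a) := by
  have hne : a ≠ b := by rintro rfl; exact irr _ hab
  have hc : g * gen ad b * gen ad a = g * gen ad a * gen ad b := by
    rw [mul_assoc, mul_assoc, gen_comm ad a b hab]
  by_contra hcon
  push Not at hcon
  -- if `u ≠ a, b` then `Dv u` is constant on the square
  have key : ∀ u, u ≠ a → u ≠ b → ¬ Dv ad symm irr u g := by
    intro u ha hb hu
    refine hcon u hu ?_ ?_ ?_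
    · rwa [Dv_step ad symm irr hb.symm]
    · rwa [Dv_step ad symm irr ha.symm, Dv_step ad symm irr hb.symm]
    · rwa [Dv_step ad symm irr ha.symm]
  have A0 : Dv ad symm irr a (g * gen ad b) ↔ Dv ad symm irr a g := Dv_step ad symm irr hne.symm g
  have A1 : Dv ad symm irr a (g * gen ad b * gen ad a) ↔ Dv ad symm irr a (g * gen ad a) := by
    rw [hc]; exact Dv_step ad symm irr hne.symm _
  have B0 : Dv ad symm irr b (g * gen ad a) ↔ Dv ad symm irr b g := Dv_step ad symm irr hne g
  have B1 : Dv ad symm irr b (g * gen ad b * gen ad a) ↔ Dv ad symm irr b (g * gen ad b) :=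
    Dv_step ad symm irr hne _
  have C1 : Dv ad symm irr a g ∨ Dv ad symm irr b g := by
    obtain ⟨u, hu⟩ := exists_Dv ad symm irr h1
    by_cases ha : u = a
    · subst ha; exact Or.inl hu
    · by_cases hb : u = b
      · subst hb; exact Or.inr hu
      · exact absurd hu (key u ha hb)
  have C2 : Dv ad symm irr a (g * gen ad b) ∨ Dv ad symm irr b (g * gen ad b) := by
    obtain ⟨u, hu⟩ := exists_Dv ad symm irr h2
    by_cases ha : u = a
    · subst ha; exact Or.inl hu
    · by_cases hb : u = b
      · subst hb; exact Or.inr hu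
      · rw [Dv_step ad symm irr (Ne.symm hb)] at hu
        exact absurd hu (key u ha hb)
  have C3 : Dv ad symm irr a (g * gen ad b * gen ad a) ∨
      Dv ad symm irr b (g * gen ad b * gen ad a) := by
    obtain ⟨u, hu⟩ := exists_Dv ad symm irr h3
    by_cases ha : u = a
    · subst ha; exact Or.inl hu
    · by_cases hb : u = b
      · subst hb; exact Or.inr hu
      · rw [Dv_step ad symm irr (Ne.symm ha), Dv_step ad symm irr (Ne.symm hb)] at hu
        exact absurd hu (key u ha hb)
  have C4 : Dv ad symm irr a (g * gen ad a) ∨ Dv ad symm irr b (g * gen ad a) := by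
    obtain ⟨u, hu⟩ := exists_Dv ad symm irr h4
    by_cases ha : u = a
    · subst ha; exact Or.inl hu
    · by_cases hb : u = b
      · subst hb; exact Or.inr hu
      · rw [Dv_step ad symm irr (Ne.symm ha)] at hu
        exact absurd hu (key u ha hb)
  have Ha := hcon a
  have Hb := hcon b
  rw [A0, A1] at Ha
  rw [B0, B1] at Hb
  rw [A0] at C2
  rw [A1, B1] at C3
  rw [B0] at C4
  by_cases a0 : Dv ad symm irr a g
  · by_cases a1 : Dv ad symm irr a (g * gen ad a)
    · exact Ha a0 a0 a1 a1
    · exact Hb (C4.resolve_left a1) (C3.resolve_left a1) (C3.resolve_left a1) (C4.resolve_left a1)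
  · exact Hb (C1.resolve_left a0) (C2.resolve_left a0) (C2.resolve_left a0) (C1.resolve_left a0)

include coc hs in
theorem square (a b : V) (hab : ad a b) (q : RAAG ad × J) (h1 : q.1 ≠ 1)
    (h2 : q.1 * gen ad b ≠ 1) (h3 : q.1 * gen ad b * gen ad a ≠ 1) (h4 : q.1 * gen ad a ≠ 1) :
    rho ad γ s (FreeGroup.of a * FreeGroup.of b * (FreeGroup.of a)⁻¹ * (FreeGroup.of b)⁻¹) q
      = q := by
  obtain ⟨u, u1, u2, u3, u4⟩ := common ad symm irr a b hab q.1 h1 h2 h3 h4
  have hc : q.1 * gen ad b * gen ad a = q.1 * gen ad a * gen ad b := by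
    rw [mul_assoc, mul_assoc, gen_comm ad a b hab]
  rw [map_mul, map_mul, map_mul, Equiv.Perm.mul_apply, Equiv.Perm.mul_apply, Equiv.Perm.mul_apply]
  set q1 := rho ad γ s (FreeGroup.of b)⁻¹ q with hq1
  have f1 : q1.1 = q.1 * gen ad b := by rw [hq1, rho_fst, map_inv, inv_inv]; rfl
  have p1 : ph ad γ s u q1 = ph ad γ s u q := ph_step_inv ad symm irr γ s coc hs u b q u1 u2
  set q2 := rho ad γ s (FreeGroup.of a)⁻¹ q1 with hq2
  have f2 : q2.1 = q.1 * gen ad b * gen ad a := by
    rw [hq2, rho_fst, map_inv, inv_inv, f1]; rfl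
  have p2 : ph ad γ s u q2 = ph ad γ s u q1 :=
    ph_step_inv ad symm irr γ s coc hs u a q1 (by rw [f1]; exact u2) (by rw [f1]; exact u3)
  set q3 := rho ad γ s (FreeGroup.of b) q2 with hq3
  have f3 : q3.1 = q.1 * gen ad a := by
    rw [hq3, rho_of]
    show q2.1 * (gen ad b)⁻¹ = _
    rw [f2, hc, mul_inv_cancel_right]
  have p3 : ph ad γ s u q3 = ph ad γ s u q2 :=
    ph_step ad symm irr γ s coc hs u b q2 (by rw [f2]; exact u3)
      (by rw [f2, hc, mul_inv_cancel_right]; exact u4)
  set q4 := rho ad γ s (FreeGroup.of a) q3 with hq4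
  have f4 : q4.1 = q.1 := by
    rw [hq4, rho_of]
    show q3.1 * (gen ad a)⁻¹ = _
    rw [f3, mul_inv_cancel_right]
  have p4 : ph ad γ s u q4 = ph ad γ s u q3 :=
    ph_step ad symm irr γ s coc hs u a q3 (by rw [f3]; exact u4)
      (by rw [f3, mul_inv_cancel_right]; exact u1)
  have p5 : ph ad γ s u q4 = ph ad γ s u q := by rw [p4, p3, p2, p1]
  simp only [ph, f4] at p5
  exact Prod.ext f4 (mul_left_cancel p5)

/-- the elements of the free group which act trivially at large height -/
def K : Subgroup (FreeGroup V) where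
  carrier := {r | ∃ N : ℤ, ∀ q : RAAG ad × J, N ≤ ht ad q.1 → rho ad γ s r q = q}
  one_mem' := ⟨0, fun q _ => by simp⟩
  mul_mem' := by
    rintro a b ⟨M, hM⟩ ⟨N, hN⟩
    refine ⟨max M N, fun q hq => ?_⟩
    rw [map_mul, Equiv.Perm.mul_apply, hN q (le_trans (le_max_right _ _) hq),
      hM q (le_trans (le_max_left _ _) hq)]
  inv_mem' := by
    rintro a ⟨M, hM⟩
    refine ⟨M, fun q hq => ?_⟩
    rw [map_inv, Equiv.Perm.inv_eq_iff_eq, hM q hq]

theorem conj_fix {r t : FreeGroup V} {N : ℤ}
    (h : ∀ q : RAAG ad × J, N ≤ ht ad q.1 → rho ad γ s r q = q) (q : RAAG ad × J)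
    (hq : N ≤ ht ad q.1 + ht ad (PresentedGroup.mk (rels ad) t)) :
    rho ad γ s (t * r * t⁻¹) q = q := by
  rw [map_mul, map_mul, Equiv.Perm.mul_apply, Equiv.Perm.mul_apply]
  rw [h (rho ad γ s t⁻¹ q)]
  · rw [← Equiv.Perm.mul_apply, ← map_mul, mul_inv_cancel, map_one, Equiv.Perm.one_apply]
  · rw [rho_fst, map_inv, inv_inv, ht_mul]
    exact hq

instance K_normal : (K ad γ s).Normal where
  conj_mem := by
    rintro r ⟨N, hN⟩ t
    refine ⟨N - ht ad (PresentedGroup.mk (rels ad) t), fun q hq => ?_⟩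
    exact conj_fix ad γ s hN q (by linarith)

include coc hs in
theorem ker_le_K {r : FreeGroup V} (hr : PresentedGroup.mk (rels ad) r = 1) :
    ∃ N : ℤ, ∀ q : RAAG ad × J, N ≤ ht ad q.1 → rho ad γ s r q = q := by
  have h1 : r ∈ Subgroup.normalClosure (rels ad) := (QuotientGroup.eq_one_iff _).1 hr
  have h2 : Subgroup.normalClosure (rels ad) ≤ K ad γ s := by
    apply Subgroup.normalClosure_le_normal
    rintro r ⟨a, b, hab, rfl⟩
    refine ⟨1, fun q hq => ?_⟩
    have hne : ∀ g : RAAG ad, 1 ≤ ht ad g → g ≠ 1 := by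
      rintro g hg rfl
      rw [ht_one] at hg
      omega
    apply square ad symm irr γ s coc hs a b hab q
    · exact hne _ hq
    · apply hne; rw [ht_mul, ht_gen]; linarith
    · apply hne; rw [ht_mul, ht_mul, ht_gen, ht_gen]; linarith
    · apply hne; rw [ht_mul, ht_gen]; linarith
  exact h2 h1

/-- the homomorphism `θ` -/
def theta (v₀ : V) : FreeGroup V →* FreeGroup V :=
  FreeGroup.lift (fun v => (FreeGroup.of v₀)⁻¹ * FreeGroup.of v)

theorem theta_of (v₀ v : V) : theta v₀ (FreeGroup.of v) = (FreeGroup.of v₀)⁻¹ * FreeGroup.of v := by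
  rw [theta, FreeGroup.lift_apply_of]

theorem mk_theta (v₀ : V) (f : FreeGroup V) :
    PresentedGroup.mk (rels ad) (theta v₀ f) = (piF ad v₀ f : RAAG ad) := by
  have : (PresentedGroup.mk (rels ad)).comp (theta v₀) = (BB ad).subtype.comp (piF ad v₀) := by
    apply FreeGroup.ext_hom
    intro v
    simp only [MonoidHom.comp_apply, theta_of, piF, FreeGroup.lift_apply_of, map_mul, map_inv]
    rfl
  exact DFunLike.congr_fun this f

theorem ht_theta (v₀ : V) (f : FreeGroup V) :
    ht ad (PresentedGroup.mk (rels ad) (theta v₀ f)) = 0 := by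
  rw [mk_theta, ht]
  have := (piF ad v₀ f).2
  rw [MonoidHom.mem_ker] at this
  rw [this]; rfl

/-- the elements acting trivially at height at least `N` through `θ` -/
def MN (v₀ : V) (N : ℤ) : Subgroup (FreeGroup V) where
  carrier := {f | ∀ q : RAAG ad × J, N ≤ ht ad q.1 → rho ad γ s (theta v₀ f) q = q}
  one_mem' := fun q _ => by simp
  mul_mem' := by
    rintro a b ha hb q hq
    rw [map_mul, map_mul, Equiv.Perm.mul_apply, hb q hq, ha q hq]
  inv_mem' := by
    rintro a ha q hq
    rw [map_inv, map_inv, Equiv.Perm.inv_eq_iff_eq, ha q hq]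

instance MN_normal (v₀ : V) (N : ℤ) : (MN ad γ s v₀ N).Normal where
  conj_mem := by
    rintro r hr t q hq
    rw [map_mul (theta v₀), map_mul (theta v₀), map_inv (theta v₀)]
    exact conj_fix ad γ s hr q (by rw [ht_theta ad v₀ t, add_zero]; exact hq)

theorem dl_pow_ne {a v : V} (h : a ≠ v) (n : ℕ) (x : RAAG ad) :
    dl ad symm irr v (gen ad a ^ n) x = 0 := by
  induction n with
  | zero => rw [pow_zero, dl_one]
  | succ n ih => rw [pow_succ, dl_step_ne ad symm irr h, ih]

theorem Dv_pow_eq {a v : V} {n : ℕ} (h : Dv ad symm irr v (gen ad a ^ n)) : v = a := by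
  by_contra hne
  simp only [Dv, dl_pow_ne ad symm irr (Ne.symm hne)] at h
  simp at h

theorem Dv_pow (a : V) {n : ℕ} (hn : 1 ≤ n) : Dv ad symm irr a (gen ad a ^ n) := by
  have hne : gen ad a ^ n ≠ 1 := by
    intro h
    have := ht_pow ad a n
    rw [h, ht_one] at this
    omega
  obtain ⟨v, hv⟩ := exists_Dv ad symm irr hne
  rw [Dv_pow_eq ad symm irr hv] at hv
  exact hv

theorem Dv_mul_pow {a b : V} (hab : b ≠ a) (g : RAAG ad) (k : ℕ) :
    Dv ad symm irr a (g * gen ad b ^ k) ↔ Dv ad symm irr a g := by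
  induction k with
  | zero => rw [pow_zero, mul_one]
  | succ k ih => rw [pow_succ, ← mul_assoc, Dv_step ad symm irr hab, ih]

theorem pow_comm' {a b : V} (hab : ad a b) (m k : ℕ) :
    gen ad a ^ m * gen ad b ^ k = gen ad b ^ k * gen ad a ^ m :=
  ((show Commute (gen ad a) (gen ad b) from gen_comm ad a b hab).pow_pow m k).eq

theorem two_fst (a b : V) (q : RAAG ad × J) :
    (rho ad γ s ((FreeGroup.of b)⁻¹ * FreeGroup.of a) q).1 = q.1 * (gen ad a)⁻¹ * gen ad b := by
  rw [rho_fst, map_mul, mul_inv_rev, map_inv, inv_inv, mul_assoc]; rfl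

include coc hs in
theorem two_step (u a b : V) (q : RAAG ad × J) (h1 : Dv ad symm irr u q.1)
    (h2 : Dv ad symm irr u (q.1 * (gen ad a)⁻¹))
    (h3 : Dv ad symm irr u (q.1 * (gen ad a)⁻¹ * gen ad b)) :
    ph ad γ s u (rho ad γ s ((FreeGroup.of b)⁻¹ * FreeGroup.of a) q) = ph ad γ s u q := by
  rw [map_mul, Equiv.Perm.mul_apply]
  have f1 : (rho ad γ s (FreeGroup.of a) q).1 = q.1 * (gen ad a)⁻¹ := by rw [rho_of]
  rw [ph_step_inv ad symm irr γ s coc hs u b _ (by rw [f1]; exact h2) (by rw [f1]; exact h3),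
    ph_step ad symm irr γ s coc hs u a q h1 h2]

include coc hs in
theorem edge_aux (a b : V) (hab : ad a b) (k : ℕ) : ∀ m : ℕ, 1 ≤ m → ∀ j : J,
    (rho ad γ s (((FreeGroup.of b)⁻¹ * FreeGroup.of a) ^ k) (gen ad a ^ (m + k), j)).1
        = gen ad a ^ m * gen ad b ^ k ∧
      ph ad γ s a (rho ad γ s (((FreeGroup.of b)⁻¹ * FreeGroup.of a) ^ k) (gen ad a ^ (m + k), j))
        = ph ad γ s a (gen ad a ^ (m + k), j) := by
  have hne : b ≠ a := by rintro rfl; exact irr _ hab
  induction k with
  | zero => intro m _ j; simp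
  | succ k ih =>
    intro m hm j
    obtain ⟨i1, i2⟩ := ih (m + 1) (by omega) j
    rw [show m + (k + 1) = m + 1 + k by ring, pow_succ', map_mul, Equiv.Perm.mul_apply]
    set q := rho ad γ s (((FreeGroup.of b)⁻¹ * FreeGroup.of a) ^ k) (gen ad a ^ (m + 1 + k), j)
      with hq
    have e1 : q.1 * (gen ad a)⁻¹ = gen ad a ^ m * gen ad b ^ k := by
      rw [i1, pow_comm' ad hab, pow_succ, ← mul_assoc, mul_inv_cancel_right, pow_comm' ad hab]
    have e2 : q.1 * (gen ad a)⁻¹ * gen ad b = gen ad a ^ m * gen ad b ^ (k + 1) := by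
      rw [e1, mul_assoc, ← pow_succ]
    refine ⟨by rw [two_fst, e2], ?_⟩
    rw [two_step ad symm irr γ s coc hs a a b q, i2]
    · rw [i1, Dv_mul_pow ad symm irr hne]; exact Dv_pow ad symm irr a (by omega)
    · rw [e1, Dv_mul_pow ad symm irr hne]; exact Dv_pow ad symm irr a hm
    · rw [e2, Dv_mul_pow ad symm irr hne]; exact Dv_pow ad symm irr a hm

include coc in
theorem ga_self (a : V) : γ a a = 1 := by
  have := coc a a a (Or.inl rfl) (Or.inl rfl) (Or.inl rfl)
  exact mul_eq_left.1 this

include coc symm in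
theorem ga_inv (a b : V) (hab : a = b ∨ ad a b) : γ b a = (γ a b)⁻¹ := by
  have h := coc b a b (hab.imp Eq.symm (symm _ _)) hab (Or.inl rfl)
  rw [ga_self ad γ coc] at h
  exact eq_inv_of_mul_eq_one_left h

include coc hs in
theorem edge (a b : V) (hab : ad a b) (n : ℕ) (hn : 2 ≤ n) (j : J) :
    rho ad γ s (((FreeGroup.of b)⁻¹ * FreeGroup.of a) ^ n) (gen ad a ^ n, j)
      = (gen ad b ^ n, γ b a * j) := by
  have hne : b ≠ a := by rintro rfl; exact irr _ hab
  obtain ⟨k, rfl⟩ : ∃ k, n = k + 1 := ⟨n - 1, by omega⟩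
  obtain ⟨i1, i2⟩ := edge_aux ad symm irr γ s coc hs a b hab k 1 le_rfl j
  rw [pow_succ' ((FreeGroup.of b)⁻¹ * FreeGroup.of a) k, map_mul, Equiv.Perm.mul_apply,
    add_comm k 1]
  set q := rho ad γ s (((FreeGroup.of b)⁻¹ * FreeGroup.of a) ^ k) (gen ad a ^ (1 + k), j)
    with hq
  have sa : ∀ (v : V) (m : ℕ), 1 ≤ m → s (gen ad v ^ m) = v := by
    intro v m hm
    have := hs (gen ad v ^ m) (Dv_ne_one ad symm irr (Dv_pow ad symm irr v hm))
    exact Dv_pow_eq ad symm irr this
  have e1 : q.1 * (gen ad a)⁻¹ = gen ad b ^ k := by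
    rw [i1, pow_comm' ad hab, pow_one, mul_inv_cancel_right]
  have e2 : q.1 * (gen ad a)⁻¹ * gen ad b = gen ad b ^ (1 + k) := by
    rw [e1, ← pow_succ, add_comm]
  have d1 : Dv ad symm irr b q.1 := by
    rw [i1, pow_comm' ad hab, Dv_mul_pow ad symm irr hne.symm]
    exact Dv_pow ad symm irr b (by omega)
  have d1a : Dv ad symm irr a q.1 := by
    rw [i1, Dv_mul_pow ad symm irr hne]
    exact Dv_pow ad symm irr a le_rfl
  have f := two_fst ad γ s a b q
  rw [e2] at f
  have p := two_step ad symm irr γ s coc hs b a b q d1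
    (by rw [e1]; exact Dv_pow ad symm irr b (by omega))
    (by rw [e2]; exact Dv_pow ad symm irr b (by omega))
  have dq := hs q.1 (Dv_ne_one ad symm irr d1)
  simp only [ph, f, sa b (1 + k) (by omega), ga_self ad γ coc, one_mul] at p
  simp only [ph, sa a (1 + k) (by omega), ga_self ad γ coc, one_mul] at i2
  refine Prod.ext f ?_
  rw [p, ← i2, ← mul_assoc]
  rw [← coc b (s q.1) a (Dv_nb ad symm irr d1 dq) (Dv_nb ad symm irr dq d1a)
    (Or.inr (symm _ _ hab))]
  have : γ (s q.1) a * γ a (s q.1) = 1 := by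
    rw [coc (s q.1) a (s q.1) (Dv_nb ad symm irr dq d1a) (Dv_nb ad symm irr d1a dq) (Or.inl rfl),
      ga_self ad γ coc]
  rw [mul_assoc (γ b (s q.1)), this, mul_one]

/-- the relators along a path -/
def Rp (p : ℕ → V) (n : ℕ) : ℕ → FreeGroup V
  | 0 => 1
  | i + 1 => ((FreeGroup.of (p (i + 1)))⁻¹ * FreeGroup.of (p i)) ^ n * Rp p n i

theorem theta_edge (v₀ a b : V) : theta v₀ ((FreeGroup.of b)⁻¹ * FreeGroup.of a)
    = (FreeGroup.of b)⁻¹ * FreeGroup.of a := by
  rw [map_mul, map_inv, theta_of, theta_of, mul_inv_rev, inv_inv, mul_assoc,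
    mul_inv_cancel_left]

include symm coc hs in
theorem Rp_act (v₀ : V) (p : ℕ → V) (n : ℕ) (hn : 2 ≤ n) (l : ℕ) (hp : ∀ i < l, ad (p i) (p (i + 1)))
    (j : J) : ∀ i ≤ l, rho ad γ s (theta v₀ (Rp p n i)) (gen ad (p 0) ^ n, j)
      = (gen ad (p i) ^ n,
        (((List.range i).map (fun i => γ (p i) (p (i + 1)))).prod)⁻¹ * j) := by
  intro i
  induction i with
  | zero => intro _; simp [Rp]
  | succ i ih =>
    intro hi
    have hpi := hp i (by omega)
    rw [Rp, map_mul, map_pow, theta_edge, map_mul, Equiv.Perm.mul_apply, ih (by omega),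
      edge ad symm irr γ s coc hs (p i) (p (i + 1)) hpi n hn, List.range_succ, List.map_append,
      List.prod_append, mul_inv_rev, mul_assoc]
    simp only [List.map_cons, List.map_nil, List.prod_cons, List.prod_nil, mul_one]
    rw [ga_inv ad symm γ coc (p i) (p (i + 1)) (Or.inr hpi)]

include symm irr coc in
theorem main (l : ℕ) (p : ℕ → V) (closed : p l = p 0) (path : ∀ i < l, ad (p i) (p (i + 1)))
    (hol : ((List.range l).map (fun i => γ (p i) (p (i + 1)))).prod ≠ 1) (v₀ : V) :
    ¬ ∃ S : Set (FreeGroup V), S.Finite ∧ Subgroup.normalClosure S = (piF ad v₀).ker := by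
  classical
  rintro ⟨S, hS, hker⟩
  have hex : ∃ s : RAAG ad → V, ∀ g, g ≠ 1 → Dv ad symm irr (s g) g := by
    refine ⟨fun g => if h : g ≠ 1 then (exists_Dv ad symm irr h).choose else v₀, fun g hg => ?_⟩
    simp only [dif_pos hg]
    exact (exists_Dv ad symm irr hg).choose_spec
  obtain ⟨s, hs⟩ := hex
  have hkerA : ∀ f, f ∈ (piF ad v₀).ker ↔ PresentedGroup.mk (rels ad) (theta v₀ f) = 1 := by
    intro f
    rw [mk_theta, MonoidHom.mem_ker, ← Subgroup.coe_one (BB ad)]
    exact Subtype.ext_iff
  have hS' : ∀ f ∈ S, ∃ N : ℤ, ∀ q : RAAG ad × J, N ≤ ht ad q.1 →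
      rho ad γ s (theta v₀ f) q = q := by
    intro f hf
    apply ker_le_K ad symm irr γ s coc hs
    rw [← hkerA, ← hker]
    exact Subgroup.subset_normalClosure hf
  have hbd : ∃ N : ℤ, ∀ f ∈ S, ∀ q : RAAG ad × J, N ≤ ht ad q.1 →
      rho ad γ s (theta v₀ f) q = q := by
    clear hker
    induction S, hS using Set.Finite.induction_on with
    | empty => exact ⟨0, fun f hf => absurd hf (Set.notMem_empty f)⟩
    | @insert a S ha hS ih =>
      obtain ⟨N, hN⟩ := ih (fun f hf => hS' f (Set.mem_insert_of_mem _ hf))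
      obtain ⟨M, hM⟩ := hS' a (Set.mem_insert _ _)
      refine ⟨max M N, fun f hf q hq => ?_⟩
      rcases hf with rfl | hf
      · exact hM q (le_trans (le_max_left _ _) hq)
      · exact hN f hf q (le_trans (le_max_right _ _) hq)
  obtain ⟨N, hN⟩ := hbd
  have hle : (piF ad v₀).ker ≤ MN ad γ s v₀ N := by
    rw [← hker]
    exact Subgroup.normalClosure_le_normal (fun f hf => hN f hf)
  set n : ℕ := max N.toNat 2 with hn
  have hn2 : 2 ≤ n := le_max_right _ _
  have hnN : N ≤ n := by
    have : N.toNat ≤ n := le_max_left _ _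
    omega
  have hact := Rp_act ad symm irr γ s coc hs v₀ p n hn2 l path 1 l le_rfl
  have hmem : Rp p n l ∈ (piF ad v₀).ker := by
    rw [hkerA]
    have h1 := rho_fst ad γ s (theta v₀ (Rp p n l)) (gen ad (p 0) ^ n, (1 : J))
    rw [hact] at h1
    simp only [closed] at h1
    exact inv_eq_one.1 (left_eq_mul.1 h1)
  have h2 := hle hmem (gen ad (p 0) ^ n, (1 : J)) (by rw [ht_pow]; exact hnN)
  rw [hact] at h2
  have h3 := congrArg Prod.snd h2
  simp only [mul_one] at h3
  exact hol (inv_eq_one.1 h3)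

end action

theorem th : PropNFG := by
  intro V J _ _ ad γ l p hd v₀
  exact main ad hd.symm hd.irr γ hd.coc l p hd.closed hd.path hd.hol v₀

end Pool.Agent.V1194.HC.NFG
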