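import Pool.Agent.V1194.HC.G1

/-!
# The fibre product is not of type `FP₂`
-/

set_option autoImplicit false

namespace Pool.Agent.V1194.HC

open Pool.Agent.W326.DU Pool.Agent.Y66.HC

section lift

variable {H G : Type} [Group H] [Group G]

theorem mp_surj (p : H →* G) (hp : Function.Surjective p) : Function.Surjective (mp p) := by
  intro z
  induction z using MonoidAlgebra.induction_on with
  | of g =>
    obtain ⟨h, rfl⟩ := hp g
    exact ⟨_, mp_of p h⟩
  | add a b ha hb =>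
    obtain ⟨a', rfl⟩ := ha
    obtain ⟨b', rfl⟩ := hb
    exact ⟨a' + b', map_add _ _ _⟩
  | smul r a ha =>
    obtain ⟨a', rfl⟩ := ha
    exact ⟨r • a', map_zsmul _ _ _⟩

theorem lift_IL (p : H →* G) (hp : Function.Surjective p) (L : Set G) (L' : Set H)
    (hL : ∀ l ∈ L, ∃ l' ∈ L', p l' = l) (z : ZG G) (hz : z ∈ IL ℤ L) :
    ∃ z' ∈ IL ℤ L', mp p z' = z := by
  refine Submodule.span_induction (p := fun z _ => ∃ z' ∈ IL ℤ L', mp p z' = z) ?_ ?_ ?_ ?_ hz
  · rintro _ ⟨l, hl, rfl⟩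
    obtain ⟨l', hl', rfl⟩ := hL l hl
    exact ⟨_, Submodule.subset_span ⟨l', hl', rfl⟩, mp_of_sub p l'⟩
  · exact ⟨0, Submodule.zero_mem _, map_zero _⟩
  · rintro a b _ _ ⟨a', ha, rfl⟩ ⟨b', hb, rfl⟩
    exact ⟨a' + b', Submodule.add_mem _ ha hb, map_add _ _ _⟩
  · rintro r a _ ⟨a', ha, rfl⟩
    obtain ⟨r', rfl⟩ := mp_surj p hp r
    exact ⟨r' * a', Submodule.smul_mem _ _ ha, map_mul _ _ _⟩

/-- the property `StarP` passes to extensions -/
theorem star_lift (p : H →* G) (hp : Function.Surjective p) (A L : Set G) (t : G)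
    (h : StarP ℤ A t L) (A' L' : Set H) (t' : H) (hA : ∀ a ∈ A', p a ∈ A)
    (ht : p t' = t) (hL : ∀ l ∈ L, ∃ l' ∈ L', p l' = l) (hk : ∀ k, p k = 1 → k ∈ L') :
    StarP ℤ A' t' L' := by
  intro x hx
  have h1 := Pool.Agent.W571.DU.BC.map_mem ℤ p A' _ hx
  have h2 : mp p x * (MonoidAlgebra.of ℤ G t - 1) ∈ IL ℤ A := by
    have : mp p (x * (MonoidAlgebra.of ℤ H t' - 1)) = mp p x * (MonoidAlgebra.of ℤ G t - 1) := by
      rw [map_mul, mp_of_sub, ht]
    rw [← this]
    refine (Submodule.span_mono ?_ : IL ℤ (p '' A') ≤ IL ℤ A) h1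
    refine Set.image_mono ?_
    rintro _ ⟨a, ha, rfl⟩
    exact hA a ha
  obtain ⟨z, hz, hz'⟩ := lift_IL p hp L L' hL _ (h _ h2)
  have h3 : x - z ∈ IL ℤ (p.ker : Set H) := by
    apply mem_IL_ker
    rw [map_sub, hz', sub_self]
  have h4 : x - z ∈ IL ℤ L' := by
    refine (Submodule.span_mono (Set.image_mono ?_) : IL ℤ (p.ker : Set H) ≤ IL ℤ L') h3
    intro k hk'
    exact hk k hk'
  have := Submodule.add_mem _ h4 hz
  rwa [sub_add_cancel] at this

/-- a subgroup with finitely generated ideal is finitely generated -/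
theorem fg_of_IL_fg (K : Subgroup G) (h : (IL ℤ (K : Set G)).FG) :
    ∃ S : Finset G, (S : Set G) ⊆ K ∧ K ≤ Subgroup.closure (S : Set G) := by
  classical
  obtain ⟨s', hs', hs''⟩ := (Submodule.fg_span_iff_fg_span_finset_subset _).1 h
  obtain ⟨S, hS, rfl⟩ := Finset.subset_set_image_iff.1 hs'
  refine ⟨S, hS, fun k hk => mem_of_sub_mem_IL ?_⟩
  have h1 : MonoidAlgebra.of ℤ G k - 1 ∈ IL ℤ (K : Set G) := Submodule.subset_span ⟨k, hk, rfl⟩
  unfold IL at h1 ⊢
  rw [hs''] at h1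
  rw [Finset.coe_image] at h1
  exact h1

end lift

section fib

variable {V Q : Type} [Group Q] (π : FreeGroup V →* Q)

/-- the fibre product -/
abbrev FP : Subgroup (G1 π × FreeGroup V) :=
  ((pi1 π).comp (MonoidHom.fst (G1 π) (FreeGroup V))).eqLocus
      (π.comp (MonoidHom.snd (G1 π) (FreeGroup V)))

theorem pi1_of (h : FreeGroup V × Q) : pi1 π (HNNExtension.of h) = h.2 :=
  HNNExtension.lift_of _ _ _ h

theorem pi1_t : pi1 π HNNExtension.t = 1 := HNNExtension.lift_t _ _ _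

theorem mem_FP (x : G1 π × FreeGroup V) : x ∈ FP π ↔ pi1 π x.1 = π x.2 := Iff.rfl

/-- generators of the fibre product -/
def zz : Unit ⊕ (V ⊕ V) → FP π :=
  Sum.elim (fun _ => ⟨(HNNExtension.t, 1), by rw [mem_FP, pi1_t, map_one]⟩)
    (Sum.elim (fun v => ⟨(HNNExtension.of (FreeGroup.of v, 1), 1), by
        rw [mem_FP, pi1_of, map_one]⟩)
      (fun v => ⟨(HNNExtension.of (1, π (FreeGroup.of v)), FreeGroup.of v), by
        rw [mem_FP, pi1_of]⟩))

/-- the homomorphism `F → P`, `a ↦ (a, 1, 1)` -/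
def ia : FreeGroup V →* FP π where
  toFun a := ⟨(HNNExtension.of (a, 1), 1), by rw [mem_FP, pi1_of, map_one]⟩
  map_one' := Subtype.ext (Prod.ext (map_one _) rfl)
  map_mul' a b := by
    refine Subtype.ext (Prod.ext ?_ (mul_one 1).symm)
    change HNNExtension.of (a * b, (1 : Q)) = HNNExtension.of (a, 1) * HNNExtension.of (b, 1)
    rw [← map_mul]
    congr 1
    ext <;> simp

/-- the homomorphism `F → P`, `b ↦ (1, π b, b)` -/
def ib : FreeGroup V →* FP π where
  toFun b := ⟨(HNNExtension.of (1, π b), b), by rw [mem_FP, pi1_of]⟩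
  map_one' := by
    refine Subtype.ext (Prod.ext ?_ rfl)
    change HNNExtension.of ((1 : FreeGroup V), π 1) = 1
    rw [map_one]
    exact map_one _
  map_mul' a b := by
    refine Subtype.ext (Prod.ext ?_ rfl)
    change HNNExtension.of ((1 : FreeGroup V), π (a * b)) =
      HNNExtension.of (1, π a) * HNNExtension.of (1, π b)
    rw [← map_mul]
    congr 1
    ext <;> simp

theorem ia_mem (a : FreeGroup V) :
    ia π a ∈ Subgroup.closure (Set.range fun i => zz π (Sum.inr i)) := by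
  have : (⊤ : Subgroup (FreeGroup V)).map (ia π) ≤
      Subgroup.closure (Set.range fun i => zz π (Sum.inr i)) := by
    rw [← clo_free, MonoidHom.map_closure, ← Set.range_comp]
    refine Subgroup.closure_mono ?_
    rintro _ ⟨v, rfl⟩
    exact ⟨Sum.inl v, rfl⟩
  exact this ⟨a, Subgroup.mem_top _, rfl⟩

theorem ib_mem (a : FreeGroup V) :
    ib π a ∈ Subgroup.closure (Set.range fun i => zz π (Sum.inr i)) := by
  have : (⊤ : Subgroup (FreeGroup V)).map (ib π) ≤
      Subgroup.closure (Set.range fun i => zz π (Sum.inr i)) := by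
    rw [← clo_free, MonoidHom.map_closure, ← Set.range_comp]
    refine Subgroup.closure_mono ?_
    rintro _ ⟨v, rfl⟩
    exact ⟨Sum.inr v, rfl⟩
  exact this ⟨a, Subgroup.mem_top _, rfl⟩

theorem of_mem (a b : FreeGroup V) (x : FP π)
    (h : (x : G1 π × FreeGroup V) = (HNNExtension.of (a, π b), b)) :
    x ∈ Subgroup.closure (Set.range fun i => zz π (Sum.inr i)) := by
  have h1 : x = ia π a * ib π b := by
    refine Subtype.ext ?_
    rw [h]
    refine Prod.ext ?_ (one_mul b).symm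
    change HNNExtension.of (a, π b) = HNNExtension.of (a, 1) * HNNExtension.of (1, π b)
    rw [← map_mul]
    congr 1
    ext <;> simp
  rw [h1]
  exact Subgroup.mul_mem _ (ia_mem π a) (ib_mem π b)

theorem clo_zz (hπ : Function.Surjective π) : Subgroup.closure (Set.range (zz π)) = ⊤ := by
  have hle : Subgroup.closure (Set.range fun i => zz π (Sum.inr i)) ≤
      Subgroup.closure (Set.range (zz π)) := by
    refine Subgroup.closure_mono ?_
    rintro _ ⟨i, rfl⟩
    exact ⟨Sum.inr i, rfl⟩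
  have h1 : ∀ g : G1 π, ∃ x ∈ Subgroup.closure (Set.range (zz π)),
      (x : G1 π × FreeGroup V).1 = g := by
    intro g
    refine HNNExtension.induction_on g ?_ ?_ ?_ ?_
    · rintro ⟨a, q⟩
      obtain ⟨b, rfl⟩ := hπ q
      exact ⟨⟨(HNNExtension.of (a, π b), b), by rw [mem_FP, pi1_of]⟩,
        hle (of_mem π a b _ rfl), rfl⟩
    · exact ⟨zz π (Sum.inl ()), Subgroup.subset_closure ⟨_, rfl⟩, rfl⟩
    · rintro a b ⟨x, hx, rfl⟩ ⟨y, hy, rfl⟩
      exact ⟨x * y, Subgroup.mul_mem _ hx hy, rfl⟩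
    · rintro a ⟨x, hx, rfl⟩
      exact ⟨x⁻¹, Subgroup.inv_mem _ hx, rfl⟩
  rw [eq_top_iff]
  intro x _
  obtain ⟨y, hy, hyx⟩ := h1 (x : G1 π × FreeGroup V).1
  have h2 : y⁻¹ * x ∈ Subgroup.closure (Set.range (zz π)) := by
    apply hle
    apply of_mem π 1 (y⁻¹ * x : FP π).1.2
    refine Prod.ext ?_ rfl
    have h3 : pi1 π (y⁻¹ * x : FP π).1.1 = π (y⁻¹ * x : FP π).1.2 := (y⁻¹ * x : FP π).2
    have h4 : (y⁻¹ * x : FP π).1.1 = 1 := by
      change (y : G1 π × FreeGroup V).1⁻¹ * (x : G1 π × FreeGroup V).1 = 1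
      rw [hyx, inv_mul_cancel]
    rw [h4, map_one] at h3
    rw [h4, ← h3]
    exact (map_one _).symm
  have h5 := Subgroup.mul_mem _ hy h2
  rwa [mul_inv_cancel_left] at h5

/-- the first projection -/
def pr : FP π →* G1 π := (MonoidHom.fst (G1 π) (FreeGroup V)).comp (FP π).subtype

theorem pr_surj (hπ : Function.Surjective π) : Function.Surjective (pr π) := by
  intro g
  obtain ⟨f, hf⟩ := hπ (pi1 π g)
  exact ⟨⟨(g, f), hf.symm⟩, rfl⟩

/-- the subgroup `K'` -/
def Kp : Subgroup (FP π) := ((Gam π).map (HNNExtension.of : _ →* G1 π)).comap (pr π)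

theorem mem_Kp (x : FP π) : x ∈ Kp π ↔ ∃ a, (HNNExtension.of (a, π a) : G1 π) = x.1.1 := by
  constructor
  · rintro ⟨_, ⟨a, rfl⟩, h⟩
    exact ⟨a, h⟩
  · rintro ⟨a, h⟩
    exact ⟨_, ⟨a, rfl⟩, h⟩

theorem star_P (hπ : Function.Surjective π) :
    StarP ℤ (Set.range fun i => zz π (Sum.inr i)) (zz π (Sum.inl ())) (Kp π : Set (FP π)) := by
  refine star_lift (pr π) (pr_surj π hπ) _ _ _
    (Pool.Agent.W335.DU.HN.th ℤ (FreeGroup V × Q) (Gam π) (Gam π) (MulEquiv.refl _)) _ _ _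
    ?_ rfl ?_ ?_
  · rintro _ ⟨i, rfl⟩
    rcases i with v | v
    · exact ⟨_, rfl⟩
    · exact ⟨_, rfl⟩
  · rintro _ ⟨g, ⟨a, rfl⟩, rfl⟩
    exact ⟨⟨(HNNExtension.of (a, π a), a), by rw [mem_FP, pi1_of]⟩, (mem_Kp π _).2 ⟨a, rfl⟩, rfl⟩
  · intro k hk
    refine (mem_Kp π k).2 ⟨1, ?_⟩
    rw [map_one]
    exact (map_one _).trans (Eq.symm hk)

theorem Kp_comm (k : FP π) (hk : k ∈ Kp π) : k * zz π (Sum.inl ()) = zz π (Sum.inl ()) * k := by
  obtain ⟨a, ha⟩ := (mem_Kp π k).1 hk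
  refine Subtype.ext (Prod.ext ?_ ?_)
  · change k.1.1 * HNNExtension.t = HNNExtension.t * k.1.1
    rw [← ha]
    exact (HNNExtension.t_mul_of (φ := MulEquiv.refl (Gam π)) ⟨(a, π a), ⟨a, rfl⟩⟩).symm
  · change k.1.2 * 1 = 1 * k.1.2
    rw [one_mul, mul_one]

theorem Kp_le (k : FP π) (hk : k ∈ Kp π) :
    k ∈ Subgroup.closure (Set.range fun i => zz π (Sum.inr i)) := by
  obtain ⟨a, ha⟩ := (mem_Kp π k).1 hk
  have h1 : pi1 π k.1.1 = π k.1.2 := k.2
  rw [← ha, pi1_of] at h1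
  refine of_mem π a k.1.2 k (Prod.ext ?_ rfl)
  rw [← ha]
  change (HNNExtension.of (a, π a) : G1 π) = HNNExtension.of (a, π k.1.2)
  rw [← h1]

theorem IL_Kp_fg [Fintype V] (hπ : Function.Surjective π) (h : (RM (zz π)).FG) :
    (IL ℤ (Kp π : Set (FP π))).FG := by
  have key : IL ℤ (Kp π : Set (FP π)) =
      (RM (zz π)).map (LinearMap.proj (Sum.inl ()) : _ →ₗ[ZG (FP π)] ZG (FP π)) := by
    apply le_antisymm
    · refine Submodule.span_le.2 ?_
      rintro _ ⟨k, hk, rfl⟩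
      obtain ⟨b, hb⟩ := mem_IL_range (Pool.Agent.W490.DU.of_sub_mem_IL ℤ (Kp_le π k hk))
      refine ⟨Sum.elim (fun _ => MonoidAlgebra.of ℤ _ k - 1)
        (fun i => -((MonoidAlgebra.of ℤ _ (zz π (Sum.inl ())) - 1) * b i)), ?_, rfl⟩
      change _ ∈ RM (zz π)
      rw [mem_RM, Fintype.sum_sum_type]
      simp only [Sum.elim_inl, Sum.elim_inr, Finset.univ_unique, Finset.sum_singleton]
      have h1 : ∑ i, -((MonoidAlgebra.of ℤ _ (zz π (Sum.inl ())) - 1) * b i) *
          (MonoidAlgebra.of ℤ _ (zz π (Sum.inr i)) - 1) =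
          -((MonoidAlgebra.of ℤ _ (zz π (Sum.inl ())) - 1) * (MonoidAlgebra.of ℤ _ k - 1)) := by
        rw [hb, Finset.mul_sum, ← Finset.sum_neg_distrib]
        refine Finset.sum_congr rfl fun i _ => ?_
        rw [neg_mul, mul_assoc]
      change (MonoidAlgebra.of ℤ _ k - 1) * (MonoidAlgebra.of ℤ _ (zz π (Sum.inl ())) - 1) +
        ∑ i, -((MonoidAlgebra.of ℤ _ (zz π (Sum.inl ())) - 1) * b i) *
          (MonoidAlgebra.of ℤ _ (zz π (Sum.inr i)) - 1) = 0
      rw [h1, of_comm (Kp_comm π k hk)]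
      exact add_neg_cancel _
    · rintro _ ⟨c, hc, rfl⟩
      change c ∈ RM (zz π) at hc
      rw [mem_RM, Fintype.sum_sum_type] at hc
      simp only [Finset.univ_unique, Finset.sum_singleton] at hc
      apply star_P π hπ
      have h2 : c (Sum.inl ()) * (MonoidAlgebra.of ℤ _ (zz π (Sum.inl ())) - 1) =
          - ∑ i, c (Sum.inr i) * (MonoidAlgebra.of ℤ _ (zz π (Sum.inr i)) - 1) :=
        eq_neg_of_add_eq_zero_left hc
      change c (Sum.inl ()) * (MonoidAlgebra.of ℤ _ (zz π (Sum.inl ())) - 1) ∈ _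
      rw [h2]
      refine Submodule.neg_mem _ (Submodule.sum_mem _ fun i _ => ?_)
      exact Submodule.smul_mem _ _ (Submodule.subset_span ⟨_, ⟨i, rfl⟩, rfl⟩)
  rw [key]
  exact h.map _

theorem of_inj' (x y : FreeGroup V × Q) (h : (HNNExtension.of x : G1 π) = HNNExtension.of y) :
    x = y := HNNExtension.of_injective (MulEquiv.refl (Gam π)) h

theorem pnfp_aux [Fintype V] (hπ : Function.Surjective π) (h : (RM (zz π)).FG) :
    ∃ S : Set (FreeGroup V), S.Finite ∧ Subgroup.normalClosure S = π.ker := by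
  classical
  obtain ⟨S, hS1, hS2⟩ := fg_of_IL_fg (Kp π) (IL_Kp_fg π hπ h)
  have hex : ∀ k : FP π, ∃ a : FreeGroup V, k ∈ Kp π → (HNNExtension.of (a, π a) : G1 π) = k.1.1 := by
    intro k
    by_cases hk : k ∈ Kp π
    · obtain ⟨a, ha⟩ := (mem_Kp π k).1 hk
      exact ⟨a, fun _ => ha⟩
    · exact ⟨1, fun h => absurd h hk⟩
  choose a ha using hex
  let S2 : Set (FreeGroup V) := (fun k : FP π => a k * (k.1.2)⁻¹) '' (S : Set (FP π))
  refine ⟨S2, S.finite_toSet.image _, ?_⟩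
  apply le_antisymm
  · refine Subgroup.normalClosure_le_normal ?_
    rintro _ ⟨k, hk, rfl⟩
    change π (a k * (k.1.2)⁻¹) = 1
    have h1 : pi1 π k.1.1 = π k.1.2 := k.2
    rw [← ha k (hS1 hk), pi1_of] at h1
    rw [map_mul, map_inv, mul_inv_eq_one]
    exact h1
  · let N := Subgroup.normalClosure S2
    let mk : FreeGroup V →* FreeGroup V ⧸ N := QuotientGroup.mk' N
    let D : Subgroup (FP π) :=
      { carrier := {k | ∃ b, (HNNExtension.of (b, π b) : G1 π) = k.1.1 ∧ mk b = mk k.1.2}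
        mul_mem' := by
          rintro k k' ⟨b, hb, hb'⟩ ⟨c, hc, hc'⟩
          refine ⟨b * c, ?_, ?_⟩
          · change _ = k.1.1 * k'.1.1
            rw [← hb, ← hc, ← map_mul]
            congr 1
            ext <;> simp
          · change _ = mk (k.1.2 * k'.1.2)
            rw [map_mul, map_mul, hb', hc']
        one_mem' := ⟨1, by
          change (HNNExtension.of ((1 : FreeGroup V), π 1) : G1 π) = 1
          rw [map_one]
          exact map_one _, rfl⟩
        inv_mem' := by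
          rintro k ⟨b, hb, hb'⟩
          refine ⟨b⁻¹, ?_, ?_⟩
          · change _ = k.1.1⁻¹
            rw [← hb, ← map_inv]
            congr 1
            ext <;> simp
          · change _ = mk (k.1.2⁻¹)
            rw [map_inv, map_inv, hb'] }
    have hSD : Subgroup.closure (S : Set (FP π)) ≤ D := by
      rw [Subgroup.closure_le]
      intro k hk
      refine ⟨a k, ha k (hS1 hk), ?_⟩
      have h2 : a k * (k.1.2)⁻¹ ∈ N := Subgroup.subset_normalClosure ⟨k, hk, rfl⟩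
      have h3 : mk (a k * (k.1.2)⁻¹) = 1 := (QuotientGroup.eq_one_iff _).2 h2
      rw [map_mul, map_inv, mul_inv_eq_one] at h3
      exact h3
    intro r hr
    have hr' : π r = 1 := hr
    have h4 : ia π r ∈ Kp π := (mem_Kp π _).2 ⟨r, by rw [hr']; rfl⟩
    obtain ⟨b, hb, hb'⟩ := hSD (hS2 h4)
    have h5 : (b, π b) = (r, 1) := of_inj' π _ _ hb
    have h6 : b = r := (Prod.mk.inj h5).1
    have h7 : mk b = 1 := by
      rw [hb']
      exact map_one _
    rw [h6] at h7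
    exact (QuotientGroup.eq_one_iff _).1 h7

end fib

theorem pnfp (h1 : PropM1) : PropPNFP := by
  intro V Q _ _ π hπ hn hfp
  exact hn (pnfp_aux π hπ (h1 (FP π) (Unit ⊕ (V ⊕ V)) (zz π) (clo_zz π hπ) hfp))

end Pool.Agent.V1194.HC
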