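import Pool.Agent.V1194.HC.Lem

/-!
# `G₁` is of type `FP₂` and the kernel of `π₁` is finitely generated
-/

set_option autoImplicit false

namespace Pool.Agent.V1194.HC

open Pool.Agent.W326.DU Pool.Agent.Y66.HC

section free

/-- the relation module of a free group is zero -/
theorem free : PropFREE := by
  classical
  intro V _
  have hex : ∀ v : V, ∃ δ : FreeGroup V → ZG (FreeGroup V),
      (∀ g h, δ (g * h) = MonoidAlgebra.of ℤ (FreeGroup V) g • δ h + δ g) ∧
      ∀ w, δ (FreeGroup.of w) = if w = v then 1 else 0 := by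
    intro v
    let G := FreeGroup V
    let act : G → Equiv.Perm (ZG G) := fun g =>
        { toFun := fun y => MonoidAlgebra.of ℤ G g * y
          invFun := fun y => MonoidAlgebra.of ℤ G g⁻¹ * y
          left_inv := fun y => by
            simp only
            rw [← mul_assoc, ← map_mul, inv_mul_cancel, map_one, one_mul]
          right_inv := fun y => by
            simp only
            rw [← mul_assoc, ← map_mul, mul_inv_cancel, map_one, one_mul] }
    let Ψ : G →* Equiv.Perm (ZG G) := FreeGroup.lift (fun w =>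
      Equiv.addRight (if w = v then (1 : ZG G) else 0) * act (FreeGroup.of w))
    have hof : ∀ w y, Ψ (FreeGroup.of w) y = MonoidAlgebra.of ℤ G (FreeGroup.of w) * y +
        (if w = v then 1 else 0) := by
      intro w y
      have : Ψ (FreeGroup.of w) = Equiv.addRight (if w = v then (1 : ZG G) else 0) *
        act (FreeGroup.of w) := FreeGroup.lift_apply_of
      rw [this]
      rfl
    have hinv : ∀ g, (∀ y, Ψ g y = MonoidAlgebra.of ℤ G g * y + Ψ g 0) →
        ∀ y, Ψ g⁻¹ y = MonoidAlgebra.of ℤ G g⁻¹ * y + Ψ g⁻¹ 0 := by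
      intro g hg y
      have inv : ∀ z, Ψ g⁻¹ z = MonoidAlgebra.of ℤ G g⁻¹ * (z - Ψ g 0) := by
        intro z
        rw [map_inv, Equiv.Perm.inv_eq_iff_eq, hg, ← mul_assoc, ← map_mul, mul_inv_cancel,
          map_one, one_mul]
        abel
      rw [inv, inv, zero_sub, mul_sub, mul_neg]
      abel
    have hΨ : ∀ g y, Ψ g y = MonoidAlgebra.of ℤ G g * y + Ψ g 0 := by
      intro g
      induction g using FreeGroup.induction_on with
      | C1 =>
        intro y
        rw [map_one, map_one, one_mul]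
        change y = y + (1 : Equiv.Perm (ZG G)) 0
        rw [Equiv.Perm.one_apply, add_zero]
      | of w =>
        intro y
        rw [hof, hof, mul_zero, zero_add]
      | inv_of w _ =>
        refine hinv _ ?_
        intro y
        rw [hof, hof, mul_zero, zero_add]
      | mul g h hg hh =>
        intro y
        rw [map_mul, Equiv.Perm.mul_apply, Equiv.Perm.mul_apply, hg (Ψ h y), hh y, hg (Ψ h 0),
          mul_add, map_mul, mul_assoc]
        abel
    refine ⟨fun g => Ψ g 0, fun g h => ?_, fun w => ?_⟩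
    · change Ψ (g * h) 0 = _
      rw [map_mul, Equiv.Perm.mul_apply, hΨ g (Ψ h 0)]
      rfl
    · change Ψ (FreeGroup.of w) 0 = _
      rw [hof, mul_zero, zero_add]
  rw [eq_bot_iff]
  intro c hc
  rw [mem_RM] at hc
  rw [Submodule.mem_bot]
  funext v
  obtain ⟨δ, h1, h2⟩ := hex v
  obtain ⟨D, hD⟩ := Pool.Agent.W335.DU.HN.crossed ℤ (ZG (FreeGroup V)) δ h1
  have := congrArg D hc
  rw [map_sum, map_zero] at this
  simp only [hD, h2, smul_eq_mul, mul_ite, mul_one, mul_zero] at this
  simpa using this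

end free

section prod

variable {F Q I K : Type} [Group F] [Group Q] [Fintype I] [Fintype K]

theorem of_comm {G : Type} [Group G] {a b : G} (h : a * b = b * a) :
    (MonoidAlgebra.of ℤ G a - 1) * (MonoidAlgebra.of ℤ G b - 1) =
      (MonoidAlgebra.of ℤ G b - 1) * (MonoidAlgebra.of ℤ G a - 1) :=
  Pool.Agent.W490.DU.comm_sub_one (by rw [← map_mul, ← map_mul, h])

/-- relation modules of products -/
theorem prod_fg (u : I → F) (w : K → Q) (hu : RM u = ⊥)
    (hw : Subgroup.closure (Set.range w) = ⊤) (hwf : (RM w).FG) :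
    (RM (Sum.elim (fun i => ((u i, 1) : F × Q)) (fun k => ((1, w k) : F × Q)))).FG := by
  classical
  refine RM_sum_fg (J := I × K) _ (RM_bc_fg (MonoidHom.inr F Q) ?_ w hwf)
    (fun j => Sum.elim
      (fun i => if i = j.1 then MonoidAlgebra.of ℤ (F × Q) (1, w j.2) - 1 else 0)
      (fun k => if k = j.2 then -(MonoidAlgebra.of ℤ (F × Q) (u j.1, 1) - 1) else 0)) ?_ ?_
  · intro a b h
    exact (Prod.mk.inj h).2
  · rintro ⟨i, k⟩
    rw [mem_RM, Fintype.sum_sum_type]
    simp only [Sum.elim_inl, Sum.elim_inr, ite_mul, zero_mul]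
    rw [Finset.sum_ite_eq' Finset.univ i, Finset.sum_ite_eq' Finset.univ k, if_pos (Finset.mem_univ _),
      if_pos (Finset.mem_univ _), neg_mul, of_comm (by simp)]
    exact add_neg_cancel _
  · intro c hc
    rw [mem_RM, Fintype.sum_sum_type] at hc
    simp only [Sum.elim_inl, Sum.elim_inr] at hc
    have h1 := congrArg (mp (MonoidHom.fst F Q)) hc
    rw [map_add, map_sum, map_sum, map_zero] at h1
    simp only [map_mul, mp_of_sub, MonoidHom.coe_fst, map_one, sub_self, mul_zero,
      Finset.sum_const_zero, add_zero] at h1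
    have h2 : (fun i => mp (MonoidHom.fst F Q) (c (Sum.inl i))) ∈ RM u := mem_RM.2 h1
    rw [hu, Submodule.mem_bot] at h2
    have h3 : ∀ i, ∃ b : K → ZG (F × Q), c (Sum.inl i) =
        ∑ k, b k * (MonoidAlgebra.of ℤ (F × Q) (1, w k) - 1) := by
      intro i
      apply mem_IL_range (x := fun k => ((1, w k) : F × Q))
      have h4 := mem_IL_ker (MonoidHom.fst F Q) (c (Sum.inl i)) (congrFun h2 i)
      refine Pool.Agent.W490.DU.IL_le ℤ ?_ h4
      intro g hg
      have hg1 : g.1 = 1 := hg
      have hg2 : g = MonoidHom.inr F Q g.2 := Prod.ext hg1 rfl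
      have hg3 : Subgroup.closure (Set.range fun k => ((1, w k) : F × Q)) =
          (⊤ : Subgroup Q).map (MonoidHom.inr F Q) := by
        rw [← hw, MonoidHom.map_closure, ← Set.range_comp]
        rfl
      change g ∈ Subgroup.closure _
      rw [hg3, hg2]
      exact Subgroup.mem_map_of_mem _ (Subgroup.mem_top _)
    choose b hb using h3
    refine ⟨fun j => b j.1 j.2, fun i => ?_⟩
    rw [hb i, Fintype.sum_prod_type]
    simp only [Sum.elim_inl, mul_ite, mul_zero]
    rw [Finset.sum_eq_single i]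
    · simp
    · intro j _ hj
      simp [Ne.symm hj]
    · simp

end prod

section hnn

variable {H I J : Type} [Group H] [Fintype I] [Fintype J]

/-- relation modules of HNN extensions whose stable letter centralises a finitely generated
subgroup -/
theorem hnn_fg (Γ : Subgroup H) (y : I → H) (hy : Subgroup.closure (Set.range y) = ⊤)
    (hyf : (RM y).FG) (g : J → H) (hg : Subgroup.closure (Set.range g) = Γ) :
    (RM (Sum.elim (fun _ : Unit => (HNNExtension.t : HNNExtension H Γ Γ (MulEquiv.refl _)))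
      (fun i => (HNNExtension.of (y i) : HNNExtension H Γ Γ (MulEquiv.refl _))))).FG := by
  classical
  let G := HNNExtension H Γ Γ (MulEquiv.refl _)
  let of' : H →* G := HNNExtension.of
  have hcj : ∀ j, ∃ b : I → ZG H, MonoidAlgebra.of ℤ H (g j) - 1 =
      ∑ i, b i * (MonoidAlgebra.of ℤ H (y i) - 1) := by
    intro j
    apply mem_IL_range
    apply Pool.Agent.W490.DU.of_sub_mem_IL
    rw [hy]
    exact Subgroup.mem_top _
  choose b hb using hcj
  have hgΓ : ∀ j, g j ∈ Γ := fun j => by
    rw [← hg]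
    exact Subgroup.subset_closure ⟨j, rfl⟩
  refine RM_sum_fg (J := J) _ (RM_bc_fg of' (HNNExtension.of_injective (MulEquiv.refl Γ)) y hyf)
    (fun j => Sum.elim
      (fun _ => MonoidAlgebra.of ℤ G (of' (g j)) - 1)
      (fun i => -((MonoidAlgebra.of ℤ G HNNExtension.t - 1) * mp of' (b j i)))) ?_ ?_
  · intro j
    rw [mem_RM, Fintype.sum_sum_type]
    simp only [Sum.elim_inl, Sum.elim_inr, Finset.univ_unique, Finset.sum_singleton]
    have h1 : ∑ i, -((MonoidAlgebra.of ℤ G HNNExtension.t - 1) * mp of' (b j i)) *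
        (MonoidAlgebra.of ℤ G (of' (y i)) - 1) =
        -((MonoidAlgebra.of ℤ G HNNExtension.t - 1) * (MonoidAlgebra.of ℤ G (of' (g j)) - 1)) := by
      rw [← mp_of_sub, hb j, map_sum, Finset.mul_sum, ← Finset.sum_neg_distrib]
      refine Finset.sum_congr rfl fun i _ => ?_
      rw [map_mul, mp_of_sub, neg_mul, mul_assoc]
    change (MonoidAlgebra.of ℤ G (of' (g j)) - 1) * (MonoidAlgebra.of ℤ G HNNExtension.t - 1) +
      ∑ i, -((MonoidAlgebra.of ℤ G HNNExtension.t - 1) * mp of' (b j i)) *
        (MonoidAlgebra.of ℤ G (of' (y i)) - 1) = 0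
    rw [h1, of_comm (a := of' (g j))]
    · exact add_neg_cancel _
    · exact (HNNExtension.t_mul_of (φ := MulEquiv.refl Γ) ⟨g j, hgΓ j⟩).symm
  · intro c hc
    rw [mem_RM, Fintype.sum_sum_type] at hc
    simp only [Sum.elim_inl, Sum.elim_inr, Finset.univ_unique, Finset.sum_singleton] at hc
    have h1 : c (Sum.inl ()) * (MonoidAlgebra.of ℤ G HNNExtension.t - 1) ∈
        IL ℤ (Set.range of') := by
      have h2 : c (Sum.inl ()) * (MonoidAlgebra.of ℤ G HNNExtension.t - 1) =
          - ∑ i, c (Sum.inr i) * (MonoidAlgebra.of ℤ G (of' (y i)) - 1) :=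
        eq_neg_of_add_eq_zero_left hc
      rw [h2]
      refine Submodule.neg_mem _ (Submodule.sum_mem _ fun i _ => ?_)
      exact Submodule.smul_mem _ _ (Submodule.subset_span ⟨_, ⟨y i, rfl⟩, rfl⟩)
    have h3 := Pool.Agent.W335.DU.HN.th ℤ H Γ Γ (MulEquiv.refl _) _ h1
    have h4 : c (Sum.inl ()) ∈ IL ℤ (Set.range fun j => of' (g j)) := by
      refine Pool.Agent.W490.DU.IL_le ℤ ?_ h3
      rintro _ ⟨a, ha, rfl⟩
      have ha' : a ∈ Subgroup.closure (Set.range g) := by
        rw [hg]
        exact ha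
      have h5 : Subgroup.closure (Set.range fun j => of' (g j)) =
          (Subgroup.closure (Set.range g)).map of' := by
        rw [MonoidHom.map_closure, ← Set.range_comp]
        rfl
      rw [h5]
      exact ⟨a, ha', rfl⟩
    obtain ⟨d, hd⟩ := mem_IL_range h4
    exact ⟨d, fun _ => hd⟩

end hnn

section g1

variable {V Q : Type} [Fintype V] [Group Q] (π : FreeGroup V →* Q)

omit [Fintype V] in
theorem clo_free : Subgroup.closure (Set.range (FreeGroup.of : V → FreeGroup V)) = ⊤ :=
  FreeGroup.closure_range_of V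

/-- the generators of `F × Q` -/
def yy : V ⊕ V → FreeGroup V × Q :=
  Sum.elim (fun v => (FreeGroup.of v, 1)) (fun v => (1, π (FreeGroup.of v)))

theorem clo_pi (hπ : Function.Surjective π) :
    Subgroup.closure (Set.range fun v => π (FreeGroup.of v)) = ⊤ := by
  have : Subgroup.closure (Set.range fun v => π (FreeGroup.of v)) =
      (⊤ : Subgroup (FreeGroup V)).map π := by
    rw [← clo_free, MonoidHom.map_closure, ← Set.range_comp]
    rfl
  rw [this, ← MonoidHom.range_eq_map, MonoidHom.range_eq_top.2 hπ]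

theorem clo_yy (hπ : Function.Surjective π) : Subgroup.closure (Set.range (yy π)) = ⊤ := by
  rw [eq_top_iff]
  rintro ⟨f, q⟩ -
  have h1 : ((f, 1) : FreeGroup V × Q) ∈ Subgroup.closure (Set.range (yy π)) := by
    have : (⊤ : Subgroup (FreeGroup V)).map (MonoidHom.inl (FreeGroup V) Q) ≤
        Subgroup.closure (Set.range (yy π)) := by
      rw [← clo_free, MonoidHom.map_closure, ← Set.range_comp]
      refine Subgroup.closure_mono ?_
      rintro _ ⟨v, rfl⟩
      exact ⟨Sum.inl v, rfl⟩
    exact this ⟨f, Subgroup.mem_top _, rfl⟩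
  have h2 : ((1, q) : FreeGroup V × Q) ∈ Subgroup.closure (Set.range (yy π)) := by
    have : (⊤ : Subgroup Q).map (MonoidHom.inr (FreeGroup V) Q) ≤
        Subgroup.closure (Set.range (yy π)) := by
      rw [← clo_pi π hπ, MonoidHom.map_closure, ← Set.range_comp]
      refine Subgroup.closure_mono ?_
      rintro _ ⟨v, rfl⟩
      exact ⟨Sum.inr v, rfl⟩
    exact this ⟨q, Subgroup.mem_top _, rfl⟩
  have h3 := Subgroup.mul_mem _ h1 h2
  simpa using h3

theorem clo_Gam : Subgroup.closure
    (Set.range fun v : V => ((FreeGroup.of v, π (FreeGroup.of v)) : FreeGroup V × Q)) = Gam π := by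
  unfold Gam
  rw [MonoidHom.range_eq_map, ← clo_free, MonoidHom.map_closure, ← Set.range_comp]
  rfl

/-- the generators of `G₁` -/
def xx : Unit ⊕ (V ⊕ V) → G1 π :=
  Sum.elim (fun _ => HNNExtension.t) (fun i => HNNExtension.of (yy π i))

theorem clo_xx (hπ : Function.Surjective π) : Subgroup.closure (Set.range (xx π)) = ⊤ := by
  rw [eq_top_iff]
  intro g _
  have h1 : ∀ h : FreeGroup V × Q, (HNNExtension.of h : G1 π) ∈ Subgroup.closure (Set.range (xx π)) := by
    intro h
    have : (⊤ : Subgroup (FreeGroup V × Q)).map (HNNExtension.of : _ →* G1 π) ≤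
        Subgroup.closure (Set.range (xx π)) := by
      rw [← clo_yy π hπ, MonoidHom.map_closure, ← Set.range_comp]
      refine Subgroup.closure_mono ?_
      rintro _ ⟨v, rfl⟩
      exact ⟨Sum.inr v, rfl⟩
    exact this ⟨h, Subgroup.mem_top _, rfl⟩
  refine HNNExtension.induction_on g h1 (Subgroup.subset_closure ⟨Sum.inl (), rfl⟩)
    (fun a b ha hb => Subgroup.mul_mem _ ha hb) (fun a ha => Subgroup.inv_mem _ ha)

theorem g1fp (h1 : PropM1) (h2 : PropM2) : PropG1FP := by
  intro V Q _ _ π hπ hQ
  refine h2 (G1 π) (Unit ⊕ (V ⊕ V)) (xx π) (clo_xx π hπ) ?_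
  have hw := h1 Q V (fun v => π (FreeGroup.of v)) (clo_pi π hπ) hQ
  have hy := prod_fg (fun v : V => FreeGroup.of v) (fun v => π (FreeGroup.of v)) (free V)
    (clo_pi π hπ) hw
  exact hnn_fg (Gam π) (yy π) (clo_yy π hπ) hy _ (clo_Gam π)

theorem g1ker : PropG1KER := by
  classical
  intro V Q _ _ π hπ
  let of' : FreeGroup V × Q →* G1 π := HNNExtension.of
  let t : G1 π := HNNExtension.t
  let X : Finset (G1 π) := insert t (Finset.univ.image fun v : V => of' (FreeGroup.of v, 1))
  have hXt : t ∈ Subgroup.closure (X : Set (G1 π)) :=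
    Subgroup.subset_closure (Finset.mem_coe.2 (Finset.mem_insert_self _ _))
  have hXf : ∀ f, of' (f, 1) ∈ Subgroup.closure (X : Set (G1 π)) := by
    intro f
    have : (⊤ : Subgroup (FreeGroup V)).map (of'.comp (MonoidHom.inl (FreeGroup V) Q)) ≤
        Subgroup.closure (X : Set (G1 π)) := by
      rw [← clo_free, MonoidHom.map_closure, ← Set.range_comp]
      refine Subgroup.closure_mono ?_
      rintro _ ⟨v, rfl⟩
      exact Finset.mem_coe.2 (Finset.mem_insert_of_mem (Finset.mem_image.2 ⟨v, Finset.mem_univ _, rfl⟩))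
    exact this ⟨f, Subgroup.mem_top _, rfl⟩
  have hp : ∀ h : FreeGroup V × Q, pi1 π (of' h) = h.2 := fun h => HNNExtension.lift_of _ _ _ h
  have hpt : pi1 π t = 1 := HNNExtension.lift_t _ _ _
  have hle : Subgroup.closure (X : Set (G1 π)) ≤ (pi1 π).ker := by
    rw [Subgroup.closure_le]
    intro x hx
    rcases Finset.mem_insert.1 (Finset.mem_coe.1 hx) with rfl | hx
    · exact hpt
    · obtain ⟨v, _, rfl⟩ := Finset.mem_image.1 hx
      exact hp _
  have hconj : ∀ q : Q, ∀ k ∈ Subgroup.closure (X : Set (G1 π)),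
      of' (1, q) * k * (of' (1, q))⁻¹ ∈ Subgroup.closure (X : Set (G1 π)) := by
    intro q k hk
    have h1 : (Subgroup.closure (X : Set (G1 π))).map (MulAut.conj (of' (1, q))).toMonoidHom ≤
        Subgroup.closure (X : Set (G1 π)) := by
      rw [MonoidHom.map_closure, Subgroup.closure_le]
      rintro _ ⟨x, hx, rfl⟩
      change of' (1, q) * x * (of' (1, q))⁻¹ ∈ Subgroup.closure (X : Set (G1 π))
      rcases Finset.mem_insert.1 (Finset.mem_coe.1 hx) with rfl | hx
      · obtain ⟨f, rfl⟩ := hπ q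
        have h2 : of' (1, π f) = (of' (f, 1))⁻¹ * of' (f, π f) := by
          rw [← map_inv, ← map_mul]
          congr 1
          ext <;> simp
        have h3 : t * of' (f, π f) = of' (f, π f) * t :=
          HNNExtension.t_mul_of (φ := MulEquiv.refl (Gam π)) ⟨(f, π f), ⟨f, rfl⟩⟩
        have h4 : of' (1, π f) * t * (of' (1, π f))⁻¹ = (of' (f, 1))⁻¹ * t * of' (f, 1) := by
          rw [h2, mul_inv_rev, inv_inv]
          calc (of' (f, 1))⁻¹ * of' (f, π f) * t * ((of' (f, π f))⁻¹ * of' (f, 1))
              = (of' (f, 1))⁻¹ * (of' (f, π f) * t) * (of' (f, π f))⁻¹ * of' (f, 1) := by group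
            _ = _ := by rw [← h3]; group
        rw [h4]
        exact Subgroup.mul_mem _ (Subgroup.mul_mem _ (Subgroup.inv_mem _ (hXf f)) hXt) (hXf f)
      · obtain ⟨v, _, rfl⟩ := Finset.mem_image.1 hx
        have h5 : of' (1, q) * of' (FreeGroup.of v, 1) * (of' (1, q))⁻¹ = of' (FreeGroup.of v, 1) := by
          rw [← map_inv, ← map_mul, ← map_mul]
          congr 1
          ext <;> simp
        rw [h5]
        exact hXf _
    exact h1 ⟨k, hk, rfl⟩
  have hall : ∀ g : G1 π, ∃ k ∈ Subgroup.closure (X : Set (G1 π)), ∃ q : Q, g = k * of' (1, q) := by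
    intro g
    refine HNNExtension.induction_on g ?_ ?_ ?_ ?_
    · rintro ⟨f, q⟩
      refine ⟨of' (f, 1), hXf f, q, ?_⟩
      rw [← map_mul]
      change of' (f, q) = _
      congr 1
      ext <;> simp
    · refine ⟨t, hXt, 1, ?_⟩
      have : ((1, 1) : FreeGroup V × Q) = 1 := rfl
      rw [this, map_one, mul_one]
    · rintro a b ⟨k, hk, q, rfl⟩ ⟨k', hk', q', rfl⟩
      refine ⟨k * (of' (1, q) * k' * (of' (1, q))⁻¹), Subgroup.mul_mem _ hk (hconj q k' hk'),
        q * q', ?_⟩
      have : of' (1, q * q') = of' (1, q) * of' (1, q') := by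
        rw [← map_mul]
        congr 1
      rw [this]
      group
    · rintro a ⟨k, hk, q, rfl⟩
      refine ⟨of' (1, q⁻¹) * k⁻¹ * (of' (1, q⁻¹))⁻¹, hconj _ _ (Subgroup.inv_mem _ hk), q⁻¹, ?_⟩
      have : of' (1, q⁻¹) = (of' (1, q))⁻¹ := by
        rw [← map_inv]
        congr 1
      rw [this]
      group
  have heq : Subgroup.closure (X : Set (G1 π)) = (pi1 π).ker := by
    refine le_antisymm hle ?_
    intro g hg
    obtain ⟨k, hk, q, rfl⟩ := hall g
    rw [MonoidHom.mem_ker, map_mul, hle hk, one_mul, hp] at hg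
    change q = 1 at hg
    rw [hg]
    have : ((1, 1) : FreeGroup V × Q) = 1 := rfl
    rw [this, map_one, mul_one]
    exact hk
  rw [Group.fg_iff_subgroup_fg]
  exact ⟨X, heq⟩

end g1

end Pool.Agent.V1194.HC
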