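import Pool.Agent.V1194.HC.QC
import Pool.Agent.V1194.HC.GEN
import Pool.Agent.V1194.HC.G1

/-!
# The Bestvina-Brady group is of type `FP₃`
-/

set_option autoImplicit false
set_option linter.unusedSectionVars false

namespace Pool.Agent.V1194.HC

open Pool.Agent.W326.DU Pool.Agent.Y66.HC

section bb

variable {V : Type} (ad : V → V → Prop)

/-- the inclusion of the group ring of the Bestvina-Brady group -/
noncomputable abbrev im : ZG (BB ad) →+* ZG (RAAG ad) := mp (BB ad).subtype

theorem sub_inj : Function.Injective (BB ad).subtype := Subtype.val_injective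

theorem im_inj : Function.Injective (im ad) := by
  intro x y h
  apply MonoidAlgebra.ext
  have h1 := congrArg (fun z : ZG (RAAG ad) => z.coeff) h
  simp only [im, mp, MonoidAlgebra.mapDomainRingHom_apply, MonoidAlgebra.coeff_mapDomain] at h1
  exact Finsupp.mapDomain_injective (sub_inj ad) h1

theorem im_coeff (x : ZG (BB ad)) (g : RAAG ad) (h : (im ad x).coeff g ≠ 0) : ht ad g = 0 := by
  by_contra hne
  apply h
  simp only [im, mp, MonoidAlgebra.mapDomainRingHom_apply, MonoidAlgebra.coeff_mapDomain]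
  rw [Finsupp.mapDomain_of_notMem_range]
  rintro ⟨b, rfl⟩
  apply hne
  have : hgt ad (b : RAAG ad) = 1 := b.2
  unfold ht
  change Multiplicative.toAdd (hgt ad (b : RAAG ad)) = 0
  rw [this]
  rfl

/-- the inverse on the degree zero part -/
noncomputable def re : ZG (RAAG ad) →+ ZG (BB ad) :=
  Pool.Agent.W571.DU.BC.pi ℤ (BB ad).subtype (sub_inj ad) 1

theorem im_re (x : ZG (RAAG ad)) (h : P ad {i | i ≠ 0} x = 0) : im ad (re ad x) = x := by
  classical
  have h1 : ∀ a, (MonoidAlgebra.of ℤ (RAAG ad) 1 * im ad (re ad x)).coeff a =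
      if (1 : RAAG ad)⁻¹ * a ∈ (BB ad).subtype.range then x.coeff a else 0 :=
    fun a => Pool.Agent.W571.DU.BC.coeff_term ℤ (BB ad).subtype (sub_inj ad) 1 a x
  apply MonoidAlgebra.ext
  ext a
  have h2 := h1 a
  rw [map_one, one_mul] at h2
  rw [h2]
  split_ifs with h3
  · rfl
  · by_contra hne
    apply h3
    have h4 := (P_zero ad _ _).1 h a (Ne.symm hne)
    have h5 : ht ad a = 0 := by
      by_contra h6
      exact h4 h6
    rw [inv_one, one_mul]
    refine ⟨⟨a, ?_⟩, rfl⟩
    rw [MonoidHom.mem_ker]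
    unfold ht at h5
    exact Multiplicative.toAdd.injective h5

theorem P_im (x : ZG (BB ad)) (g : RAAG ad) (k : ℤ) (hg : ht ad g = k) :
    P ad {i | i ≠ k} (im ad x * MonoidAlgebra.of ℤ _ g) = 0 := by
  rw [P_mul, hg]
  have : P ad {i : ℤ | i + k ∈ {i : ℤ | i ≠ k}} (im ad x) = 0 := by
    rw [P_zero]
    intro a ha hcon
    rw [Set.mem_ofPred_eq, Set.mem_ofPred_eq, im_coeff ad x a ha] at hcon
    simp at hcon
  rw [this, zero_mul]

/-- `v₀⁻² a v₀` -/
def ka (v₀ a : V) : BB ad :=
  ⟨(gen ad v₀)⁻¹ * (gen ad v₀)⁻¹ * gen ad a * gen ad v₀, by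
    rw [MonoidHom.mem_ker, map_mul, map_mul, map_mul, map_inv, hgt_gen, hgt_gen]; simp⟩

end bb

section main

variable {V : Type} [Fintype V] {ad : V → V → Prop} (hsymm : ∀ a b, ad a b → ad b a)
  (hirr : ∀ a, ¬ ad a a)
  (hk4 : ∀ a b c d, ad a b → ad a c → ad a d → ad b c → ad b d → ¬ ad c d)
  (hac : Acyc ad)

/-- the differential -/
noncomputable def dz (ad : V → V → Prop) (v₀ : V) (z : V → V → V → ZG (BB ad)) (v : V) :
    ZG (BB ad) :=
  ∑ a, (∑ c, z c a v) * MonoidAlgebra.of ℤ (BB ad) (ka ad v₀ a)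

/-- the corresponding chain over the RAAG -/
noncomputable def up (ad : V → V → Prop) (v₀ : V) (z : V → V → V → ZG (BB ad)) (a b c : V) :
    ZG (RAAG ad) :=
  im ad (z a b c) * MonoidAlgebra.of ℤ (RAAG ad) ((gen ad v₀)⁻¹ * (gen ad v₀)⁻¹)

theorem up_alt (v₀ : V) {z : V → V → V → ZG (BB ad)} (hz : IsAlt3 ad Set.univ z) :
    IsAlt3 ad Set.univ (up ad v₀ z) := by
  refine ⟨?_, ?_, ?_⟩
  · intro a b c
    unfold up
    rw [hz.1 a b c, map_neg, neg_mul]
  · intro a b c
    unfold up
    rw [hz.2.1 a b c, map_neg, neg_mul]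
  · intro a b c h
    unfold up
    rw [hz.2.2 a b c h, map_zero, zero_mul]

theorem dz_up (v₀ : V) (z : V → V → V → ZG (BB ad)) (v : V) :
    im ad (dz ad v₀ z v) =
      T2 ad (L3 ad (up ad v₀ z)) v * MonoidAlgebra.of ℤ (RAAG ad) (gen ad v₀) := by
  unfold dz T2 L3 up
  rw [map_sum, Finset.sum_mul]
  refine Finset.sum_congr rfl fun a _ => ?_
  rw [map_mul, map_sum, gm_apply, ← Finset.sum_mul]
  rw [mul_assoc, mul_assoc, ← map_mul, ← map_mul]
  congr 1
  exact mp_of _ _

theorem LTL (z : V → V → V → ZG (RAAG ad)) (hz : IsAlt3 ad Set.univ z) :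
    ∑ v, T2 ad (L3 ad z) v = 0 := by
  unfold T2
  rw [Finset.sum_comm]
  refine Finset.sum_eq_zero fun a _ => ?_
  rw [← map_sum]
  have : ∑ v, L3 ad z a v = 0 := by
    apply double_zero
    unfold L3
    rw [← Finset.sum_neg_distrib]
    conv_rhs =>
      enter [2, a]
      rw [← Finset.sum_neg_distrib]
    conv_lhs => rw [Finset.sum_comm]
    refine Finset.sum_congr rfl fun c _ => Finset.sum_congr rfl fun v _ => ?_
    rw [hz.1 c a v, hz.2.1 a c v, neg_neg, hz.1 a v c]
  rw [this, map_zero]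

theorem TT (y : V → V → ZG (RAAG ad)) (hy : IsAlt2 ad Set.univ y) :
    ∑ v, gm ad v (T2 ad y v) = 0 := by
  apply double_zero
  unfold T2
  simp only [map_sum]
  rw [← Finset.sum_neg_distrib]
  conv_rhs =>
    enter [2, a]
    rw [← Finset.sum_neg_distrib]
  conv_lhs => rw [Finset.sum_comm]
  refine Finset.sum_congr rfl fun a _ => Finset.sum_congr rfl fun b _ => ?_
  rw [gm_apply, gm_apply, gm_apply, gm_apply, mul_assoc, mul_assoc, ← map_mul, ← map_mul]
  by_cases hab : ad a b
  · rw [gcomm hab, hy.1 a b, neg_mul]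
  · rw [hy.2 a b fun h => hab h.2.2, hy.1 b a, hy.2 a b fun h => hab h.2.2, neg_zero, zero_mul,
      zero_mul, neg_zero]

include hsymm hirr hk4 hac in
theorem dz_exact (v₀ : V) (c : V → ZG (BB ad)) (hc : fox (xg ad v₀) c = 0) :
    ∃ z : V → V → V → ZG (BB ad), IsAlt3 ad Set.univ z ∧ ∀ v, v ≠ v₀ → c v = dz ad v₀ z v := by
  classical
  let g0 : RAAG ad := gen ad v₀
  let S : ZG (RAAG ad) := ∑ v, im ad (c v) * MonoidAlgebra.of ℤ _ g0⁻¹
  let x : V → ZG (RAAG ad) := fun v => im ad (c v) * MonoidAlgebra.of ℤ _ g0⁻¹ -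
    if v = v₀ then S else 0
  have hht : ht ad g0⁻¹ = -2 + 1 := by
    rw [ht_inv, ht_gen]
    norm_num
  have hx : ∀ b, P ad {i | i ≠ -2 + 1} (x b) = 0 := by
    intro b
    have h1 : ∀ v, P ad {i | i ≠ -2 + 1} (im ad (c v) * MonoidAlgebra.of ℤ _ g0⁻¹) = 0 :=
      fun v => P_im ad _ _ _ hht
    change P ad {i | i ≠ -2 + 1} (im ad (c b) * MonoidAlgebra.of ℤ _ g0⁻¹ -
      if b = v₀ then S else 0) = 0
    rw [map_sub, h1, zero_sub, neg_eq_zero]
    split_ifs
    · change P ad _ (∑ v, im ad (c v) * MonoidAlgebra.of ℤ _ g0⁻¹) = 0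
      rw [map_sum]
      exact Finset.sum_eq_zero fun v _ => h1 v
    · exact map_zero _
  have hL : ∑ b, x b = 0 := by
    change ∑ b, (im ad (c b) * MonoidAlgebra.of ℤ _ g0⁻¹ - if b = v₀ then S else 0) = 0
    rw [Finset.sum_sub_distrib, Finset.sum_ite_eq' Finset.univ v₀, if_pos (Finset.mem_univ _)]
    exact sub_self _
  have hT : ∑ b, gm ad b (x b) = 0 := by
    have h1 : ∀ b, gm ad b (x b) =
        im ad (c b * MonoidAlgebra.of ℤ _ (xg ad v₀ b)) -
          if b = v₀ then S * MonoidAlgebra.of ℤ _ g0 else 0 := by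
      intro b
      change gm ad b (im ad (c b) * MonoidAlgebra.of ℤ _ g0⁻¹ - if b = v₀ then S else 0) = _
      rw [map_sub, gm_apply, map_mul (im ad), mul_assoc, ← map_mul]
      congr 1
      · congr 1
        exact (mp_of (BB ad).subtype (xg ad v₀ b)).symm
      · split_ifs with h
        · rw [h]
          rfl
        · exact map_zero _
    simp only [h1]
    rw [Finset.sum_sub_distrib, Finset.sum_ite_eq' Finset.univ v₀, if_pos (Finset.mem_univ _)]
    have h2 : S * MonoidAlgebra.of ℤ _ g0 = ∑ v, im ad (c v) := by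
      change (∑ v, im ad (c v) * MonoidAlgebra.of ℤ _ g0⁻¹) * MonoidAlgebra.of ℤ _ g0 = _
      rw [Finset.sum_mul]
      refine Finset.sum_congr rfl fun v _ => ?_
      rw [mul_assoc, ← map_mul, inv_mul_cancel, map_one, mul_one]
    rw [h2, ← Finset.sum_sub_distrib]
    have h3 := congrArg (im ad) hc
    rw [fox_apply, map_sum, map_zero] at h3
    rw [← h3]
    refine Finset.sum_congr rfl fun v _ => ?_
    rw [mul_sub, mul_one, map_sub]
  obtain ⟨z, hz, hzk, hxz⟩ := E1 hsymm hirr hk4 hac (-2) x hx hL hT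
  let z' : V → V → V → ZG (BB ad) := fun a b c => re ad (z a b c * MonoidAlgebra.of ℤ _ (g0 * g0))
  have hup : ∀ a b c, up ad v₀ z' a b c = z a b c := by
    intro a b c
    unfold up
    change im ad (re ad (z a b c * MonoidAlgebra.of ℤ _ (g0 * g0))) *
      MonoidAlgebra.of ℤ (RAAG ad) (g0⁻¹ * g0⁻¹) = z a b c
    rw [im_re]
    · rw [mul_assoc, ← map_mul]
      have : g0 * g0 * (g0⁻¹ * g0⁻¹) = 1 := by group
      rw [this, map_one, mul_one]
    · rw [P_mul]
      have h4 : P ad {i | i + ht ad (g0 * g0) ∈ {i : ℤ | i ≠ 0}} (z a b c) = 0 := by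
        refine P_anti ad ?_ (hzk a b c)
        intro i hi
        have h5 : ht ad (g0 * g0) = 2 := by
          rw [ht_mul, ht_gen]
          norm_num
        simp only [Set.mem_ofPred_eq, h5] at hi ⊢
        omega
      rw [h4, zero_mul]
  refine ⟨z', ⟨?_, ?_, ?_⟩, ?_⟩
  · intro a b c
    change re ad (z a b c * _) = - re ad (z b a c * _)
    rw [hz.1 a b c, neg_mul, map_neg]
  · intro a b c
    change re ad (z a b c * _) = - re ad (z a c b * _)
    rw [hz.2.1 a b c, neg_mul, map_neg]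
  · intro a b c h
    change re ad (z a b c * _) = 0
    rw [hz.2.2 a b c h, zero_mul, map_zero]
  · intro v hv
    apply im_inj ad
    rw [dz_up]
    have h6 : up ad v₀ z' = z := by
      funext a b c
      exact hup a b c
    rw [h6, ← hxz v]
    change _ = (im ad (c v) * MonoidAlgebra.of ℤ _ g0⁻¹ - if v = v₀ then S else 0) *
      MonoidAlgebra.of ℤ (RAAG ad) g0
    rw [if_neg hv, sub_zero, mul_assoc, ← map_mul, inv_mul_cancel, map_one, mul_one]

theorem dz_cycle (v₀ : V) (z : V → V → V → ZG (BB ad)) (hz : IsAlt3 ad Set.univ z) :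
    fox (xg ad v₀) (dz ad v₀ z) = 0 := by
  apply im_inj ad
  rw [fox_apply, map_sum, map_zero]
  let g0 : RAAG ad := gen ad v₀
  let x : V → ZG (RAAG ad) := T2 ad (L3 ad (up ad v₀ z))
  have h1 : ∀ v, im ad (dz ad v₀ z v * (MonoidAlgebra.of ℤ _ (xg ad v₀ v) - 1)) =
      gm ad v (x v) - x v * MonoidAlgebra.of ℤ _ g0 := by
    intro v
    rw [map_mul, dz_up, mp_of_sub]
    change x v * MonoidAlgebra.of ℤ (RAAG ad) g0 *
      (MonoidAlgebra.of ℤ (RAAG ad) (g0⁻¹ * gen ad v) - 1) = _
    rw [mul_sub, mul_one, mul_assoc, ← map_mul, mul_inv_cancel_left]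
    rfl
  simp only [h1]
  rw [Finset.sum_sub_distrib, ← Finset.sum_mul, LTL _ (up_alt v₀ hz), zero_mul, sub_zero]
  exact TT _ (alt2_L3 ad (up_alt v₀ hz))

include hsymm hirr hk4 hac in
theorem dz_inj (v₀ : V) (z : V → V → V → ZG (BB ad)) (hz : IsAlt3 ad Set.univ z)
    (h : ∀ v, v ≠ v₀ → dz ad v₀ z v = 0) : ∀ a b c, z a b c = 0 := by
  classical
  have h1 : ∀ v, v ≠ v₀ → T2 ad (L3 ad (up ad v₀ z)) v = 0 := by
    intro v hv
    have h2 := dz_up v₀ z v
    rw [h v hv, map_zero] at h2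
    have h3 := congrArg (fun y => y * MonoidAlgebra.of ℤ (RAAG ad) (gen ad v₀)⁻¹) h2
    simp only [zero_mul] at h3
    rw [mul_assoc, ← map_mul, mul_inv_cancel, map_one, mul_one] at h3
    exact h3.symm
  have h4 : ∀ v, T2 ad (L3 ad (up ad v₀ z)) v = 0 := by
    intro v
    by_cases hv : v = v₀
    · have h5 := LTL _ (up_alt v₀ hz)
      rw [Finset.sum_eq_single v₀ (fun b _ hb => h1 b hb)
        (fun hcon => absurd (Finset.mem_univ _) hcon)] at h5
      rw [hv]
      exact h5
    · exact h1 v hv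
  have h6 := E2 hsymm hirr hk4 hac (-2) _ (up_alt v₀ hz) (by
    intro a b c
    unfold up
    refine P_im ad _ _ _ ?_
    rw [ht_mul, ht_inv, ht_gen]
    norm_num) h4
  intro a b c
  have h7 := h6 a b c
  unfold up at h7
  have h8 := congrArg (fun y => y * MonoidAlgebra.of ℤ (RAAG ad) (gen ad v₀ * gen ad v₀)) h7
  simp only [zero_mul] at h8
  have h9 : (gen ad v₀)⁻¹ * (gen ad v₀)⁻¹ * (gen ad v₀ * gen ad v₀) = 1 := by group
  rw [mul_assoc, ← map_mul, h9, map_one, mul_one] at h8
  apply im_inj ad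
  rw [h8, map_zero]

theorem dz_add (v₀ : V) (z z' : V → V → V → ZG (BB ad)) (v : V) :
    dz ad v₀ (fun a b c => z a b c + z' a b c) v = dz ad v₀ z v + dz ad v₀ z' v := by
  unfold dz
  simp only [Finset.sum_add_distrib, add_mul]

theorem dz_smul (v₀ : V) (r : ZG (BB ad)) (z : V → V → V → ZG (BB ad)) (v : V) :
    dz ad v₀ (fun a b c => r • z a b c) v = r • dz ad v₀ z v := by
  unfold dz
  simp only [← Finset.smul_sum, smul_mul_assoc]

open Classical in
/-- the differential as a linear map -/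
noncomputable def dl (ad : V → V → Prop) (v₀ : V) {n : ℕ} (e : V → Fin n) :
    (({t // Tri ad e t} → ZG (BB ad)) × ZG (BB ad)) →ₗ[ZG (BB ad)] (V → ZG (BB ad)) where
  toFun p v := dz ad v₀ (al ad e p.1) v + if v = v₀ then p.2 else 0
  map_add' p q := by
    funext v
    have h1 : dz ad v₀ (al ad e (p + q).1) v =
        dz ad v₀ (al ad e p.1) v + dz ad v₀ (al ad e q.1) v := by
      rw [← dz_add]
      congr 1
      funext a b c
      exact al_add ad e _ _ a b c
    rw [Pi.add_apply, h1]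
    split_ifs
    · rw [Prod.snd_add]
      abel
    · abel
  map_smul' r p := by
    funext v
    have h1 : dz ad v₀ (al ad e (r • p).1) v = r • dz ad v₀ (al ad e p.1) v := by
      rw [← dz_smul]
      congr 1
      funext a b c
      exact al_smul ad e r _ a b c
    rw [Pi.smul_apply, h1, RingHom.id_apply, smul_add]
    split_ifs
    · rfl
    · rw [smul_zero]

end main

theorem clo_xg {V : Type} (ad : V → V → Prop) (v₀ : V)
    (h : Function.Surjective (piF ad v₀)) : Subgroup.closure (Set.range (xg ad v₀)) = ⊤ := by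
  have h1 : Subgroup.closure (Set.range (xg ad v₀)) = (⊤ : Subgroup (FreeGroup V)).map (piF ad v₀) := by
    rw [← clo_free, MonoidHom.map_closure, ← Set.range_comp]
    congr 1
  rw [h1, ← MonoidHom.range_eq_map, MonoidHom.range_eq_top.2 h]

theorem qfp : PropQFP := by
  classical
  intro V J _ _ ad γ l p hg
  let v₀ : V := p 0
  let e : V → Fin (Fintype.card V) := Fintype.equivFin V
  have he : Function.Injective e := (Fintype.equivFin V).injective
  have : Finite {t // Tri ad e t} := inferInstance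
  have : Fintype {t // Tri ad e t} := Fintype.ofFinite _
  refine fp3 (BB ad) V (({t // Tri ad e t} → ZG (BB ad)) × ZG (BB ad)) (xg ad v₀)
    (clo_xg ad v₀ (GEN.th V J ad γ l p hg v₀)) (dl ad v₀ e) ?_ ?_
  · rw [← LinearMap.ker_eq_bot, LinearMap.ker_eq_bot']
    rintro ⟨w, r⟩ hw
    have h1 : ∀ v, dz ad v₀ (al ad e w) v + (if v = v₀ then r else 0) = 0 := fun v => congrFun hw v
    have h2 : ∀ v, v ≠ v₀ → dz ad v₀ (al ad e w) v = 0 := by
      intro v hv
      have := h1 v
      rwa [if_neg hv, add_zero] at this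
    have h3 := dz_inj hg.symm hg.irr hg.k4 hg.acyc v₀ _ (al_alt ad e hg.symm w) h2
    have h4 := al_inj ad e he hg.irr w h3
    have h5 := h1 v₀
    rw [if_pos rfl] at h5
    have h6 : dz ad v₀ (al ad e w) v₀ = 0 := by
      unfold dz
      simp [h3]
    rw [h6, zero_add] at h5
    rw [h4, h5]
    rfl
  · intro y
    constructor
    · intro hy
      obtain ⟨z, hz, hzy⟩ := dz_exact hg.symm hg.irr hg.k4 hg.acyc v₀ y hy
      let w : {t // Tri ad e t} → ZG (BB ad) := fun t => z t.1.1 t.1.2.1 t.1.2.2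
      have hw : al ad e w = z := by
        funext a b c
        exact al_surj ad e he hg.irr hg.symm z hz a b c
      refine ⟨(w, y v₀ - dz ad v₀ z v₀), ?_⟩
      funext v
      change dz ad v₀ (al ad e w) v + (if v = v₀ then y v₀ - dz ad v₀ z v₀ else 0) = y v
      rw [hw]
      by_cases hv : v = v₀
      · rw [if_pos hv, hv]
        abel
      · rw [if_neg hv, add_zero, hzy v hv]
    · rintro ⟨⟨w, r⟩, rfl⟩
      have h1 : dl ad v₀ e (w, r) = dz ad v₀ (al ad e w) + Pi.single v₀ r := by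
        funext v
        change dz ad v₀ (al ad e w) v + (if v = v₀ then r else 0) = _
        rw [Pi.add_apply]
        by_cases hv : v = v₀
        · rw [if_pos hv, hv, Pi.single_eq_same]
        · rw [if_neg hv, Pi.single_eq_of_ne hv]
      rw [h1, map_add, dz_cycle v₀ _ (al_alt ad e hg.symm w), zero_add, fox_apply]
      rw [Finset.sum_eq_single v₀]
      · rw [Pi.single_eq_same]
        have h2 : xg ad v₀ v₀ = 1 := Subtype.ext (inv_mul_cancel _)
        rw [h2, map_one, sub_self, mul_zero]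
      · intro b _ hb
        rw [Pi.single_eq_of_ne hb, zero_mul]
      · intro h
        exact absurd (Finset.mem_univ _) h

end Pool.Agent.V1194.HC
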