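import Pool.Agent.V1194.HC.Stm
import Pool.Agent.W304.DU.RG

/-!
# GEN: the elements `v₀⁻¹ v` generate the Bestvina-Brady group
-/

set_option autoImplicit false

namespace Pool.Agent.V1194.HC.Gen

open Pool.Agent.W326.DU Pool.Agent.Y66.HC

variable {V : Type} (ad : V → V → Prop)

/-- the subgroup generated by the `v₀⁻¹ v` -/
def Q0 (v₀ : V) : Subgroup (RAAG ad) :=
  Subgroup.closure (Set.range fun v => (gen ad v₀)⁻¹ * gen ad v)

variable {ad}

theorem gen_closure : Subgroup.closure (Set.range (gen ad)) = ⊤ :=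
  PresentedGroup.closure_range_of (rels ad)

theorem inv_mul_mem (v₀ a b : V) : (gen ad a)⁻¹ * gen ad b ∈ Q0 ad v₀ := by
  have ha : (gen ad v₀)⁻¹ * gen ad a ∈ Q0 ad v₀ := Subgroup.subset_closure ⟨a, rfl⟩
  have hb : (gen ad v₀)⁻¹ * gen ad b ∈ Q0 ad v₀ := Subgroup.subset_closure ⟨b, rfl⟩
  have h : (gen ad a)⁻¹ * gen ad b =
      ((gen ad v₀)⁻¹ * gen ad a)⁻¹ * ((gen ad v₀)⁻¹ * gen ad b) := by group
  rw [h]
  exact mul_mem (inv_mem ha) hb

theorem comm_mul_inv {a b : V} (h : ad a b) :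
    gen ad a * (gen ad b)⁻¹ = (gen ad b)⁻¹ * gen ad a := by
  rw [mul_inv_eq_iff_eq_mul, mul_assoc, Pool.Agent.W304.DU.RG.gen_comm ad a b h,
    inv_mul_cancel_left]

theorem mul_inv_mem (hc : ∀ a b, Relation.ReflTransGen ad a b) (v₀ a b : V) :
    gen ad a * (gen ad b)⁻¹ ∈ Q0 ad v₀ := by
  induction hc a b with
  | refl => rw [mul_inv_cancel]; exact one_mem _
  | @tail b c _ hbc ih =>
    have h : gen ad a * (gen ad c)⁻¹ =
        (gen ad a * (gen ad b)⁻¹) * (gen ad b * (gen ad c)⁻¹) := by group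
    rw [h, comm_mul_inv hbc]
    exact mul_mem ih (inv_mul_mem v₀ c b)

theorem conj_inv_mem (hc : ∀ a b, Relation.ReflTransGen ad a b) (v₀ v a b : V) :
    (gen ad v)⁻¹ * ((gen ad a)⁻¹ * gen ad b) * gen ad v ∈ Q0 ad v₀ := by
  induction hc a b with
  | refl =>
    rw [inv_mul_cancel, mul_one, inv_mul_cancel]
    exact one_mem _
  | @tail b c _ hbc ih =>
    have h : (gen ad v)⁻¹ * ((gen ad a)⁻¹ * gen ad c) * gen ad v =
        ((gen ad v)⁻¹ * ((gen ad a)⁻¹ * gen ad b) * gen ad v) *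
        ((gen ad v)⁻¹ * ((gen ad b)⁻¹ * gen ad c) * gen ad v) := by group
    have h2 : (gen ad b)⁻¹ * gen ad c = gen ad c * (gen ad b)⁻¹ := by
      rw [eq_mul_inv_iff_mul_eq, mul_assoc, ← Pool.Agent.W304.DU.RG.gen_comm ad b c hbc,
        inv_mul_cancel_left]
    rw [h]
    refine mul_mem ih ?_
    rw [h2]
    have h3 : (gen ad v)⁻¹ * (gen ad c * (gen ad b)⁻¹) * gen ad v =
      ((gen ad v)⁻¹ * gen ad c) * ((gen ad b)⁻¹ * gen ad v) := by group
    rw [h3]
    exact mul_mem (inv_mul_mem v₀ v c) (inv_mul_mem v₀ b v)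

theorem normal (hc : ∀ a b, Relation.ReflTransGen ad a b) (v₀ : V) : (Q0 ad v₀).Normal := by
  have key : ∀ g : RAAG ad, ∀ q ∈ Q0 ad v₀, g * q * g⁻¹ ∈ Q0 ad v₀ ∧ g⁻¹ * q * g ∈ Q0 ad v₀ := by
    intro g
    have hg : g ∈ Subgroup.closure (Set.range (gen ad)) := by rw [gen_closure]; trivial
    induction hg using Subgroup.closure_induction with
    | mem g hg =>
      obtain ⟨v, rfl⟩ := hg
      intro q hq
      refine Subgroup.closure_induction
        (p := fun q _ => gen ad v * q * (gen ad v)⁻¹ ∈ Q0 ad v₀ ∧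
          (gen ad v)⁻¹ * q * gen ad v ∈ Q0 ad v₀) ?_ ?_ ?_ ?_ hq
      · rintro _ ⟨w, rfl⟩
        constructor
        · have h : gen ad v * ((gen ad v₀)⁻¹ * gen ad w) * (gen ad v)⁻¹ =
            (gen ad v * (gen ad v₀)⁻¹) * (gen ad w * (gen ad v)⁻¹) := by group
          change gen ad v * ((gen ad v₀)⁻¹ * gen ad w) * (gen ad v)⁻¹ ∈ Q0 ad v₀
          rw [h]
          exact mul_mem (mul_inv_mem hc v₀ v v₀) (mul_inv_mem hc v₀ w v)
        · exact conj_inv_mem hc v₀ v v₀ w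
      · constructor
        · rw [mul_one, mul_inv_cancel]; exact one_mem _
        · rw [mul_one, inv_mul_cancel]; exact one_mem _
      · rintro x y _ _ ⟨h1, h2⟩ ⟨h3, h4⟩
        constructor
        · have h : gen ad v * (x * y) * (gen ad v)⁻¹ =
            (gen ad v * x * (gen ad v)⁻¹) * (gen ad v * y * (gen ad v)⁻¹) := by group
          rw [h]
          exact mul_mem h1 h3
        · have h : (gen ad v)⁻¹ * (x * y) * gen ad v =
            ((gen ad v)⁻¹ * x * gen ad v) * ((gen ad v)⁻¹ * y * gen ad v) := by group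
          rw [h]
          exact mul_mem h2 h4
      · rintro x _ ⟨h1, h2⟩
        constructor
        · have h : gen ad v * x⁻¹ * (gen ad v)⁻¹ = (gen ad v * x * (gen ad v)⁻¹)⁻¹ := by group
          rw [h]
          exact inv_mem h1
        · have h : (gen ad v)⁻¹ * x⁻¹ * gen ad v = ((gen ad v)⁻¹ * x * gen ad v)⁻¹ := by group
          rw [h]
          exact inv_mem h2
    | one =>
      intro q hq
      rw [one_mul, inv_one, mul_one, one_mul, mul_one]
      exact ⟨hq, hq⟩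
    | mul x y _ _ hx hy =>
      intro q hq
      constructor
      · have h : x * y * q * (x * y)⁻¹ = x * (y * q * y⁻¹) * x⁻¹ := by group
        rw [h]
        exact (hx _ (hy q hq).1).1
      · have h : (x * y)⁻¹ * q * (x * y) = y⁻¹ * (x⁻¹ * q * x) * y := by group
        rw [h]
        exact (hy _ (hx q hq).2).2
    | inv x _ hx =>
      intro q hq
      rw [inv_inv]
      exact ⟨(hx q hq).2, (hx q hq).1⟩
  exact ⟨fun q hq g => (key g q hq).1⟩

theorem form (hc : ∀ a b, Relation.ReflTransGen ad a b) (v₀ : V) (x : RAAG ad) :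
    ∃ q ∈ Q0 ad v₀, x = q * gen ad v₀ ^ (Multiplicative.toAdd (hgt ad x)) := by
  have hN := normal hc v₀
  have hx : x ∈ Subgroup.closure (Set.range (gen ad)) := by rw [gen_closure]; trivial
  induction hx using Subgroup.closure_induction with
  | mem x hx =>
    obtain ⟨v, rfl⟩ := hx
    refine ⟨gen ad v * (gen ad v₀)⁻¹, mul_inv_mem hc v₀ v v₀, ?_⟩
    rw [hgt_gen, toAdd_ofAdd, zpow_one, inv_mul_cancel_right]
  | one => exact ⟨1, one_mem _, by simp⟩
  | mul x y _ _ hx hy =>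
    obtain ⟨q, hq, h1⟩ := hx
    obtain ⟨r, hr, h2⟩ := hy
    refine ⟨q * (gen ad v₀ ^ (Multiplicative.toAdd (hgt ad x)) * r *
      (gen ad v₀ ^ (Multiplicative.toAdd (hgt ad x)))⁻¹), mul_mem hq (hN.conj_mem r hr _), ?_⟩
    rw [map_mul, toAdd_mul, zpow_add]
    have h3 : x * y = (q * gen ad v₀ ^ (Multiplicative.toAdd (hgt ad x))) *
        (r * gen ad v₀ ^ (Multiplicative.toAdd (hgt ad y))) := by rw [← h1, ← h2]
    rw [h3]
    group
  | inv x _ hx =>
    obtain ⟨q, hq, h1⟩ := hx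
    refine ⟨(gen ad v₀ ^ (Multiplicative.toAdd (hgt ad x)))⁻¹ * q⁻¹ *
      ((gen ad v₀ ^ (Multiplicative.toAdd (hgt ad x)))⁻¹)⁻¹, hN.conj_mem _ (inv_mem hq) _, ?_⟩
    rw [map_inv, toAdd_inv, zpow_neg]
    have h3 : x⁻¹ = (q * gen ad v₀ ^ (Multiplicative.toAdd (hgt ad x)))⁻¹ := by rw [← h1]
    rw [h3]
    group

theorem th : PropGEN := by
  intro V J _ _ ad γ l p hG v₀ y
  obtain ⟨q, hq, h1⟩ := form hG.conn v₀ y.1
  have h0 : hgt ad y.1 = 1 := y.2
  rw [h0, toAdd_one, zpow_zero, mul_one] at h1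
  have h2 : Q0 ad v₀ ≤ (piF ad v₀).range.map (BB ad).subtype := by
    refine (Subgroup.closure_le _).2 ?_
    rintro _ ⟨v, rfl⟩
    exact ⟨xg ad v₀ v, ⟨FreeGroup.of v, FreeGroup.lift_apply_of⟩, rfl⟩
  rw [← h1] at hq
  obtain ⟨z, ⟨w, hw⟩, hz⟩ := h2 hq
  refine ⟨w, ?_⟩
  rw [hw]
  exact Subtype.ext hz

end Pool.Agent.V1194.HC.Gen
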