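import Pool.Agent.V1194.HC.Stm
import Pool.Agent.W571.DU.BC
import Pool.Agent.W335.DU.HN
import Pool.Agent.W490.DU.Grp
import Pool.Agent.Y448.HC.Aug

/-!
# Relation modules: base change, products, HNN extensions
-/

set_option autoImplicit false

namespace Pool.Agent.V1194.HC

open Pool.Agent.W326.DU Pool.Agent.Y66.HC

section a

variable {H G : Type} [Group H] [Group G]

/-- the ring homomorphism between the group rings -/
noncomputable abbrev mp (f : H →* G) : ZG H →+* ZG G := MonoidAlgebra.mapDomainRingHom ℤ f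

theorem mp_of (f : H →* G) (h : H) :
    mp f (MonoidAlgebra.of ℤ H h) = MonoidAlgebra.of ℤ G (f h) := by
  simp [MonoidAlgebra.of_apply]

theorem mp_of_sub (f : H →* G) (h : H) :
    mp f (MonoidAlgebra.of ℤ H h - 1) = MonoidAlgebra.of ℤ G (f h) - 1 := by
  rw [map_sub, map_one, mp_of]

/-- the image in the permutation module of the cosets -/
noncomputable def cos (K : Subgroup G) : ZG G →+ (G ⧸ K →₀ ℤ) where
  toFun x := Finsupp.mapDomain (QuotientGroup.mk : G → G ⧸ K) x.coeff
  map_zero' := by simp
  map_add' x y := by rw [MonoidAlgebra.coeff_add, Finsupp.mapDomain_add]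

theorem cos_single (K : Subgroup G) (g : G) (r : ℤ) :
    cos K (MonoidAlgebra.single g r) = Finsupp.single (QuotientGroup.mk g : G ⧸ K) r := by
  change Finsupp.mapDomain _ (MonoidAlgebra.single g r : ZG G).coeff = _
  rw [MonoidAlgebra.coeff_single, Finsupp.mapDomain_single]

theorem cos_mul (K : Subgroup G) (x : ZG G) (k : G) (hk : k ∈ K) :
    cos K (x * MonoidAlgebra.of ℤ G k) = cos K x := by
  have key : (cos K).comp (AddMonoidHom.mulRight (MonoidAlgebra.of ℤ G k)) = cos K := by
    refine MonoidAlgebra.addMonoidHom_ext fun g r => ?_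
    change cos K (MonoidAlgebra.single g r * MonoidAlgebra.of ℤ G k) = _
    rw [MonoidAlgebra.of_apply, MonoidAlgebra.single_mul_single, mul_one, cos_single, cos_single]
    congr 1
    rw [QuotientGroup.eq]
    simpa using hk
  exact DFunLike.congr_fun key x

theorem mem_of_sub_mem_IL {X : Set G} {g : G} (h : MonoidAlgebra.of ℤ G g - 1 ∈ IL ℤ X) :
    g ∈ Subgroup.closure X := by
  have h1 : ∀ y ∈ IL ℤ X, ∀ a : ZG G, cos (Subgroup.closure X) (a * y) = 0 := by
    intro y hy
    refine Submodule.span_induction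
      (p := fun y _ => ∀ a : ZG G, cos (Subgroup.closure X) (a * y) = 0)
      ?_ (fun a => by rw [mul_zero, map_zero]) ?_ ?_ hy
    · rintro _ ⟨k, hk, rfl⟩ a
      change cos (Subgroup.closure X) (a * (MonoidAlgebra.of ℤ G k - 1)) = 0
      rw [mul_sub, mul_one, map_sub, cos_mul _ _ _ (Subgroup.subset_closure hk), sub_self]
    · intro y z _ _ hy hz a
      rw [mul_add, map_add, hy, hz, add_zero]
    · intro b y _ hy a
      rw [smul_eq_mul, ← mul_assoc]
      exact hy _
  have h2 := h1 _ h 1
  rw [one_mul, map_sub, sub_eq_zero] at h2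
  have h3 : cos (Subgroup.closure X) (1 : ZG G) =
      Finsupp.single (QuotientGroup.mk 1 : G ⧸ Subgroup.closure X) 1 := by
    have : (1 : ZG G) = MonoidAlgebra.single 1 1 := MonoidAlgebra.one_def
    rw [this, cos_single]
  rw [h3, MonoidAlgebra.of_apply, cos_single] at h2
  have h4 := Finsupp.single_left_injective (one_ne_zero) h2
  rw [QuotientGroup.eq] at h4
  simpa using h4

theorem mem_IL_ker (p : H →* G) (x : ZG H) (hx : mp p x = 0) :
    x ∈ IL ℤ (p.ker : Set H) := by
  classical
  have hs : ∃ s : G → H, ∀ h, p (s (p h)) = p h := by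
    refine ⟨fun g => if hg : ∃ h, p h = g then hg.choose else 1, fun h => ?_⟩
    have hg : ∃ h', p h' = p h := ⟨h, rfl⟩
    simp only [dif_pos hg]
    exact hg.choose_spec
  obtain ⟨s, hs⟩ := hs
  let Ψ : ZG G →+ ZG H :=
    { toFun := fun x => MonoidAlgebra.ofCoeff (Finsupp.mapDomain s x.coeff)
      map_zero' := by simp
      map_add' := fun x y => by
        rw [MonoidAlgebra.coeff_add, Finsupp.mapDomain_add]
        rfl }
  have hΨ : ∀ g r, Ψ (MonoidAlgebra.single g r) = MonoidAlgebra.single (s g) r := by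
    intro g r
    change MonoidAlgebra.ofCoeff (Finsupp.mapDomain s (MonoidAlgebra.single g r : ZG G).coeff) = _
    rw [MonoidAlgebra.coeff_single, Finsupp.mapDomain_single]
    rfl
  have key : ∀ x : ZG H, x - Ψ (mp p x) ∈ IL ℤ (p.ker : Set H) := by
    intro x
    induction x using MonoidAlgebra.induction_on with
    | of h =>
      have h1 : mp p (MonoidAlgebra.of ℤ H h) = MonoidAlgebra.single (p h) 1 := by
        rw [mp_of, MonoidAlgebra.of_apply]
      rw [h1, hΨ]
      have h2 : MonoidAlgebra.of ℤ H h - MonoidAlgebra.single (s (p h)) 1 =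
          MonoidAlgebra.of ℤ H (s (p h)) * (MonoidAlgebra.of ℤ H ((s (p h))⁻¹ * h) - 1) := by
        rw [mul_sub, mul_one, ← map_mul, mul_inv_cancel_left]
        rfl
      rw [h2]
      refine Submodule.smul_mem _ _ (Submodule.subset_span ⟨_, ?_, rfl⟩)
      change (s (p h))⁻¹ * h ∈ p.ker
      rw [MonoidHom.mem_ker, map_mul, map_inv, hs, inv_mul_cancel]
    | add x y hx hy =>
      rw [map_add, map_add, add_sub_add_comm]
      exact Submodule.add_mem _ hx hy
    | smul r x hx =>
      have h1 : mp p (r • x) = r • mp p x := map_zsmul _ _ _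
      rw [h1, map_zsmul, ← smul_sub]
      exact zsmul_mem hx r
  have h := key x
  rw [hx, map_zero, sub_zero] at h
  exact h

end a

section b

variable {G : Type} [Group G] {I K : Type} [Fintype I] [Fintype K]

theorem fox_apply (x : I → G) (c : I → ZG G) :
    fox x c = ∑ i, c i * (MonoidAlgebra.of ℤ G (x i) - 1) := rfl

theorem mem_RM {x : I → G} {c : I → ZG G} :
    c ∈ RM x ↔ ∑ i, c i * (MonoidAlgebra.of ℤ G (x i) - 1) = 0 := Iff.rfl

theorem IL_range (x : I → G) : IL ℤ (Set.range x) = LinearMap.range (fox x) := by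
  classical
  apply le_antisymm
  · refine Submodule.span_le.2 ?_
    rintro _ ⟨_, ⟨i, rfl⟩, rfl⟩
    refine ⟨Pi.single i 1, ?_⟩
    change ∑ j, (Pi.single i (1 : ZG G) : I → ZG G) j * (MonoidAlgebra.of ℤ G (x j) - 1) = _
    rw [Finset.sum_eq_single i]
    · simp
    · intro j _ hj
      rw [Pi.single_eq_of_ne hj, zero_mul]
    · simp
  · rintro _ ⟨c, rfl⟩
    refine Submodule.sum_mem _ fun i _ => ?_
    exact Submodule.smul_mem _ _ (Submodule.subset_span ⟨_, ⟨i, rfl⟩, rfl⟩)

theorem mem_IL_range {x : I → G} {a : ZG G} (h : a ∈ IL ℤ (Set.range x)) :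
    ∃ b : I → ZG G, a = ∑ i, b i * (MonoidAlgebra.of ℤ G (x i) - 1) := by
  rw [IL_range] at h
  obtain ⟨b, hb⟩ := h
  exact ⟨b, hb.symm⟩

/-- extension by zero -/
noncomputable def ext0 (G I K : Type) [Group G] : (K → ZG G) →ₗ[ZG G] (I ⊕ K → ZG G) where
  toFun c := Sum.elim 0 c
  map_add' c d := by
    funext j
    rcases j with j | j <;> simp
  map_smul' a c := by
    funext j
    rcases j with j | j <;> simp

/-- the general criterion -/
theorem RM_sum_fg {J : Type} [Fintype J] (x : I ⊕ K → G)
    (h : (RM (fun k => x (Sum.inr k))).FG) (κ : J → (I ⊕ K → ZG G)) (hκ : ∀ j, κ j ∈ RM x)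
    (hc : ∀ c ∈ RM x, ∃ b : J → ZG G, ∀ i, c (Sum.inl i) = ∑ j, b j * κ j (Sum.inl i)) :
    (RM x).FG := by
  classical
  have key : RM x = (RM (fun k => x (Sum.inr k))).map (ext0 G I K) ⊔
      Submodule.span (ZG G) (Set.range κ) := by
    apply le_antisymm
    · intro c hcm
      obtain ⟨b, hb⟩ := hc c hcm
      set d : I ⊕ K → ZG G := c - ∑ j, b j • κ j with hd
      have hd0 : ∀ i, d (Sum.inl i) = 0 := by
        intro i
        rw [hd, Pi.sub_apply, Finset.sum_apply, hb i]
        simp
      have hdm : d ∈ RM x :=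
        Submodule.sub_mem _ hcm (Submodule.sum_mem _ fun j _ => Submodule.smul_mem _ _ (hκ j))
      have h1 : c = ext0 G I K (fun k => d (Sum.inr k)) + ∑ j, b j • κ j := by
        have : ext0 G I K (fun k => d (Sum.inr k)) = d := by
          funext j
          rcases j with j | j
          · exact (hd0 j).symm
          · rfl
        rw [this, hd, sub_add_cancel]
      rw [h1]
      refine Submodule.add_mem_sup ⟨_, ?_, rfl⟩
        (Submodule.sum_mem _ fun j _ => Submodule.smul_mem _ _ (Submodule.subset_span ⟨j, rfl⟩))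
      change _ ∈ RM (fun k => x (Sum.inr k))
      rw [mem_RM] at hdm ⊢
      rw [Fintype.sum_sum_type] at hdm
      simpa [hd0] using hdm
    · refine sup_le ?_ ?_
      · rintro _ ⟨c, hcm, rfl⟩
        change c ∈ RM (fun k => x (Sum.inr k)) at hcm
        rw [mem_RM] at hcm ⊢
        rw [Fintype.sum_sum_type]
        have h1 : ∀ i, ext0 G I K c (Sum.inl i) = 0 := fun i => rfl
        have h2 : ∀ i, ext0 G I K c (Sum.inr i) = c i := fun i => rfl
        simpa [h1, h2] using hcm
      · refine Submodule.span_le.2 ?_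
        rintro _ ⟨j, rfl⟩
        exact hκ j
  rw [key]
  exact (h.map _).sup (Submodule.fg_span (Set.finite_range κ))

end b

section c

variable {H G : Type} [Group H] [Group G] {I : Type} [Fintype I]

/-- decomposition along a finite set of cosets which contains the support -/
theorem decomp' (f : H →* G) (hf : Function.Injective f) (x : ZG G)
    (T : Finset (G ⧸ f.range))
    (hT : ∀ a, x.coeff a ≠ 0 → (QuotientGroup.mk a : G ⧸ f.range) ∈ T) :
    x = ∑ q ∈ T, MonoidAlgebra.of ℤ G q.out *
        MonoidAlgebra.mapDomainRingHom ℤ f (Pool.Agent.W571.DU.BC.pi ℤ f hf q.out x) := by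
  classical
  apply MonoidAlgebra.ext
  ext a
  rw [MonoidAlgebra.coeff_sum, Finsupp.finsetSum_apply]
  simp only [Pool.Agent.W571.DU.BC.coeff_term]
  have key : ∀ q : G ⧸ f.range, q.out⁻¹ * a ∈ f.range ↔ q = (a : G ⧸ f.range) := by
    intro q
    rw [← QuotientGroup.eq, QuotientGroup.out_eq']
  by_cases ha : x.coeff a = 0
  · rw [ha]
    simp
  · rw [Finset.sum_eq_single (a : G ⧸ f.range)]
    · rw [if_pos ((key _).2 rfl)]
    · intro q _ hq
      rw [if_neg]
      intro h
      exact hq ((key q).1 h)
    · intro h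
      exact absurd (hT a ha) h

theorem RM_bc_fg (f : H →* G) (hf : Function.Injective f) (y : I → H) (h : (RM y).FG) :
    (RM (fun i => f (y i))).FG := by
  classical
  obtain ⟨S, hS⟩ := h
  let mv : (I → ZG H) → (I → ZG G) := fun c i => mp f (c i)
  refine ⟨S.image mv, ?_⟩
  apply le_antisymm
  · refine Submodule.span_le.2 ?_
    intro d hd
    obtain ⟨c, hc, rfl⟩ := Finset.mem_image.1 (Finset.mem_coe.1 hd)
    have hc' : c ∈ RM y := by
      rw [← hS]
      exact Submodule.subset_span hc
    rw [mem_RM] at hc'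
    change mv c ∈ RM _
    rw [mem_RM]
    have := congrArg (mp f) hc'
    rw [map_sum, map_zero] at this
    rw [← this]
    refine Finset.sum_congr rfl fun i _ => ?_
    rw [map_mul, mp_of_sub]
  · have h1 : ∀ c ∈ RM y, mv c ∈ Submodule.span (ZG G) ((S.image mv : Finset _) : Set (I → ZG G)) := by
      intro c hc
      rw [← hS] at hc
      refine Submodule.span_induction (p := fun c _ => mv c ∈ Submodule.span (ZG G) _)
        ?_ ?_ ?_ ?_ hc
      · intro c hc
        refine Submodule.subset_span (Finset.mem_coe.2 (Finset.mem_image.2 ⟨c, hc, rfl⟩))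
      · have : mv 0 = 0 := by
          funext i
          exact map_zero (mp f)
        rw [this]
        exact Submodule.zero_mem _
      · intro a b _ _ ha hb
        have : mv (a + b) = mv a + mv b := by
          funext i
          exact map_add (mp f) _ _
        rw [this]
        exact Submodule.add_mem _ ha hb
      · intro r a _ ha
        have : mv (r • a) = mp f r • mv a := by
          funext i
          exact map_mul (mp f) _ _
        rw [this]
        exact Submodule.smul_mem _ _ ha
    intro c hc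
    rw [mem_RM] at hc
    let T : Finset (G ⧸ f.range) := Finset.univ.biUnion fun i : I =>
      (c i).coeff.support.image fun a : G => (QuotientGroup.mk a : G ⧸ f.range)
    have h2 : c = ∑ q ∈ T, MonoidAlgebra.of ℤ G q.out •
        mv (fun i => Pool.Agent.W571.DU.BC.pi ℤ f hf q.out (c i)) := by
      funext i
      rw [Finset.sum_apply]
      exact decomp' f hf (c i) T (fun a ha => Finset.mem_biUnion.2 ⟨i, Finset.mem_univ _,
        Finset.mem_image.2 ⟨a, Finsupp.mem_support_iff.2 ha, rfl⟩⟩)
    rw [h2]
    refine Submodule.sum_mem _ fun q _ => Submodule.smul_mem _ _ (h1 _ ?_)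
    rw [mem_RM]
    have := congrArg (Pool.Agent.W571.DU.BC.pi ℤ f hf q.out) hc
    rw [map_sum, map_zero] at this
    rw [← this]
    refine Finset.sum_congr rfl fun i _ => ?_
    exact (Pool.Agent.W571.DU.BC.pi_mul_sub ℤ f hf q.out (c i) (y i)).symm

end c

end Pool.Agent.V1194.HC
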