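import Pool.Agent.V1194.HC.Lem
import Pool.Agent.W304.DU.EX
import Pool.Agent.W304.DU.RG
import Pool.Agent.W326.DU.Sub

/-!
# Exactness for the Bestvina-Brady group: graded part
-/

set_option autoImplicit false

namespace Pool.Agent.V1194.HC

open Pool.Agent.W326.DU Pool.Agent.Y66.HC

section grade

variable {V : Type} (ad : V → V → Prop)

/-- height as an integer -/
def ht (g : RAAG ad) : ℤ := (hgt ad g).toAdd

theorem ht_mul (g h : RAAG ad) : ht ad (g * h) = ht ad g + ht ad h := by
  unfold ht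
  rw [map_mul]
  rfl

theorem ht_one : ht ad (1 : RAAG ad) = 0 := by
  unfold ht
  rw [map_one]
  rfl

theorem ht_inv (g : RAAG ad) : ht ad g⁻¹ = - ht ad g := by
  unfold ht
  rw [map_inv]
  rfl

theorem ht_gen (v : V) : ht ad (gen ad v) = 1 := by
  unfold ht
  rw [hgt_gen]
  rfl

open Classical in
/-- projection on the part with degrees in `S` -/
noncomputable def P (S : Set ℤ) : ZG (RAAG ad) →+ ZG (RAAG ad) where
  toFun x := MonoidAlgebra.ofCoeff (x.coeff.filter (fun g => ht ad g ∈ S))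
  map_zero' := by
    apply MonoidAlgebra.ext
    change (0 : RAAG ad →₀ ℤ).filter _ = 0
    exact Finsupp.filter_zero _
  map_add' x y := by
    apply MonoidAlgebra.ext
    change (x.coeff + y.coeff).filter _ = x.coeff.filter _ + y.coeff.filter _
    exact Finsupp.filter_add

open Classical in
theorem P_coeff (S : Set ℤ) (x : ZG (RAAG ad)) (g : RAAG ad) :
    (P ad S x).coeff g = if ht ad g ∈ S then x.coeff g else 0 := by
  change (x.coeff.filter (fun g => ht ad g ∈ S)) g = _
  rw [Finsupp.filter_apply]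

theorem P_P (S S' : Set ℤ) (x : ZG (RAAG ad)) : P ad S (P ad S' x) = P ad (S ∩ S') x := by
  classical
  apply MonoidAlgebra.ext
  ext g
  rw [P_coeff, P_coeff, P_coeff]
  by_cases h : ht ad g ∈ S <;> by_cases h' : ht ad g ∈ S' <;> simp [h, h']

theorem P_of (S : Set ℤ) (x : ZG (RAAG ad)) (h : ∀ g, x.coeff g ≠ 0 → ht ad g ∈ S) :
    P ad S x = x := by
  classical
  apply MonoidAlgebra.ext
  ext g
  rw [P_coeff]
  by_cases hg : x.coeff g = 0
  · simp [hg]
  · rw [if_pos (h g hg)]

theorem P_zero_of (S : Set ℤ) (x : ZG (RAAG ad)) (h : ∀ g, x.coeff g ≠ 0 → ht ad g ∉ S) :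
    P ad S x = 0 := by
  classical
  apply MonoidAlgebra.ext
  ext g
  rw [P_coeff]
  by_cases hg : x.coeff g = 0
  · simp [hg]
  · rw [if_neg (h g hg)]
    simp

theorem P_zero (S : Set ℤ) (x : ZG (RAAG ad)) :
    P ad S x = 0 ↔ ∀ g, x.coeff g ≠ 0 → ht ad g ∉ S := by
  classical
  refine ⟨fun h g hg hS => hg ?_, P_zero_of ad S x⟩
  have : (P ad S x).coeff g = 0 := by rw [h]; rfl
  rwa [P_coeff, if_pos hS] at this

theorem P_mul (S : Set ℤ) (x : ZG (RAAG ad)) (h : RAAG ad) :
    P ad S (x * MonoidAlgebra.of ℤ _ h) =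
      P ad {i | i + ht ad h ∈ S} x * MonoidAlgebra.of ℤ _ h := by
  classical
  apply MonoidAlgebra.ext
  ext g
  rw [P_coeff, MonoidAlgebra.of_apply, MonoidAlgebra.coeff_mul_single_apply,
    MonoidAlgebra.coeff_mul_single_apply, P_coeff]
  have : ht ad (g * h⁻¹) + ht ad h = ht ad g := by
    rw [ht_mul, ht_inv]; ring
  simp only [Set.mem_ofPred_eq, this]
  by_cases hg : ht ad g ∈ S <;> simp [hg]

theorem P_anti {S S' : Set ℤ} (h : S ⊆ S') {x : ZG (RAAG ad)} (hx : P ad S' x = 0) :
    P ad S x = 0 := by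
  have : P ad S x = P ad S (P ad S' x) := by
    rw [P_P, Set.inter_eq_left.2 h]
  rw [this, hx, map_zero]

theorem P_self {S S' : Set ℤ} (h : S ∪ S' = Set.univ) {x : ZG (RAAG ad)} (hx : P ad S' x = 0) :
    P ad S x = x := by
  apply P_of
  intro g hg
  have h1 := (P_zero ad S' x).1 hx g hg
  have h2 : ht ad g ∈ S ∪ S' := by rw [h]; trivial
  exact h2.resolve_right h1

theorem P_disj {S S' : Set ℤ} (h : S ∩ S' = ∅) (x : ZG (RAAG ad)) :
    P ad S (P ad S' x) = 0 := by
  rw [P_P, h]
  apply P_zero_of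
  intro g _ hg
  exact hg

theorem P_bdd (x : ZG (RAAG ad)) :
    ∃ N : ℕ, P ad {i | i < -(N : ℤ)} x = 0 ∧ P ad {i | (N : ℤ) < i} x = 0 := by
  classical
  refine ⟨x.coeff.support.sup fun g => (ht ad g).natAbs, ?_, ?_⟩
  · rw [P_zero]
    intro g hg
    have := Finset.le_sup (f := fun g => (ht ad g).natAbs) (Finsupp.mem_support_iff.2 hg)
    simp only [Set.mem_ofPred_eq]
    omega
  · rw [P_zero]
    intro g hg
    have := Finset.le_sup (f := fun g => (ht ad g).natAbs) (Finsupp.mem_support_iff.2 hg)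
    simp only [Set.mem_ofPred_eq]
    omega

end grade

set_option linter.unusedSectionVars false

section chains

variable {V : Type} [Fintype V] (ad : V → V → Prop)

/-- right multiplication by a generator -/
noncomputable def gm (v : V) : ZG (RAAG ad) →+ ZG (RAAG ad) :=
  rm ℤ (MonoidAlgebra.of ℤ (RAAG ad) (gen ad v))

/-- right multiplication by `v - 1` -/
noncomputable def rr (v : V) : ZG (RAAG ad) →+ ZG (RAAG ad) :=
  rm ℤ (MonoidAlgebra.of ℤ (RAAG ad) (gen ad v) - 1)

theorem gm_apply (v : V) (x : ZG (RAAG ad)) :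
    gm ad v x = x * MonoidAlgebra.of ℤ (RAAG ad) (gen ad v) := rfl

theorem rr_apply (v : V) (x : ZG (RAAG ad)) : rr ad v x = gm ad v x - x := by
  change x * (MonoidAlgebra.of ℤ (RAAG ad) (gen ad v) - 1) = _
  rw [mul_sub, mul_one]
  rfl

theorem P_gm (S : Set ℤ) (v : V) (x : ZG (RAAG ad)) :
    P ad S (gm ad v x) = gm ad v (P ad {i | i + 1 ∈ S} x) := by
  rw [gm_apply, P_mul, ht_gen]
  rfl

theorem reg (hsymm : ∀ a b, ad a b → ad b a) (hirr : ∀ a, ¬ ad a a) : Reg ad (rr ad) := by
  constructor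
  · intro a b hab x
    change x * (MonoidAlgebra.of ℤ _ (gen ad b) - 1) * (MonoidAlgebra.of ℤ _ (gen ad a) - 1)
        = x * (MonoidAlgebra.of ℤ _ (gen ad a) - 1) * (MonoidAlgebra.of ℤ _ (gen ad b) - 1)
    have hc : MonoidAlgebra.of ℤ _ (gen ad b) * MonoidAlgebra.of ℤ _ (gen ad a)
          = MonoidAlgebra.of ℤ _ (gen ad a) * MonoidAlgebra.of ℤ _ (gen ad b) := by
      rw [← map_mul, ← map_mul, Pool.Agent.W490.DU.gen_comm ad hab]
    rw [mul_assoc, mul_assoc, Pool.Agent.W490.DU.comm_sub_one hc]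
  · intro S v hv x hx
    have hmem : ∀ (S : Set V) (x : ZG (RAAG ad)), x ∈ Im (rr ad) S ↔ x ∈ IL ℤ (gen ad '' S) := by
      intro S x
      constructor
      · intro h
        have hle : Im (rr ad) S ≤ (IL ℤ (gen ad '' S)).toAddSubgroup := by
          refine iSup_le fun v => iSup_le fun hv => ?_
          rintro _ ⟨z, rfl⟩
          exact Submodule.smul_mem _ z (Submodule.subset_span ⟨gen ad v, ⟨v, hv, rfl⟩, rfl⟩)
        exact hle h
      · intro h
        refine Submodule.span_induction (p := fun x _ => x ∈ Im (rr ad) S) ?_ ?_ ?_ ?_ h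
        · rintro _ ⟨_, ⟨v, hv, rfl⟩, rfl⟩
          refine (le_iSup_of_le v (le_iSup_of_le hv le_rfl) :
            (rr ad v).range ≤ Im (rr ad) S) ⟨1, ?_⟩
          change 1 * (MonoidAlgebra.of ℤ _ (gen ad v) - 1) = _
          rw [one_mul]
        · exact zero_mem _
        · intro x y _ _ hx hy
          exact add_mem hx hy
        · intro a x _ hx
          have hle : (Im (rr ad) S).map (AddMonoidHom.mulLeft a) ≤ Im (rr ad) S := by
            unfold Im
            rw [AddSubgroup.map_iSup]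
            refine iSup_le fun v => ?_
            rw [AddSubgroup.map_iSup]
            refine iSup_le fun hv => ?_
            refine le_trans ?_ (le_iSup_of_le v (le_iSup_of_le hv le_rfl))
            rintro _ ⟨_, ⟨z, rfl⟩, rfl⟩
            refine ⟨a * z, ?_⟩
            change (a * z) * (MonoidAlgebra.of ℤ _ (gen ad v) - 1)
              = a * (z * (MonoidAlgebra.of ℤ _ (gen ad v) - 1))
            rw [mul_assoc]
          exact hle ⟨x, hx, rfl⟩
    rw [hmem] at hx ⊢
    let W' : Type := {w : V // w ∈ S ∨ w = v}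
    let ad' : W' → W' → Prop := fun a b => ad a.1 b.1
    obtain ⟨F, hF, hFi⟩ := sub_th V W' ad ad' (fun w => w.1) Subtype.val_injective
      (fun a b => Iff.rfl)
    let v' : W' := ⟨v, Or.inr rfl⟩
    have hst := Pool.Agent.W571.DU.BC.th ℤ (RAAG ad') (RAAG ad) F hFi _ _ _
      (Pool.Agent.W304.DU.RG.th ℤ W' ad' (fun a b h => hsymm _ _ h) (fun a h => hirr _ h) v')
    have e1 : F '' (gen ad' '' {w | w ≠ v'}) = gen ad '' S := by
      ext g
      constructor
      · rintro ⟨_, ⟨w, hw, rfl⟩, rfl⟩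
        refine ⟨w.1, ?_, (hF w).symm⟩
        rcases w.2 with h | h
        · exact h
        · exact absurd (Subtype.ext h) hw
      · rintro ⟨w, hw, rfl⟩
        refine ⟨_, ⟨⟨w, Or.inl hw⟩, ?_, rfl⟩, hF _⟩
        intro h
        have : w = v := congrArg Subtype.val h
        exact hv (this ▸ hw)
    have e2 : F '' (gen ad' '' {w | ad' w v'}) = gen ad '' {w | w ∈ S ∧ ad w v} := by
      ext g
      constructor
      · rintro ⟨_, ⟨w, hw, rfl⟩, rfl⟩
        have hw' : ad w.1 v := hw
        refine ⟨w.1, ⟨?_, hw'⟩, (hF w).symm⟩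
        rcases w.2 with h | h
        · exact h
        · rw [h] at hw'
          exact absurd hw' (hirr v)
      · rintro ⟨w, ⟨hw, hwv⟩, rfl⟩
        exact ⟨_, ⟨⟨w, Or.inl hw⟩, hwv, rfl⟩, hF _⟩
    rw [e1, e2, hF] at hst
    exact hst x hx

/-- simplicial boundary of 2-chains -/
noncomputable def L2 (y : V → V → ZG (RAAG ad)) (b : V) : ZG (RAAG ad) := ∑ a, y a b
/-- the same with right multiplications -/
noncomputable def T2 (y : V → V → ZG (RAAG ad)) (b : V) : ZG (RAAG ad) := ∑ a, gm ad a (y a b)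
/-- simplicial boundary of 3-chains -/
noncomputable def L3 (z : V → V → V → ZG (RAAG ad)) (b c : V) : ZG (RAAG ad) := ∑ a, z a b c
/-- the same with right multiplications -/
noncomputable def T3 (z : V → V → V → ZG (RAAG ad)) (b c : V) : ZG (RAAG ad) :=
  ∑ a, gm ad a (z a b c)

theorem D2_eq (y : V → V → ZG (RAAG ad)) (b : V) :
    ∑ a, rr ad a (y a b) = T2 ad y b - L2 ad y b := by
  simp only [rr_apply, Finset.sum_sub_distrib]
  rfl

theorem D3_eq (z : V → V → V → ZG (RAAG ad)) (b c : V) :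
    ∑ a, rr ad a (z a b c) = T3 ad z b c - L3 ad z b c := by
  simp only [rr_apply, Finset.sum_sub_distrib]
  rfl

theorem P_L2 (S : Set ℤ) (y : V → V → ZG (RAAG ad)) (b : V) :
    P ad S (L2 ad y b) = L2 ad (fun a b => P ad S (y a b)) b := map_sum _ _ _

theorem P_L3 (S : Set ℤ) (z : V → V → V → ZG (RAAG ad)) (b c : V) :
    P ad S (L3 ad z b c) = L3 ad (fun a b c => P ad S (z a b c)) b c := map_sum _ _ _

theorem P_T2 (S : Set ℤ) (y : V → V → ZG (RAAG ad)) (b : V) :
    P ad S (T2 ad y b) = T2 ad (fun a b => P ad {i | i + 1 ∈ S} (y a b)) b := by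
  unfold T2
  rw [map_sum]
  exact Finset.sum_congr rfl fun a _ => P_gm ad S a _

theorem P_T3 (S : Set ℤ) (z : V → V → V → ZG (RAAG ad)) (b c : V) :
    P ad S (T3 ad z b c) = T3 ad (fun a b c => P ad {i | i + 1 ∈ S} (z a b c)) b c := by
  unfold T3
  rw [map_sum]
  exact Finset.sum_congr rfl fun a _ => P_gm ad S a _

end chains

section alt

variable {V : Type} [Fintype V] (ad : V → V → Prop)

theorem alt2_P {S : Set ℤ} {y : V → V → ZG (RAAG ad)} (h : IsAlt2 ad Set.univ y) :
    IsAlt2 ad Set.univ (fun a b => P ad S (y a b)) :=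
  ⟨fun a b => by beta_reduce; rw [h.1 a b, map_neg],
    fun a b hab => by beta_reduce; rw [h.2 a b hab, map_zero]⟩

theorem alt3_P {S : Set ℤ} {z : V → V → V → ZG (RAAG ad)} (h : IsAlt3 ad Set.univ z) :
    IsAlt3 ad Set.univ (fun a b c => P ad S (z a b c)) :=
  ⟨fun a b c => by beta_reduce; rw [h.1 a b c, map_neg],
    fun a b c => by beta_reduce; rw [h.2.1 a b c, map_neg],
    fun a b c hab => by beta_reduce; rw [h.2.2 a b c hab, map_zero]⟩

theorem alt2_L3 {z : V → V → V → ZG (RAAG ad)} (h : IsAlt3 ad Set.univ z) :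
    IsAlt2 ad Set.univ (L3 ad z) := by
  constructor
  · intro b c
    unfold L3
    rw [← Finset.sum_neg_distrib]
    exact Finset.sum_congr rfl fun a _ => h.2.1 a b c
  · intro b c hbc
    exact Finset.sum_eq_zero fun a _ => h.2.2 a b c fun h' => hbc ⟨h'.2.1, h'.2.2.1, h'.2.2.2.2.1⟩

theorem alt2_T3 {z : V → V → V → ZG (RAAG ad)} (h : IsAlt3 ad Set.univ z) :
    IsAlt2 ad Set.univ (T3 ad z) := by
  constructor
  · intro b c
    unfold T3
    rw [← Finset.sum_neg_distrib]
    exact Finset.sum_congr rfl fun a _ => by rw [h.2.1 a b c, map_neg]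
  · intro b c hbc
    refine Finset.sum_eq_zero fun a _ => ?_
    rw [h.2.2 a b c fun h' => hbc ⟨h'.2.1, h'.2.2.1, h'.2.2.2.2.1⟩, map_zero]

theorem alt2_add {y y' : V → V → ZG (RAAG ad)} (h : IsAlt2 ad Set.univ y)
    (h' : IsAlt2 ad Set.univ y') : IsAlt2 ad Set.univ (fun a b => y a b + y' a b) :=
  ⟨fun a b => by beta_reduce; rw [h.1 a b, h'.1 a b, neg_add], fun a b hab => by
    beta_reduce; rw [h.2 a b hab, h'.2 a b hab, add_zero]⟩

theorem alt2_sub {y y' : V → V → ZG (RAAG ad)} (h : IsAlt2 ad Set.univ y)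
    (h' : IsAlt2 ad Set.univ y') : IsAlt2 ad Set.univ (fun a b => y a b - y' a b) :=
  ⟨fun a b => by beta_reduce; rw [h.1 a b, h'.1 a b]; abel, fun a b hab => by
    beta_reduce; rw [h.2 a b hab, h'.2 a b hab, sub_zero]⟩

end alt

section exact

variable {V : Type} [Fintype V] {ad : V → V → Prop} (hsymm : ∀ a b, ad a b → ad b a)
  (hirr : ∀ a, ¬ ad a a)
  (hk4 : ∀ a b c d, ad a b → ad a c → ad a d → ad b c → ad b d → ¬ ad c d)
  (hac : Acyc ad)

include hsymm hirr in
/-- `∂ ∂ = 0` -/
theorem D2D3 (w : V → V → V → ZG (RAAG ad)) (hw : IsAlt3 ad Set.univ w) (b : V) :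
    T2 ad (fun a b => T3 ad w a b - L3 ad w a b) b - L2 ad (fun a b => T3 ad w a b - L3 ad w a b) b
      = 0 := by
  have h := Pool.Agent.W304.DU.dd (rr ad) (reg ad hsymm hirr) hirr (fun c a => w c a b)
    (fun c a => hw.1 c a b) (fun c a hca => hw.2.2 c a b fun h => hca h.2.2.2.1)
  rw [← D2_eq]
  simp only [← D3_eq]
  exact h

theorem gcomm {a b : V} (h : ad a b) :
    MonoidAlgebra.of ℤ (RAAG ad) (gen ad a * gen ad b) =
      MonoidAlgebra.of ℤ (RAAG ad) (gen ad b * gen ad a) := by
  rw [Pool.Agent.W490.DU.gen_comm ad h]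

include hac in
/-- exactness of `T` in degree two -/
theorem T_exact (y : V → V → ZG (RAAG ad)) (hy : IsAlt2 ad Set.univ y) (h : ∀ b, T2 ad y b = 0) :
    ∃ w, IsAlt3 ad Set.univ w ∧ ∀ b c, y b c = T3 ad w b c := by
  let u : V → V → ZG (RAAG ad) := fun a b => y a b * MonoidAlgebra.of ℤ _ (gen ad a * gen ad b)
  have hu : IsAlt2 ad Set.univ u := by
    constructor
    · intro a b
      by_cases hab : ad a b
      · change y a b * _ = - (y b a * _)
        rw [gcomm hab, hy.1 a b, neg_mul]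
      · change y a b * _ = - (y b a * _)
        have h1 : y a b = 0 := hy.2 a b fun h => hab h.2.2
        have h2 : y b a = 0 := by rw [hy.1 b a, h1, neg_zero]
        rw [h1, h2, zero_mul, zero_mul, neg_zero]
    · intro a b hab
      change y a b * _ = 0
      rw [hy.2 a b hab, zero_mul]
  have hu0 : ∀ b, ∑ a, u a b = 0 := by
    intro b
    have h1 : ∑ a, u a b = T2 ad y b * MonoidAlgebra.of ℤ _ (gen ad b) := by
      unfold T2
      rw [Finset.sum_mul]
      refine Finset.sum_congr rfl fun a _ => ?_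
      change y a b * MonoidAlgebra.of ℤ _ (gen ad a * gen ad b) = y a b * _ * _
      rw [mul_assoc, ← map_mul]
    rw [h1, h b, zero_mul]
  obtain ⟨z, hz, hzu⟩ := hac.ac2 _ u hu hu0
  let e : V → V → V → RAAG ad := fun a b c => (gen ad a * gen ad b * gen ad c)⁻¹
  have e1 : ∀ a b c, ad a b → e a b c = e b a c := by
    intro a b c h
    change (gen ad a * gen ad b * gen ad c)⁻¹ = (gen ad b * gen ad a * gen ad c)⁻¹
    rw [Pool.Agent.W490.DU.gen_comm ad h]
  have e2 : ∀ a b c, ad b c → e a b c = e a c b := by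
    intro a b c h
    change (gen ad a * gen ad b * gen ad c)⁻¹ = (gen ad a * gen ad c * gen ad b)⁻¹
    rw [mul_assoc, mul_assoc, Pool.Agent.W490.DU.gen_comm ad h]
  refine ⟨fun a b c => z a b c * MonoidAlgebra.of ℤ _ (e a b c), ⟨?_, ?_, ?_⟩, ?_⟩
  · intro a b c
    beta_reduce
    by_cases hab : ad a b
    · rw [e1 a b c hab, hz.1 a b c, neg_mul]
    · have h1 : z a b c = 0 := hz.2.2 a b c fun h => hab h.2.2.2.1
      have h2 : z b a c = 0 := by
        have := hz.1 a b c
        rw [h1] at this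
        exact neg_eq_zero.1 this.symm
      rw [h1, h2, zero_mul, zero_mul, neg_zero]
  · intro a b c
    beta_reduce
    by_cases hbc : ad b c
    · rw [e2 a b c hbc, hz.2.1 a b c, neg_mul]
    · have h1 : z a b c = 0 := hz.2.2 a b c fun h => hbc h.2.2.2.2.1
      have h2 : z a c b = 0 := by
        have := hz.2.1 a b c
        rw [h1] at this
        exact neg_eq_zero.1 this.symm
      rw [h1, h2, zero_mul, zero_mul, neg_zero]
  · intro a b c h
    simp only [hz.2.2 a b c h, zero_mul]
  · intro b c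
    have h1 : T3 ad (fun a b c => z a b c * MonoidAlgebra.of ℤ _ (e a b c)) b c =
        (∑ a, z a b c) * MonoidAlgebra.of ℤ _ (gen ad b * gen ad c)⁻¹ := by
      unfold T3
      rw [Finset.sum_mul]
      refine Finset.sum_congr rfl fun a _ => ?_
      beta_reduce
      by_cases hz0 : z a b c = 0
      · rw [hz0, zero_mul, zero_mul, map_zero]
      · have hab : ad a b ∧ ad b c ∧ ad a c := by
          by_contra hcon
          exact hz0 (hz.2.2 a b c fun h => hcon h.2.2.2)
        rw [gm_apply, mul_assoc, ← map_mul]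
        congr 2
        change (gen ad a * gen ad b * gen ad c)⁻¹ * gen ad a = (gen ad b * gen ad c)⁻¹
        rw [mul_assoc, mul_inv_rev, inv_mul_cancel_right]
    rw [h1, ← hzu]
    change y b c = y b c * _ * _
    rw [mul_assoc, ← map_mul, mul_inv_cancel, map_one, mul_one]

include hac in
/-- injectivity of `T` in degree three -/
theorem T_inj (w : V → V → V → ZG (RAAG ad)) (hw : IsAlt3 ad Set.univ w)
    (h : ∀ b c, T3 ad w b c = 0) : ∀ a b c, w a b c = 0 := by
  let e : V → V → V → RAAG ad := fun a b c => gen ad a * gen ad b * gen ad c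
  have e1 : ∀ a b c, ad a b → e a b c = e b a c := by
    intro a b c h
    change gen ad a * gen ad b * gen ad c = gen ad b * gen ad a * gen ad c
    rw [Pool.Agent.W490.DU.gen_comm ad h]
  have e2 : ∀ a b c, ad b c → e a b c = e a c b := by
    intro a b c h
    change gen ad a * gen ad b * gen ad c = gen ad a * gen ad c * gen ad b
    rw [mul_assoc, mul_assoc, Pool.Agent.W490.DU.gen_comm ad h]
  have hz : IsAlt3 ad Set.univ (fun a b c => w a b c * MonoidAlgebra.of ℤ _ (e a b c)) := by
    refine ⟨?_, ?_, ?_⟩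
    · intro a b c
      beta_reduce
      by_cases hab : ad a b
      · rw [e1 a b c hab, hw.1 a b c, neg_mul]
      · have h1 : w a b c = 0 := hw.2.2 a b c fun h => hab h.2.2.2.1
        have h2 : w b a c = 0 := by
          have := hw.1 a b c
          rw [h1] at this
          exact neg_eq_zero.1 this.symm
        rw [h1, h2, zero_mul, zero_mul, neg_zero]
    · intro a b c
      beta_reduce
      by_cases hbc : ad b c
      · rw [e2 a b c hbc, hw.2.1 a b c, neg_mul]
      · have h1 : w a b c = 0 := hw.2.2 a b c fun h => hbc h.2.2.2.2.1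
        have h2 : w a c b = 0 := by
          have := hw.2.1 a b c
          rw [h1] at this
          exact neg_eq_zero.1 this.symm
        rw [h1, h2, zero_mul, zero_mul, neg_zero]
    · intro a b c h
      simp only [hw.2.2 a b c h, zero_mul]
  have h2 := hac.ac3 _ _ hz (by
    intro b c
    have h1 : ∑ a, w a b c * MonoidAlgebra.of ℤ _ (e a b c) =
        T3 ad w b c * MonoidAlgebra.of ℤ _ (gen ad b * gen ad c) := by
      unfold T3
      rw [Finset.sum_mul]
      refine Finset.sum_congr rfl fun a _ => ?_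
      rw [gm_apply, mul_assoc, ← map_mul, ← mul_assoc]
    rw [h1, h b c, zero_mul])
  intro a b c
  have h3 := h2 a b c
  have h4 : w a b c = (w a b c * MonoidAlgebra.of ℤ _ (e a b c)) *
      MonoidAlgebra.of ℤ _ (e a b c)⁻¹ := by
    rw [mul_assoc, ← map_mul, mul_inv_cancel, map_one, mul_one]
  rw [h4, h3, zero_mul]

end exact

end Pool.Agent.V1194.HC
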