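import Pool.Agent.V1194.HC.QA

/-!
# Exactness for the Bestvina-Brady group: pushing chains into one level
-/

set_option autoImplicit false
set_option linter.unusedSectionVars false

namespace Pool.Agent.V1194.HC

open Pool.Agent.W326.DU Pool.Agent.Y66.HC

section push

variable {V : Type} [Fintype V] {ad : V → V → Prop}

theorem T2_zero (y : V → V → ZG (RAAG ad)) (h : ∀ a b, y a b = 0) (b : V) : T2 ad y b = 0 := by
  unfold T2
  exact Finset.sum_eq_zero fun a _ => by rw [h a b, map_zero]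

theorem L2_zero (y : V → V → ZG (RAAG ad)) (h : ∀ a b, y a b = 0) (b : V) : L2 ad y b = 0 := by
  unfold L2
  exact Finset.sum_eq_zero fun a _ => h a b

theorem T3_zero (z : V → V → V → ZG (RAAG ad)) (h : ∀ a b c, z a b c = 0) (b c : V) :
    T3 ad z b c = 0 := by
  unfold T3
  exact Finset.sum_eq_zero fun a _ => by rw [h a b c, map_zero]

theorem L3_zero (z : V → V → V → ZG (RAAG ad)) (h : ∀ a b c, z a b c = 0) (b c : V) :
    L3 ad z b c = 0 := by
  unfold L3
  exact Finset.sum_eq_zero fun a _ => h a b c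

theorem T2_add (y y' : V → V → ZG (RAAG ad)) (b : V) :
    T2 ad (fun a b => y a b + y' a b) b = T2 ad y b + T2 ad y' b := by
  unfold T2
  simp only [map_add, Finset.sum_add_distrib]

theorem L2_add (y y' : V → V → ZG (RAAG ad)) (b : V) :
    L2 ad (fun a b => y a b + y' a b) b = L2 ad y b + L2 ad y' b := by
  unfold L2
  simp only [Finset.sum_add_distrib]

theorem T2_sub (y y' : V → V → ZG (RAAG ad)) (b : V) :
    T2 ad (fun a b => y a b - y' a b) b = T2 ad y b - T2 ad y' b := by
  unfold T2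
  simp only [map_sub, Finset.sum_sub_distrib]

theorem L2_sub (y y' : V → V → ZG (RAAG ad)) (b : V) :
    L2 ad (fun a b => y a b - y' a b) b = L2 ad y b - L2 ad y' b := by
  unfold L2
  simp only [Finset.sum_sub_distrib]

theorem double_zero {x : ZG (RAAG ad)} (h : x = -x) : x = 0 := by
  apply MonoidAlgebra.ext
  ext g
  have h1 : x.coeff g = - x.coeff g := congrArg (fun y : ZG (RAAG ad) => y.coeff g) h
  change x.coeff g = 0
  omega

theorem LL (z : V → V → V → ZG (RAAG ad)) (hz : IsAlt3 ad Set.univ z) (b : V) :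
    L2 ad (L3 ad z) b = 0 := by
  apply double_zero
  unfold L2 L3
  rw [← Finset.sum_neg_distrib]
  conv_rhs =>
    enter [2, a]
    rw [← Finset.sum_neg_distrib]
  conv_lhs => rw [Finset.sum_comm]
  exact Finset.sum_congr rfl fun a _ => Finset.sum_congr rfl fun c _ => hz.1 a c b

variable (hsymm : ∀ a b, ad a b → ad b a) (hirr : ∀ a, ¬ ad a a)
  (hk4 : ∀ a b c d, ad a b → ad a c → ad a d → ad b c → ad b d → ¬ ad c d)
  (hac : Acyc ad)

include hsymm hirr hac in
theorem up_step (k p : ℤ) (hpk : p < k) (y : V → V → ZG (RAAG ad)) (hy : IsAlt2 ad Set.univ y)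
    (hlow : ∀ a b, P ad {i | i < p} (y a b) = 0)
    (hd : ∀ b, P ad {i | i < k + 1} (T2 ad y b - L2 ad y b) = 0) :
    ∃ y', IsAlt2 ad Set.univ y' ∧
      (∀ b, T2 ad y' b - L2 ad y' b = T2 ad y b - L2 ad y b) ∧
      ∀ a b, P ad {i | i < p + 1} (y' a b) = 0 := by
  have h1 : ∀ b, ∑ a, P ad {i | i < p + 1} (y a b) = 0 := by
    intro b
    have h2 : P ad {i | i < p + 1} (T2 ad y b - L2 ad y b) = 0 :=
      P_anti ad (fun i (hi : i < p + 1) => (by change i < k + 1; omega)) (hd b)
    rw [map_sub, P_T2, P_L2, T2_zero, zero_sub, neg_eq_zero] at h2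
    · exact h2
    · intro a b
      exact P_anti ad (fun i (hi : i + 1 < p + 1) => (by change i < p; omega)) (hlow a b)
  obtain ⟨w0, hw0, hw1⟩ := hac.ac2 _ _ (alt2_P ad (S := {i | i < p + 1}) hy) h1
  have hw := alt3_P ad (S := {i | p ≤ i}) hw0
  set w : V → V → V → ZG (RAAG ad) := fun a b c => P ad {i | p ≤ i} (w0 a b c) with hwdef
  have hLw : ∀ b c, L3 ad w b c = P ad {i | i < p + 1} (y b c) := by
    intro b c
    rw [hwdef, ← P_L3]
    have : L3 ad w0 b c = P ad {i | i < p + 1} (y b c) := (hw1 b c).symm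
    rw [this]
    apply P_self ad (S' := {i | i < p})
    · ext i
      simp only [Set.mem_union, Set.mem_ofPred_eq, Set.mem_univ, iff_true]
      omega
    · rw [P_P]
      exact P_anti ad (fun i hi => hi.1) (hlow b c)
  refine ⟨fun a b => y a b + (T3 ad w a b - L3 ad w a b), ?_, ?_, ?_⟩
  · exact alt2_add ad hy (alt2_sub ad (alt2_T3 ad hw) (alt2_L3 ad hw))
  · intro b
    have h3 := D2D3 hsymm hirr w hw b
    rw [T2_add, L2_add]
    rw [sub_eq_zero] at h3
    rw [h3]
    abel
  · intro a b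
    rw [map_add, map_sub, P_T3, T3_zero, hLw, P_P, Set.inter_self]
    · abel
    · intro a b c
      rw [hwdef]
      apply P_disj
      ext i
      simp only [Set.mem_inter_iff, Set.mem_ofPred_eq, Set.mem_empty_iff_false, iff_false, not_and]
      omega

include hsymm hirr hac in
theorem down_step (k q : ℤ) (hq : k < q) (y : V → V → ZG (RAAG ad)) (hy : IsAlt2 ad Set.univ y)
    (hlow : ∀ a b, P ad {i | i < k} (y a b) = 0)
    (htop : ∀ a b, P ad {i | q < i} (y a b) = 0)
    (hd : ∀ b, P ad {i | k + 1 < i} (T2 ad y b - L2 ad y b) = 0) :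
    ∃ y', IsAlt2 ad Set.univ y' ∧
      (∀ b, T2 ad y' b - L2 ad y' b = T2 ad y b - L2 ad y b) ∧
      (∀ a b, P ad {i | i < k} (y' a b) = 0) ∧
      ∀ a b, P ad {i | q - 1 < i} (y' a b) = 0 := by
  have h1 : ∀ b, T2 ad (fun a b => P ad {i | q ≤ i} (y a b)) b = 0 := by
    intro b
    have h2 : P ad {i | q + 1 ≤ i} (T2 ad y b - L2 ad y b) = 0 :=
      P_anti ad (fun i (hi : q + 1 ≤ i) => (by change k + 1 < i; omega)) (hd b)
    rw [map_sub, P_T2, P_L2, L2_zero, sub_zero] at h2
    · have h3 : {i : ℤ | i + 1 ∈ {i : ℤ | q + 1 ≤ i}} = {i | q ≤ i} := by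
        ext i
        simp only [Set.mem_ofPred_eq]
        omega
      rw [h3] at h2
      exact h2
    · intro a b
      exact P_anti ad (fun i (hi : q + 1 ≤ i) => (by change q < i; omega)) (htop a b)
  obtain ⟨w0, hw0, hw1⟩ := T_exact hac _ (alt2_P ad (S := {i | q ≤ i}) hy) h1
  have hw := alt3_P ad (S := {i | i + 1 ∈ {i : ℤ | i = q}}) hw0
  set w : V → V → V → ZG (RAAG ad) := fun a b c => P ad {i | i + 1 ∈ {i : ℤ | i = q}} (w0 a b c)
    with hwdef
  have hTw : ∀ b c, T3 ad w b c = P ad {i | q ≤ i} (y b c) := by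
    intro b c
    rw [hwdef, ← P_T3]
    have : T3 ad w0 b c = P ad {i | q ≤ i} (y b c) := (hw1 b c).symm
    rw [this]
    apply P_self ad (S' := {i | i ≠ q})
    · ext i
      simp only [Set.mem_union, Set.mem_ofPred_eq, Set.mem_univ, iff_true]
      omega
    · rw [P_P]
      refine P_anti ad ?_ (htop b c)
      rintro i ⟨hi, hi'⟩
      simp only [Set.mem_ofPred_eq] at hi hi' ⊢
      omega
  refine ⟨fun a b => y a b - (T3 ad w a b - L3 ad w a b), ?_, ?_, ?_, ?_⟩
  · exact alt2_sub ad hy (alt2_sub ad (alt2_T3 ad hw) (alt2_L3 ad hw))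
  · intro b
    have h3 := D2D3 hsymm hirr w hw b
    rw [T2_sub, L2_sub]
    rw [sub_eq_zero] at h3
    rw [h3]
    abel
  · intro a b
    rw [map_sub, map_sub, hlow, hTw, P_disj, P_L3, L3_zero]
    · simp
    · intro a b c
      rw [hwdef]
      apply P_disj
      ext i
      simp only [Set.mem_inter_iff, Set.mem_ofPred_eq, Set.mem_empty_iff_false, iff_false, not_and]
      omega
    · ext i
      simp only [Set.mem_inter_iff, Set.mem_ofPred_eq, Set.mem_empty_iff_false, iff_false, not_and]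
      omega
  · intro a b
    rw [map_sub, map_sub, hTw, P_L3, L3_zero, P_P]
    · have : {i : ℤ | q - 1 < i} ∩ {i | q ≤ i} = {i | q - 1 < i} := by
        ext i
        simp only [Set.mem_inter_iff, Set.mem_ofPred_eq]
        omega
      rw [this]
      simp
    · intro a b c
      rw [hwdef]
      apply P_disj
      ext i
      simp only [Set.mem_inter_iff, Set.mem_ofPred_eq, Set.mem_empty_iff_false, iff_false, not_and]
      omega

include hsymm hirr hac in
theorem up_all (k : ℤ) (n : ℕ) : ∀ (y : V → V → ZG (RAAG ad)), IsAlt2 ad Set.univ y →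
    (∀ a b, P ad {i | i < k - n} (y a b) = 0) →
    (∀ b, P ad {i | i < k + 1} (T2 ad y b - L2 ad y b) = 0) →
    ∃ y', IsAlt2 ad Set.univ y' ∧
      (∀ b, T2 ad y' b - L2 ad y' b = T2 ad y b - L2 ad y b) ∧
      ∀ a b, P ad {i | i < k} (y' a b) = 0 := by
  induction n with
  | zero =>
    intro y hy hl _
    refine ⟨y, hy, fun _ => rfl, ?_⟩
    intro a b
    have := hl a b
    simpa using this
  | succ n ih =>
    intro y hy hl hd
    obtain ⟨y', hy', hd', hl'⟩ := up_step hsymm hirr hac k (k - (n + 1 : ℕ)) (by omega) y hy hl hd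
    have h1 : k - ((n + 1 : ℕ) : ℤ) + 1 = k - n := by push_cast; ring
    rw [h1] at hl'
    obtain ⟨y'', hy'', hd'', hl''⟩ := ih y' hy' hl' (by intro b; rw [hd' b]; exact hd b)
    exact ⟨y'', hy'', fun b => (hd'' b).trans (hd' b), hl''⟩

include hsymm hirr hac in
theorem down_all (k : ℤ) (n : ℕ) : ∀ (y : V → V → ZG (RAAG ad)), IsAlt2 ad Set.univ y →
    (∀ a b, P ad {i | i < k} (y a b) = 0) →
    (∀ a b, P ad {i | k + n < i} (y a b) = 0) →
    (∀ b, P ad {i | k + 1 < i} (T2 ad y b - L2 ad y b) = 0) →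
    ∃ y', IsAlt2 ad Set.univ y' ∧
      (∀ b, T2 ad y' b - L2 ad y' b = T2 ad y b - L2 ad y b) ∧
      (∀ a b, P ad {i | i < k} (y' a b) = 0) ∧
      ∀ a b, P ad {i | k < i} (y' a b) = 0 := by
  induction n with
  | zero =>
    intro y hy hl ht _
    refine ⟨y, hy, fun _ => rfl, hl, ?_⟩
    intro a b
    have := ht a b
    simpa using this
  | succ n ih =>
    intro y hy hl ht hd
    obtain ⟨y', hy', hd', hl', ht'⟩ := down_step hsymm hirr hac k (k + (n + 1 : ℕ)) (by omega)
      y hy hl ht hd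
    have h1 : k + ((n + 1 : ℕ) : ℤ) - 1 = k + n := by push_cast; ring
    rw [h1] at ht'
    obtain ⟨y'', hy'', hd'', hl'', ht''⟩ := ih y' hy' hl' ht' (by intro b; rw [hd' b]; exact hd b)
    exact ⟨y'', hy'', fun b => (hd'' b).trans (hd' b), hl'', ht''⟩

theorem bdd2 (y : V → V → ZG (RAAG ad)) : ∃ N : ℕ, ∀ a b,
    P ad {i | i < -(N : ℤ)} (y a b) = 0 ∧ P ad {i | (N : ℤ) < i} (y a b) = 0 := by
  choose N h1 h2 using fun a b => P_bdd ad (y a b)
  refine ⟨Finset.univ.sup fun a => Finset.univ.sup fun b => N a b, fun a b => ?_⟩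
  have h3 : N a b ≤ Finset.univ.sup fun a => Finset.univ.sup fun b => N a b :=
    (Finset.le_sup (f := fun b => N a b) (Finset.mem_univ b)).trans
      (Finset.le_sup (f := fun a => Finset.univ.sup fun b => N a b) (Finset.mem_univ a))
  generalize (Finset.univ.sup fun a => Finset.univ.sup fun b => N a b) = M at h3
  exact ⟨P_anti ad (fun i (hi : i < -(M : ℤ)) => (by change i < -(N a b : ℤ); omega)) (h1 a b),
    P_anti ad (fun i (hi : (M : ℤ) < i) => (by change (N a b : ℤ) < i; omega)) (h2 a b)⟩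

theorem bdd3 (w : V → V → V → ZG (RAAG ad)) : ∃ N : ℕ, ∀ a b c,
    P ad {i | i < -(N : ℤ)} (w a b c) = 0 ∧ P ad {i | (N : ℤ) < i} (w a b c) = 0 := by
  choose N h using fun a => bdd2 (w a)
  refine ⟨Finset.univ.sup fun a => N a, fun a b c => ?_⟩
  have h3 : N a ≤ Finset.univ.sup fun a => N a :=
    Finset.le_sup (f := fun a => N a) (Finset.mem_univ a)
  generalize (Finset.univ.sup fun a => N a) = M at h3
  exact ⟨P_anti ad (fun i (hi : i < -(M : ℤ)) => (by change i < -(N a : ℤ); omega)) (h a b c).1,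
    P_anti ad (fun i (hi : (M : ℤ) < i) => (by change (N a : ℤ) < i; omega)) (h a b c).2⟩

include hsymm hirr hk4 hac in
/-- exactness in degree one -/
theorem E1 (k : ℤ) (x : V → ZG (RAAG ad)) (hx : ∀ b, P ad {i | i ≠ k + 1} (x b) = 0)
    (hL : ∑ b, x b = 0) (hT : ∑ b, gm ad b (x b) = 0) :
    ∃ z, IsAlt3 ad Set.univ z ∧ (∀ a b c, P ad {i | i ≠ k} (z a b c) = 0) ∧
      ∀ b, x b = T2 ad (L3 ad z) b := by
  have hex := (Pool.Agent.W304.DU.th V (ZG (RAAG ad)) ad (rr ad) hsymm hirr hk4
    (reg ad hsymm hirr) Finset.univ).1 x (fun v hv => absurd (Finset.mem_univ v) hv) (by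
      simp only [rr_apply, Finset.sum_sub_distrib]
      rw [hT, hL, sub_zero])
  obtain ⟨y, hy, hxy⟩ := hex
  rw [Finset.coe_univ] at hy
  have hxy' : ∀ b, T2 ad y b - L2 ad y b = x b := fun b => by rw [hxy b, D2_eq]
  obtain ⟨N, hN⟩ := bdd2 y
  obtain ⟨y1, hy1, hd1, hl1⟩ := up_all hsymm hirr hac k (k + N).toNat y hy
    (fun a b => P_anti ad (fun i (hi : i < k - ((k + N).toNat : ℤ)) => (by
      change i < -(N : ℤ); omega)) (hN a b).1)
    (fun b => by
      rw [hxy' b]
      exact P_anti ad (fun i (hi : i < k + 1) => (by change i ≠ k + 1; omega)) (hx b))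
  obtain ⟨N1, hN1⟩ := bdd2 y1
  obtain ⟨y2, hy2, hd2, hl2, ht2⟩ := down_all hsymm hirr hac k (N1 - k).toNat y1 hy1 hl1
    (fun a b => P_anti ad (fun i (hi : k + ((N1 - k).toNat : ℤ) < i) => (by
      change (N1 : ℤ) < i; omega)) (hN1 a b).2)
    (fun b => by
      rw [hd1 b, hxy' b]
      exact P_anti ad (fun i (hi : k + 1 < i) => (by change i ≠ k + 1; omega)) (hx b))
  have hd : ∀ b, T2 ad y2 b - L2 ad y2 b = x b := fun b => by rw [hd2, hd1, hxy']
  have hself : ∀ a b, P ad {i | i < k + 1} (y2 a b) = y2 a b := by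
    intro a b
    apply P_self ad (S' := {i | k < i})
    · ext i
      simp only [Set.mem_union, Set.mem_ofPred_eq, Set.mem_univ, iff_true]
      omega
    · exact ht2 a b
  have hL0 : ∀ b, L2 ad y2 b = 0 := by
    intro b
    have h1 : P ad {i | i < k + 1} (x b) = 0 :=
      P_anti ad (fun i (hi : i < k + 1) => (by change i ≠ k + 1; omega)) (hx b)
    rw [← hd b, map_sub, P_T2, P_L2, T2_zero, zero_sub, neg_eq_zero] at h1
    · have h2 : (fun a b => P ad {i | i < k + 1} (y2 a b)) = y2 := by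
        funext a b
        exact hself a b
      rw [h2] at h1
      exact h1
    · intro a b
      exact P_anti ad (fun i (hi : i + 1 < k + 1) => (by change i < k; omega)) (hl2 a b)
  obtain ⟨z0, hz0, hz1⟩ := hac.ac2 _ y2 hy2 hL0
  refine ⟨fun a b c => P ad {i | i = k} (z0 a b c), alt3_P ad hz0, ?_, ?_⟩
  · intro a b c
    apply P_disj
    ext i
    simp
  · intro b
    have h3 : L3 ad (fun a b c => P ad {i | i = k} (z0 a b c)) = y2 := by
      funext b c
      rw [← P_L3]
      have : L3 ad z0 b c = y2 b c := (hz1 b c).symm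
      rw [this]
      apply P_self ad (S' := {i | i < k} ∪ {i | k < i})
      · ext i
        simp only [Set.mem_union, Set.mem_ofPred_eq, Set.mem_univ, iff_true]
        omega
      · rw [P_zero]
        intro g hg hcon
        rcases hcon with h | h
        · exact (P_zero ad _ _).1 (hl2 b c) g hg h
        · exact (P_zero ad _ _).1 (ht2 b c) g hg h
    rw [h3, ← hd b, hL0 b, sub_zero]

include hac in
theorem low_step (k p : ℤ) (hpk : p < k) (w : V → V → V → ZG (RAAG ad))
    (hw : IsAlt3 ad Set.univ w)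
    (hd : ∀ b c, P ad {i | i ≠ k} (T3 ad w b c - L3 ad w b c) = 0)
    (h : ∀ a b c, P ad {i | i < p} (w a b c) = 0) :
    ∀ a b c, P ad {i | i < p + 1} (w a b c) = 0 := by
  apply hac.ac3 _ _ (alt3_P ad hw)
  intro b c
  have h2 : P ad {i | i < p + 1} (T3 ad w b c - L3 ad w b c) = 0 :=
    P_anti ad (fun i (hi : i < p + 1) => (by change i ≠ k; omega)) (hd b c)
  rw [map_sub, P_T3, P_L3, T3_zero, zero_sub, neg_eq_zero] at h2
  · exact h2
  · intro a b c
    exact P_anti ad (fun i (hi : i + 1 < p + 1) => (by change i < p; omega)) (h a b c)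

include hac in
theorem high_step (k q : ℤ) (hq : k ≤ q) (w : V → V → V → ZG (RAAG ad))
    (hw : IsAlt3 ad Set.univ w)
    (hd : ∀ b c, P ad {i | i ≠ k} (T3 ad w b c - L3 ad w b c) = 0)
    (h : ∀ a b c, P ad {i | q < i} (w a b c) = 0) :
    ∀ a b c, P ad {i | q - 1 < i} (w a b c) = 0 := by
  apply T_inj hac _ (alt3_P ad hw)
  intro b c
  have h2 : P ad {i | q < i} (T3 ad w b c - L3 ad w b c) = 0 :=
    P_anti ad (fun i (hi : q < i) => (by change i ≠ k; omega)) (hd b c)
  rw [map_sub, P_T3, P_L3, L3_zero _ h, sub_zero] at h2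
  have h3 : {i : ℤ | i + 1 ∈ {i : ℤ | q < i}} = {i | q - 1 < i} := by
    ext i
    simp only [Set.mem_ofPred_eq]
    omega
  rw [h3] at h2
  exact h2

include hac in
theorem w_zero (k : ℤ) (w : V → V → V → ZG (RAAG ad)) (hw : IsAlt3 ad Set.univ w)
    (hd : ∀ b c, P ad {i | i ≠ k} (T3 ad w b c - L3 ad w b c) = 0) : ∀ a b c, w a b c = 0 := by
  obtain ⟨N, hN⟩ := bdd3 w
  have hlow : ∀ n : ℕ, n ≤ (k + N).toNat →
      ∀ a b c, P ad {i | i < k - (k + N).toNat + n} (w a b c) = 0 := by
    intro n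
    induction n with
    | zero =>
      intro _ a b c
      exact P_anti ad (fun i hi => (by
        simp only [Set.mem_ofPred_eq] at hi ⊢
        push_cast at hi
        omega)) (hN a b c).1
    | succ n ih =>
      intro hn
      have h1 := low_step hac k (k - (k + N).toNat + n) (by omega) w hw hd (ih (by omega))
      intro a b c
      have h2 := h1 a b c
      have h3 : k - ((k + N).toNat : ℤ) + (n : ℤ) + 1 = k - (k + N).toNat + ((n + 1 : ℕ) : ℤ) := by
        push_cast
        ring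
      rwa [h3] at h2
  have hhigh : ∀ n : ℕ, n ≤ (N - k).toNat + 1 →
      ∀ a b c, P ad {i | k + (N - k).toNat - n < i} (w a b c) = 0 := by
    intro n
    induction n with
    | zero =>
      intro _ a b c
      exact P_anti ad (fun i hi => (by
        simp only [Set.mem_ofPred_eq] at hi ⊢
        push_cast at hi
        omega)) (hN a b c).2
    | succ n ih =>
      intro hn
      have h1 := high_step hac k (k + (N - k).toNat - n) (by omega) w hw hd (ih (by omega))
      intro a b c
      have h2 := h1 a b c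
      have h3 : k + ((N - k).toNat : ℤ) - (n : ℤ) - 1 = k + (N - k).toNat - ((n + 1 : ℕ) : ℤ) := by
        push_cast
        ring
      rwa [h3] at h2
  intro a b c
  have h1 := hlow _ le_rfl a b c
  have h2 := hhigh _ le_rfl a b c
  have h3 : P ad Set.univ (w a b c) = w a b c := P_of ad _ _ fun _ _ => trivial
  rw [← h3, P_zero]
  intro g hg _
  have h4 := (P_zero ad _ _).1 h1 g hg
  have h5 := (P_zero ad _ _).1 h2 g hg
  simp only [Set.mem_ofPred_eq] at h4 h5
  push_cast at h4 h5
  omega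

include hsymm hirr hk4 hac in
/-- injectivity in degree two -/
theorem E2 (k : ℤ) (z : V → V → V → ZG (RAAG ad)) (hz : IsAlt3 ad Set.univ z)
    (hzk : ∀ a b c, P ad {i | i ≠ k} (z a b c) = 0) (h : ∀ b, T2 ad (L3 ad z) b = 0) :
    ∀ a b c, z a b c = 0 := by
  have hyalt := alt2_L3 ad hz
  have hex := (Pool.Agent.W304.DU.th V (ZG (RAAG ad)) ad (rr ad) hsymm hirr hk4
    (reg ad hsymm hirr) Finset.univ).2.1 (L3 ad z) (by rw [Finset.coe_univ]; exact hyalt) (by
      intro b
      rw [D2_eq, h b, LL z hz b, sub_zero])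
  obtain ⟨w, hw, hyw⟩ := hex
  rw [Finset.coe_univ] at hw
  have hyw' : ∀ b c, T3 ad w b c - L3 ad w b c = L3 ad z b c := fun b c => by
    rw [hyw b c, D3_eq]
  have hw0 := w_zero hac k w hw (by
    intro b c
    rw [hyw' b c, P_L3, L3_zero]
    exact hzk)
  apply hac.ac3 _ z hz
  intro b c
  have h1 := hyw' b c
  rw [T3_zero w hw0, L3_zero w hw0, sub_zero] at h1
  exact h1.symm

end push

end Pool.Agent.V1194.HC
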