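import Pool.Agent.V1194.HC.QB
import Pool.Agent.V1194.HC.M2

/-!
# The Bestvina-Brady group is of type `FP₃`: gluing
-/

set_option autoImplicit false
set_option linter.unusedSectionVars false

open CategoryTheory

namespace Pool.Agent.V1194.HC

open Pool.Agent.W326.DU Pool.Agent.Y66.HC Pool.Agent.Helper158

/-- a resolution of length two gives type `FP₃` -/
theorem fp3 (G ι C : Type) [Group G] [Fintype ι] [AddCommGroup C] [Module (ZG G) C]
    [Module.Finite (ZG G) C] [Module.Projective (ZG G) C] (x : ι → G)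
    (hx : Subgroup.closure (Set.range x) = ⊤) (d : C →ₗ[ZG G] (ι → ZG G))
    (hinj : Function.Injective d) (hr : ∀ y, fox x y = 0 ↔ y ∈ LinearMap.range d) :
    FPc 3 G := by
  let s : M2.St (ZG G) :=
    { A := ModuleCat.of (ZG G) (ι → ZG G)
      B := ModuleCat.of (ZG G) C
      d := d }
  let A₀ : ModuleCat.{0} (ZG G) := ModuleCat.of (ZG G) (ZG G)
  let f : s.A →ₗ[ZG G] A₀ := fox x
  have hR : Reso (G := G) (P := fun i => M2.Pm A₀ s i) (M2.dm A₀ s f) (augm G) := by
    refine ⟨Pool.Agent.Y448.HC.augm_surj, ?_, ?_, ?_⟩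
    · intro g (y : ZG G)
      change augm G (MonoidAlgebra.of ℤ G g * y) = augm G y
      rw [Pool.Agent.Y448.HC.augm_mul, Pool.Agent.Y448.HC.augm_of, one_mul]
    · intro y
      exact Pool.Agent.Y448.HC.fox_exact x hx y
    · intro i
      match i with
      | 0 => exact fun y => hr y
      | i + 1 =>
        intro y
        exact M2.nx_exact (M2.sq s i) y
  have hP : ∀ i, Module.Projective (MonoidAlgebra ℤ G) (M2.Pm A₀ s i) := fun i =>
    M2.Pm_proj A₀ s (inferInstanceAs (Module.Projective (ZG G) (ZG G)))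
      (inferInstanceAs (Module.Projective (ZG G) (ι → ZG G)))
      (inferInstanceAs (Module.Projective (ZG G) C)) i
  have hker : Subsingleton (LinearMap.ker d) := by
    rw [LinearMap.ker_eq_bot.2 hinj]
    infer_instance
  have hfin : Finite (LinearMap.ker d) := inferInstance
  refine ⟨hR.pr, ?_⟩
  intro k hk
  match k, hk with
  | 0, _ => exact M2.fin_span (G := G) (M := ZG G)
  | 1, _ => exact M2.fin_span (G := G) (M := ι → ZG G)
  | 2, _ => exact M2.fin_span (G := G) (M := C)
  | 3, _ =>
    have : Module.Finite (ZG G) (LinearMap.ker d →₀ ZG G) := inferInstance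
    exact M2.fin_span (G := G) (M := LinearMap.ker d →₀ ZG G)
  | k + 4, hk => omega

section alt

variable {V M : Type} [AddCommGroup M] (ad : V → V → Prop) {n : ℕ} (e : V → Fin n)

/-- the ordered triangles -/
def Tri (t : V × V × V) : Prop :=
  e t.1 < e t.2.1 ∧ e t.2.1 < e t.2.2 ∧ ad t.1 t.2.1 ∧ ad t.2.1 t.2.2 ∧ ad t.1 t.2.2

open Classical in
/-- extension by zero -/
noncomputable def ex (w : {t // Tri ad e t} → M) (a b c : V) : M :=
  if h : Tri ad e (a, b, c) then w ⟨(a, b, c), h⟩ else 0

/-- the alternating function attached to a function on the ordered triangles -/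
noncomputable def al (w : {t // Tri ad e t} → M) (a b c : V) : M :=
  ex ad e w a b c - ex ad e w a c b + ex ad e w b c a - ex ad e w b a c + ex ad e w c a b
    - ex ad e w c b a

theorem ex_zero (w : {t // Tri ad e t} → M) (a b c : V) (h : ¬ Tri ad e (a, b, c)) :
    ex ad e w a b c = 0 := by
  unfold ex
  rw [dif_neg h]

theorem al_alt (hsymm : ∀ a b, ad a b → ad b a) (w : {t // Tri ad e t} → M) :
    IsAlt3 ad Set.univ (al ad e w) := by
  refine ⟨?_, ?_, ?_⟩
  · intro a b c
    unfold al
    abel
  · intro a b c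
    unfold al
    abel
  · intro a b c h
    have h' : ¬ (ad a b ∧ ad b c ∧ ad a c) := fun h1 => h ⟨trivial, trivial, trivial, h1⟩
    unfold al
    rw [ex_zero, ex_zero, ex_zero, ex_zero, ex_zero, ex_zero]
    · simp
    all_goals
      rintro ⟨_, _, h1, h2, h3⟩
      simp only at h1 h2 h3
      have h1' := hsymm _ _ h1
      have h2' := hsymm _ _ h2
      have h3' := hsymm _ _ h3
      tauto

theorem al_surj (he : Function.Injective e) (hirr : ∀ a, ¬ ad a a)
    (hsymm : ∀ a b, ad a b → ad b a) (z : V → V → V → M)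
    (hz : IsAlt3 ad Set.univ z) (a b c : V) :
    al ad e (fun t => z t.1.1 t.1.2.1 t.1.2.2) a b c = z a b c := by
  classical
  by_cases h : ad a b ∧ ad b c ∧ ad a c
  · obtain ⟨h1, h2, h3⟩ := h
    have h1' := hsymm _ _ h1
    have h2' := hsymm _ _ h2
    have h3' := hsymm _ _ h3
    have n1 : a ≠ b := fun h => hirr b (h ▸ h1)
    have n2 : b ≠ c := fun h => hirr c (h ▸ h2)
    have n3 : a ≠ c := fun h => hirr c (h ▸ h3)
    have e1 : e a ≠ e b := fun h => n1 (he h)
    have e2 : e b ≠ e c := fun h => n2 (he h)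
    have e3 : e a ≠ e c := fun h => n3 (he h)
    have z1 : z a c b = - z a b c := hz.2.1 a c b
    have z2 : z b a c = - z a b c := hz.1 b a c
    have z3 : z b c a = z a b c := by rw [hz.2.1 b c a, z2, neg_neg]
    have z4 : z c a b = z a b c := by rw [hz.1 c a b, z1, neg_neg]
    have z5 : z c b a = - z a b c := by rw [hz.1 c b a, z3]
    unfold al ex Tri
    simp only [h1, h2, h3, h1', h2', h3', and_true, z1, z2, z3, z4, z5]
    rcases lt_or_gt_of_ne e1 with q1 | q1 <;> rcases lt_or_gt_of_ne e2 with q2 | q2 <;>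
      rcases lt_or_gt_of_ne e3 with q3 | q3 <;>
      simp [q1, q2, q3, not_lt_of_gt q1, not_lt_of_gt q2, not_lt_of_gt q3]
    all_goals omega
  · have h0 : z a b c = 0 := hz.2.2 a b c fun h' => h h'.2.2.2
    rw [h0]
    exact (al_alt ad e hsymm _).2.2 a b c fun h' => h h'.2.2.2

theorem al_inj (he : Function.Injective e) (hirr : ∀ a, ¬ ad a a) (w : {t // Tri ad e t} → M)
    (h : ∀ a b c, al ad e w a b c = 0) : w = 0 := by
  classical
  funext ⟨⟨a, b, c⟩, ht⟩
  have h1 := h a b c
  unfold al at h1
  obtain ⟨t1, t2, -⟩ := id ht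
  simp only at t1 t2
  rw [ex_zero ad e w a c b, ex_zero ad e w b c a, ex_zero ad e w b a c, ex_zero ad e w c a b,
    ex_zero ad e w c b a] at h1
  · simp only [sub_zero, add_zero] at h1
    unfold ex at h1
    rw [dif_pos ht] at h1
    exact h1
  all_goals
    rintro ⟨s1, s2, -⟩
    simp only at s1 s2
    omega

theorem al_add (w w' : {t // Tri ad e t} → M) (a b c : V) :
    al ad e (w + w') a b c = al ad e w a b c + al ad e w' a b c := by
  classical
  have : ∀ a b c, ex ad e (w + w') a b c = ex ad e w a b c + ex ad e w' a b c := by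
    intro a b c
    unfold ex
    split_ifs
    · rfl
    · rw [add_zero]
  unfold al
  simp only [this]
  abel

theorem al_smul {R : Type} [Ring R] [Module R M] (r : R) (w : {t // Tri ad e t} → M) (a b c : V) :
    al ad e (r • w) a b c = r • al ad e w a b c := by
  classical
  have : ∀ a b c, ex ad e (r • w) a b c = r • ex ad e w a b c := by
    intro a b c
    unfold ex
    split_ifs
    · rfl
    · rw [smul_zero]
  unfold al
  simp only [this, smul_add, smul_sub]

end alt

end Pool.Agent.V1194.HC
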