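import Pool.Agent.Y66.HC.Defs

/-!
# The homological 1-2-3 conjecture fails (MP_3ca9d5_al, S01246): statements of the parts

`Q = BB ad` is the Bestvina-Brady group of a finite `K₄`-free graph with acyclic clique complex,
`π₂ = piF ad v₀ : FreeGroup V → Q`, `v ↦ v₀⁻¹ v`, and `G₁` is the HNN extension of `F × Q` whose
stable letter centralises the graph of `π₂`.

The definitions `FPc`, `fox`, `RM`, `PropM1`, `PropM2`, `Acyc`, `GrData`, `PropM8` are those of
`Pool.Agent.Y66.HC.Defs`.
-/

set_option autoImplicit false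

open CategoryTheory

namespace Pool.Agent.V1194.HC

open Pool.Agent.W326.DU Pool.Agent.Y66.HC

section defs

variable {V : Type} (ad : V → V → Prop)

/-- the height homomorphism of a right-angled Artin group -/
def hgt : RAAG ad →* Multiplicative ℤ :=
  PresentedGroup.toGroup (f := fun _ : V => Multiplicative.ofAdd (1 : ℤ)) (by
    rintro r ⟨a, b, _, rfl⟩
    simp)

theorem hgt_gen (v : V) : hgt ad (gen ad v) = Multiplicative.ofAdd 1 :=
  PresentedGroup.toGroup.of _

/-- the Bestvina-Brady group -/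
abbrev BB : Subgroup (RAAG ad) := (hgt ad).ker

/-- the element `v₀⁻¹ v` of the Bestvina-Brady group -/
def xg (v₀ v : V) : BB ad :=
  ⟨(gen ad v₀)⁻¹ * gen ad v, by rw [MonoidHom.mem_ker, map_mul, map_inv, hgt_gen, hgt_gen]; simp⟩

/-- the homomorphism `π₂`, `v ↦ v₀⁻¹ v` -/
def piF (v₀ : V) : FreeGroup V →* BB ad := FreeGroup.lift (xg ad v₀)

end defs

/-- **QFP** (part P4): the Bestvina-Brady group is of type `FP₃` (it has a resolution
`0 → ℤQ^60 → ℤQ^20 → ℤQ → ℤ → 0`). -/
def PropQFP : Prop := ∀ (V J : Type) [Fintype V] [Group J] (ad : V → V → Prop) (γ : V → V → J)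
  (l : ℕ) (p : ℕ → V), GrData ad γ l p → FPc 3 (BB ad)

/-- **GEN** (part P4): the elements `v₀⁻¹ v` generate the Bestvina-Brady group. -/
def PropGEN : Prop := ∀ (V J : Type) [Fintype V] [Group J] (ad : V → V → Prop) (γ : V → V → J)
  (l : ℕ) (p : ℕ → V), GrData ad γ l p → ∀ v₀ : V, Function.Surjective (piF ad v₀)

/-- **NFG** (part P5): the kernel of `π₂` is not the normal closure of a finite set. -/
def PropNFG : Prop := ∀ (V J : Type) [Fintype V] [Group J] (ad : V → V → Prop) (γ : V → V → J)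
  (l : ℕ) (p : ℕ → V), GrData ad γ l p → ∀ v₀ : V,
  ¬ ∃ S : Set (FreeGroup V), S.Finite ∧ Subgroup.normalClosure S = (piF ad v₀).ker

/-- **FREE**: the relation module of a free group is zero. -/
def PropFREE : Prop := ∀ (V : Type) [Fintype V],
  RM (fun v : V => FreeGroup.of v) = ⊥

section hnn

variable {F Q : Type} [Group F] [Group Q] (π : F →* Q)

/-- the graph of `π` -/
def Gam : Subgroup (F × Q) := (MonoidHom.prod (MonoidHom.id F) π).range

/-- the HNN extension -/
abbrev G1 : Type := HNNExtension (F × Q) (Gam π) (Gam π) (MulEquiv.refl _)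

/-- `π₁` -/
def pi1 : G1 π →* Q :=
  HNNExtension.lift (MonoidHom.snd F Q) 1 (by intro a; simp)

end hnn

/-- **G1FP** (part P6): `G₁` is of type `FP₂`. -/
def PropG1FP : Prop := ∀ (V Q : Type) [Fintype V] [Group Q] (π : FreeGroup V →* Q),
  Function.Surjective π → FPc 2 Q → FPc 2 (G1 π)

/-- **G1KER** (part P6): the kernel of `π₁` is finitely generated. -/
def PropG1KER : Prop := ∀ (V Q : Type) [Fintype V] [Group Q] (π : FreeGroup V →* Q),
  Function.Surjective π → Group.FG (pi1 π).ker

/-- **PNFP** (part P6): the fibre product is not of type `FP₂`. -/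
def PropPNFP : Prop := ∀ (V Q : Type) [Fintype V] [Group Q] (π : FreeGroup V →* Q),
  Function.Surjective π →
  (¬ ∃ S : Set (FreeGroup V), S.Finite ∧ Subgroup.normalClosure S = π.ker) →
  ¬ FPc 2 ↥(((pi1 π).comp (MonoidHom.fst (G1 π) (FreeGroup V))).eqLocus
      (π.comp (MonoidHom.snd (G1 π) (FreeGroup V))))

end Pool.Agent.V1194.HC
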